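import Pool.Agent.H548R2.Post.Main

set_option autoImplicit false

/-!
A function with values in `{0, 1}` which avoids a partial function c.e. in `X`, is a limit of
approximations computable from `X`, and is low over `X`.
-/

namespace Pool.Agent.Run7.h353.PI

open Encodable Pool.Agent.Helper227 Pool.Agent.H548R2.Post
open Nat.Partrec (Code)

/-- The program `c` is seen to halt on `((g, b), σ')`, `σ'` an initial segment of `σ`. -/
def hav (c : Code) (σ : List Bool) (g : ℕ) (b : Bool) : Prop :=
  ∃ t < σ.length + 1, (Code.evaln σ.length c (encode ((g, b), σ.take t))).isSome = true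

/-- initial segment of length `t` of the join of `σ` and `τ` -/
def jst (σ : List Bool) (τ : ℕ → Bool) (t : ℕ) : List Bool :=
  (List.range t).map (fun i => if i % 2 = 0 then σ.getD (i / 2) false else τ (i / 2))

/-- the `r`-th condition -/
def cnd (σ : List Bool) (τ : ℕ → Bool) (r : ℕ) : Prop :=
  (r % 2 = 0 → ∀ t < σ.length + 1, hlt σ.length (r / 2) (r / 2) (jst σ τ t) = false) ∧
  (r % 2 = 1 → r / 2 < σ.length → τ (r / 2) = false)

/-- `τ` is still allowed -/
def okc (c : Code) (σ : List Bool) (τ : ℕ → Bool) (B : List Bool) : Prop :=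
  (∀ g < σ.length, ¬ hav c σ g (τ g)) ∧ ∀ r < B.length, B.getD r false = true → cnd σ τ r

/-- bit `i` of the number `k` -/
def bt (k i : ℕ) : Bool := decide (k / 2 ^ i % 2 = 1)

open Classical in
/-- approximation to the sequence of answers -/
noncomputable def Bs (c : Code) (σ : List Bool) : ℕ → List Bool
  | 0 => []
  | r + 1 => Bs c σ r ++ [decide (∃ k < 2 ^ σ.length, okc c σ (bt k) (Bs c σ r ++ [true]))]

/-- approximation to the function -/
noncomputable def F (c : Code) (σ : List Bool) (g : ℕ) : Bool :=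
  !((Bs c σ (2 * g + 2)).getD (2 * g + 1) false)

open Classical in
/-- the sequence of answers -/
noncomputable def Bst (c : Code) (X : ℕ → Bool) : ℕ → List Bool
  | 0 => []
  | r + 1 => Bst c X r ++ [decide (∀ s, ∃ τ, okc c (pre X s) τ (Bst c X r ++ [true]))]

/-- the function -/
noncomputable def fl (c : Code) (X : ℕ → Bool) (g : ℕ) : Bool :=
  !((Bst c X (2 * g + 2)).getD (2 * g + 1) false)

theorem exists_bt (τ : ℕ → Bool) (s : ℕ) : ∃ k < 2 ^ s, ∀ i < s, bt k i = τ i := by
  refine ⟨Nat.ofBits (fun i : Fin s => τ i), Nat.ofBits_lt_two_pow _, fun i hi => ?_⟩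
  have := Nat.testBit_ofBits_lt (fun i : Fin s => τ i) i hi
  rw [Nat.testBit_eq_decide_div_mod_eq] at this
  exact this

theorem jst_congr {σ : List Bool} {τ τ' : ℕ → Bool} {t : ℕ} (h : ∀ i < σ.length, τ i = τ' i)
    (ht : t < σ.length + 1) : jst σ τ t = jst σ τ' t := by
  unfold jst
  refine List.map_congr_left fun i hi => ?_
  rw [List.mem_range] at hi
  by_cases h2 : i % 2 = 0
  · simp [h2]
  · simp only [h2, if_false]
    exact h _ (by omega)

theorem cnd_congr {σ : List Bool} {τ τ' : ℕ → Bool} {r : ℕ} (h : ∀ i < σ.length, τ i = τ' i)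
    (h1 : cnd σ τ r) : cnd σ τ' r := by
  refine ⟨fun hr t ht => ?_, fun hr hl => ?_⟩
  · rw [← jst_congr h ht]
    exact h1.1 hr t ht
  · rw [← h _ hl]
    exact h1.2 hr hl

theorem okc_congr {c : Code} {σ : List Bool} {τ τ' : ℕ → Bool} {B : List Bool}
    (h : ∀ i < σ.length, τ i = τ' i) (h1 : okc c σ τ B) : okc c σ τ' B := by
  refine ⟨fun g hg => ?_, fun r hr hB => cnd_congr h (h1.2 r hr hB)⟩
  rw [← h g hg]
  exact h1.1 g hg

theorem ex_okc_iff {c : Code} {σ : List Bool} {B : List Bool} :
    (∃ k < 2 ^ σ.length, okc c σ (bt k) B) ↔ ∃ τ, okc c σ τ B := by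
  constructor
  · rintro ⟨k, _, hk⟩
    exact ⟨_, hk⟩
  · rintro ⟨τ, hτ⟩
    obtain ⟨k, hk, h⟩ := exists_bt τ σ.length
    exact ⟨k, hk, okc_congr (fun i hi => (h i hi).symm) hτ⟩

theorem hav_mono {c : Code} {X : ℕ → Bool} {s s' g : ℕ} {b : Bool} (h : s ≤ s')
    (h1 : hav c (pre X s) g b) : hav c (pre X s') g b := by
  obtain ⟨t, ht, h2⟩ := h1
  simp only [length_pre] at ht h2
  refine ⟨t, by simp only [length_pre]; omega, ?_⟩
  simp only [length_pre]
  rw [take_pre _ _ _ (by omega)] at h2 ⊢
  rw [Option.isSome_iff_exists] at h2 ⊢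
  obtain ⟨x, hx⟩ := h2
  exact ⟨x, Nat.Partrec.Code.evaln_mono h hx⟩

theorem jst_pre {X τ : ℕ → Bool} {s s' t : ℕ} (hs : s ≤ s') (ht : t < s + 1) :
    jst (pre X s) τ t = jst (pre X s') τ t := by
  unfold jst
  refine List.map_congr_left fun i hi => ?_
  rw [List.mem_range] at hi
  rw [pre_getD _ _ _ _ (by omega), pre_getD _ _ _ _ (by omega)]

theorem cnd_anti {X τ : ℕ → Bool} {s s' r : ℕ} (h : s ≤ s') (h1 : cnd (pre X s') τ r) :
    cnd (pre X s) τ r := by
  simp only [cnd, length_pre] at *
  refine ⟨fun hr t ht => ?_, fun hr hl => h1.2 hr (by omega)⟩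
  have h2 := h1.1 hr t (by omega)
  rw [← jst_pre h ht] at h2
  by_contra h3
  rw [Bool.not_eq_false] at h3
  rw [hlt_mono h h3] at h2
  exact absurd h2 (by simp)

theorem okc_anti {c : Code} {X τ : ℕ → Bool} {s s' : ℕ} {B : List Bool} (h : s ≤ s')
    (h1 : okc c (pre X s') τ B) : okc c (pre X s) τ B := by
  refine ⟨fun g hg h2 => ?_, fun r hr hB => cnd_anti h (h1.2 r hr hB)⟩
  simp only [length_pre] at hg
  exact h1.1 g (by simp only [length_pre]; omega) (hav_mono h h2)

theorem length_Bst (c : Code) (X : ℕ → Bool) (r : ℕ) : (Bst c X r).length = r := by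
  induction r with
  | zero => rfl
  | succ r ih => simp [Bst, ih]

theorem length_Bs (c : Code) (σ : List Bool) (r : ℕ) : (Bs c σ r).length = r := by
  induction r with
  | zero => rfl
  | succ r ih => simp [Bs, ih]

theorem Bs_lim (c : Code) (X : ℕ → Bool) (r : ℕ) : ∃ s0, ∀ s ≥ s0, Bs c (pre X s) r = Bst c X r := by
  induction r with
  | zero => exact ⟨0, fun _ _ => rfl⟩
  | succ r ih =>
    obtain ⟨s0, h0⟩ := ih
    by_cases h : ∀ s, ∃ τ, okc c (pre X s) τ (Bst c X r ++ [true])
    · refine ⟨s0, fun s hs => ?_⟩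
      simp only [Bs, Bst]
      congr 2
      · exact h0 s hs
      · rw [decide_eq_decide, ex_okc_iff, h0 s hs]
        exact ⟨fun _ => h, fun _ => h s⟩
    · have h' := h
      push Not at h'
      obtain ⟨s1, h1⟩ := h'
      refine ⟨max s0 s1, fun s hs => ?_⟩
      simp only [Bs, Bst]
      congr 2
      · exact h0 s (le_trans (le_max_left _ _) hs)
      · rw [decide_eq_decide, ex_okc_iff, h0 s (le_trans (le_max_left _ _) hs)]
        refine ⟨fun h2 => ?_, fun h2 => absurd h2 h⟩
        obtain ⟨τ, hτ⟩ := h2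
        exact absurd (okc_anti (le_trans (le_max_right _ _) hs) hτ) (h1 τ)

theorem F_lim (c : Code) (X : ℕ → Bool) (g : ℕ) : ∃ s0, ∀ s ≥ s0, F c (pre X s) g = fl c X g := by
  obtain ⟨s0, h0⟩ := Bs_lim c X (2 * g + 2)
  refine ⟨s0, fun s hs => ?_⟩
  rw [F, fl, h0 s hs]

theorem Bst_getD {c : Code} {X : ℕ → Bool} {r r' : ℕ} (h : r' < r) :
    (Bst c X r).getD r' false = (Bst c X (r' + 1)).getD r' false := by
  induction r with
  | zero => omega
  | succ r ih =>
    rcases Nat.lt_succ_iff_lt_or_eq.1 h with h1 | rfl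
    · rw [← ih h1]
      change (Bst c X r ++ _).getD r' false = _
      rw [List.getD_append]
      rw [length_Bst]
      exact h1
    · rfl

theorem Bst_last {c : Code} {X : ℕ → Bool} {r : ℕ} :
    (Bst c X (r + 1)).getD r false = true ↔
      ∀ s, ∃ τ, okc c (pre X s) τ (Bst c X r ++ [true]) := by
  change (Bst c X r ++ _).getD r false = true ↔ _
  rw [List.getD_append_right _ _ _ _ (by rw [length_Bst]), length_Bst]
  simp

section
variable {c : Code} {X : ℕ → Bool}
  (hsv : ∀ (g s s' : ℕ) (b b' : Bool), hav c (pre X s) g b → hav c (pre X s') g b' → b = b')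
include hsv

theorem survivors (r s : ℕ) : ∃ τ, okc c (pre X s) τ (Bst c X r) := by
  classical
  induction r with
  | zero =>
    refine ⟨fun g => if hav c (pre X s) g false then true else false, fun g _ => ?_, ?_⟩
    · by_cases h : hav c (pre X s) g false
      · simp only [if_pos h]
        intro h1
        have := hsv g s s _ _ h h1
        exact absurd this (by simp)
      · have h' : (if hav c (pre X s) g false then true else false) = false := if_neg h
        simp only [h']
        exact h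
    · intro r hr
      simp [Bst] at hr
  | succ r ih =>
    by_cases h : ∀ s, ∃ τ, okc c (pre X s) τ (Bst c X r ++ [true])
    · have : Bst c X (r + 1) = Bst c X r ++ [true] := by
        simp only [Bst]
        rw [decide_eq_true h]
      rw [this]
      exact h s
    · have h2 : Bst c X (r + 1) = Bst c X r ++ [false] := by
        simp only [Bst]
        rw [decide_eq_false h]
      rw [h2]
      obtain ⟨τ, hτ⟩ := ih
      refine ⟨τ, hτ.1, fun r' hr' hB => ?_⟩
      rw [List.length_append, List.length_singleton, length_Bst] at hr'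
      rcases Nat.lt_succ_iff_lt_or_eq.1 hr' with h3 | rfl
      · rw [List.getD_append _ _ _ _ (by rw [length_Bst]; exact h3)] at hB
        exact hτ.2 r' (by rw [length_Bst]; exact h3) hB
      · rw [List.getD_append_right _ _ _ _ (by rw [length_Bst]), length_Bst] at hB
        simp at hB

omit hsv in
theorem okc_Bst_le {σ : List Bool} {τ : ℕ → Bool} {r r' : ℕ} (h : r' ≤ r)
    (h1 : okc c σ τ (Bst c X r)) : okc c σ τ (Bst c X r') := by
  refine ⟨h1.1, fun r'' hr hB => ?_⟩
  rw [length_Bst] at hr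
  refine h1.2 r'' (by rw [length_Bst]; omega) ?_
  rw [Bst_getD (by omega)]
  rw [Bst_getD (by omega)] at hB
  exact hB

omit hsv in
theorem okc_append {σ : List Bool} {τ : ℕ → Bool} {r : ℕ} 
    (h1 : okc c σ τ (Bst c X r)) (h2 : cnd σ τ r) : okc c σ τ (Bst c X r ++ [true]) := by
  refine ⟨h1.1, fun r' hr' hB => ?_⟩
  rw [List.length_append, List.length_singleton, length_Bst] at hr'
  rcases Nat.lt_succ_iff_lt_or_eq.1 hr' with h3 | rfl
  · rw [List.getD_append _ _ _ _ (by rw [length_Bst]; exact h3)] at hB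
    exact h1.2 r' (by rw [length_Bst]; exact h3) hB
  · exact h2

omit hsv in
theorem agree (g : ℕ) : ∃ s0, ∀ s ≥ s0, ∀ r ≥ 2 * g + 2, ∀ τ, okc c (pre X s) τ (Bst c X r) →
    τ g = fl c X g := by
  by_cases hb : (Bst c X (2 * g + 2)).getD (2 * g + 1) false = true
  · refine ⟨g + 1, fun s hs r hr τ hτ => ?_⟩
    have h1 := okc_Bst_le hr hτ
    have h2 := (h1.2 (2 * g + 1) (by rw [length_Bst]; omega) hb).2 (by omega)
      (by rw [length_pre]; omega)
    have e1 : (2 * g + 1) / 2 = g := by omega
    rw [e1] at h2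
    rw [fl, hb, h2]
    rfl
  · have hb' := hb
    rw [show 2 * g + 2 = (2 * g + 1) + 1 by ring, Bst_last] at hb'
    push Not at hb'
    obtain ⟨s1, h1⟩ := hb'
    refine ⟨max s1 (g + 1), fun s hs r hr τ hτ => ?_⟩
    have hs1 : s1 ≤ s := le_trans (le_max_left _ _) hs
    have hs2 : g + 1 ≤ s := le_trans (le_max_right _ _) hs
    have e1 : (2 * g + 1) / 2 = g := by omega
    rw [fl]
    simp only [Bool.not_eq_true] at hb
    rw [hb]
    by_contra hne
    have h3 : τ g = false := by simpa using hne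
    refine h1 τ (okc_anti hs1 (okc_append (okc_Bst_le (by omega) hτ) ⟨fun h => by omega, fun _ _ => ?_⟩))
    rw [e1]
    exact h3

omit hsv in
theorem agree_all (m : ℕ) : ∃ s0, ∃ r0, ∀ s ≥ s0, ∀ r ≥ r0, ∀ τ, okc c (pre X s) τ (Bst c X r) →
    ∀ g < m, τ g = fl c X g := by
  induction m with
  | zero => exact ⟨0, 0, fun _ _ _ _ _ _ g hg => absurd hg (Nat.not_lt_zero _)⟩
  | succ m ih =>
    obtain ⟨s0, r0, h0⟩ := ih
    obtain ⟨s1, h1⟩ := agree (c := c) (X := X) m
    refine ⟨max s0 s1, max r0 (2 * m + 2), fun s hs r hr τ hτ g hg => ?_⟩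
    rcases Nat.lt_succ_iff_lt_or_eq.1 hg with h2 | rfl
    · exact h0 s (le_trans (le_max_left _ _) hs) r (le_trans (le_max_left _ _) hr) τ hτ g h2
    · exact h1 s (le_trans (le_max_right _ _) hs) r (le_trans (le_max_right _ _) hr) τ hτ

theorem fl_avoid {s g : ℕ} {b : Bool} (h : hav c (pre X s) g b) : fl c X g ≠ b := by
  obtain ⟨s0, h0⟩ := agree (c := c) (X := X) g
  obtain ⟨τ, hτ⟩ := survivors hsv (2 * g + 2) (max (max s0 s) (g + 1))
  have h1 := h0 _ (le_trans (le_max_left _ _) (le_max_left _ _)) _ le_rfl τ hτ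
  rw [← h1]
  rintro rfl
  refine hτ.1 g ?_ (hav_mono (le_trans (le_max_right _ _) (le_max_left _ _)) h)
  rw [length_pre]
  exact lt_of_lt_of_le (Nat.lt_succ_self _) (le_max_right _ _)

omit hsv in
theorem jst_eq_pre {τ : ℕ → Bool} {s t : ℕ} (ht : t < s + 1) (h : ∀ g < s, τ g = fl c X g) :
    jst (pre X s) τ t = pre (join X (fl c X)) t := by
  unfold jst pre join
  refine List.map_congr_left fun i hi => ?_
  rw [List.mem_range] at hi
  by_cases h2 : i % 2 = 0
  · simp only [h2, if_true]
    rw [← pre_getD X s (i / 2) false (by omega)]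
    rfl
  · simp only [h2, if_false]
    exact h _ (by omega)

theorem jump_join_fl (e : ℕ) : jump (join X (fl c X)) e = true ↔
    (Bst c X (2 * e + 1)).getD (2 * e) false = false := by
  have e1 : (2 * e) % 2 = 0 := by omega
  have e2 : (2 * e) / 2 = e := by omega
  rw [jump_eq_true, mem_WE_iff]
  constructor
  · rintro ⟨m, t, ht, h⟩
    by_contra hb
    rw [Bool.not_eq_false] at hb
    obtain ⟨s0, r0, h0⟩ := agree_all (c := c) (X := X) (t + 1)
    obtain ⟨τ, hτ⟩ := survivors hsv (max r0 (2 * e + 1)) (max (max s0 m) t)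
    have h1 := h0 _ (le_trans (le_max_left _ _) (le_max_left _ _)) _ (le_max_left _ _) τ hτ
    have hlt1 : 2 * e < max r0 (2 * e + 1) := lt_of_lt_of_le (Nat.lt_succ_self _) (le_max_right _ _)
    have h2 := (hτ.2 (2 * e) (by rw [length_Bst]; exact hlt1) (by rw [Bst_getD hlt1]; exact hb)).1 e1 t
      (by rw [length_pre]; exact Nat.lt_succ_of_le (le_max_right _ _))
    rw [e2, length_pre] at h2
    have h3 : jst (pre X (max (max s0 m) t)) τ t = pre (join X (fl c X)) t := by
      unfold jst pre join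
      refine List.map_congr_left fun i hi => ?_
      rw [List.mem_range] at hi
      by_cases h2 : i % 2 = 0
      · simp only [h2, if_true]
        have h4 : i / 2 < max (max s0 m) t := lt_of_lt_of_le (by omega) (le_max_right _ _)
        rw [← pre_getD X (max (max s0 m) t) (i / 2) false h4]
        rfl
      · simp only [h2, if_false]
        exact h1 _ (by omega)
    rw [h3] at h2
    rw [hlt_mono (le_trans (le_max_right _ _) (le_max_left _ _)) h] at h2
    exact absurd h2 (by simp)
  · intro hb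
    have hb' : ¬ (Bst c X (2 * e + 1)).getD (2 * e) false = true := by rw [hb]; simp
    rw [Bst_last] at hb'
    push Not at hb'
    obtain ⟨s1, h1⟩ := hb'
    obtain ⟨s0, r0, h0⟩ := agree_all (c := c) (X := X) (s1 + 1)
    obtain ⟨τ, hτ⟩ := survivors hsv (max r0 (2 * e)) (max s0 s1)
    have h2 := h0 _ (le_max_left _ _) _ (le_max_left _ _) τ hτ
    have h3 := okc_anti (le_max_right s0 s1) (okc_Bst_le (le_max_right _ _) hτ)
    by_contra hne
    refine h1 τ (okc_append h3 ⟨fun _ t ht => ?_, fun h => by omega⟩)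
    rw [length_pre] at ht
    rw [e2, length_pre, jst_eq_pre ht (fun g hg => h2 g (by omega))]
    by_contra h4
    rw [Bool.not_eq_false] at h4
    exact hne ⟨s1, t, by omega, h4⟩

end

end Pool.Agent.Run7.h353.PI
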