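import Pool.Agent.Run7.h353.PI.A9
import Pool.Agent.H639.LU.N1
import Pool.Agent.H639.LU.C1
import Pool.Agent.H639.LU.D1

set_option autoImplicit false

/-!
The main theorem.
-/

namespace Pool.Agent.Run7.h353.PI

open Encodable Pool.Agent.Helper227 Pool.Agent.H548R2.Post
open Pool.Agent.H639.LU (Red dec nxt nxtv D1 N1 C1_nxt)
open Nat.Partrec (Code)

theorem seg_eq (X : ℕ → Bool) (n : ℕ) : Pool.Agent.Helper446.Defs.seg X n = pre X n := rfl

theorem pr_dec (c : Code) : Primrec (dec c) := by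
  have h1 : Primrec fun y : List Bool × (ℕ × List Bool) =>
      nxt c (y.1.take (y.2.1 + 1)) y.2.2.length :=
    C1_nxt.comp ((Primrec.const c).pair (((Primrec.list_take.comp
      (Primrec.succ.comp (Primrec.fst.comp Primrec.snd)) Primrec.fst)).pair
      (Primrec.list_length.comp (Primrec.snd.comp Primrec.snd))))
  have h := Primrec.nat_rec' (f := fun x : List Bool => x.length)
    (g := fun _ => ([] : List Bool)) (h := fun (x : List Bool) (q : ℕ × List Bool) =>
      q.2 ++ (nxt c (x.take (q.1 + 1)) q.2.length).toList) Primrec.list_length (Primrec.const [])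
      (Primrec.list_append.comp (Primrec.snd.comp Primrec.snd) (Primrec.optionToList.comp h1))
  exact h

theorem sys_dec (i j : Code) : Sys (dec i) (dec j) :=
  ⟨pr_dec i, pr_dec j, D1.2.2.1 i, D1.2.2.1 j, D1.2.2.2 i, D1.2.2.2 j⟩

theorem dec_red {i : Code} {X Y : ℕ → Bool} (h : Red i X Y) (s : ℕ) :
    dec i (pre X s) = pre Y (dec i (pre X s)).length := by
  induction s with
  | zero => rfl
  | succ s ih =>
    rw [pre_succ, D1.2.1, ← pre_succ]
    cases hn : nxt i (pre X (s + 1)) (dec i (pre X s)).length with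
    | none =>
      simp only [Option.toList_none, List.append_nil]
      exact ih
    | some b =>
      simp only [Option.toList_some, List.length_append, List.length_singleton]
      rw [pre_succ, ← ih]
      congr 2
      unfold nxt at hn
      rw [Option.map_eq_some_iff] at hn
      obtain ⟨v, hv, hb⟩ := hn
      obtain ⟨s', _, hs'⟩ := N1.2.1 i X _ (s + 1) v hv
      have h1 := (h _ v).1 ⟨s', hs'⟩
      rw [← hb, h1]
      cases Y (dec i (pre X s)).length <;> rfl

theorem dec_unbounded {i : Code} {X Y : ℕ → Bool} (h : Red i X Y) (t : ℕ) :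
    ∃ s, t ≤ (dec i (pre X s)).length := by
  induction t with
  | zero => exact ⟨0, Nat.zero_le _⟩
  | succ t ih =>
    obtain ⟨s, hs⟩ := ih
    obtain ⟨s1, hs1⟩ := (h t (Y t).toNat).2 rfl
    obtain ⟨s2, hs2⟩ := N1.2.2 i X t s1 (Part.dom_iff_mem.2 ⟨_, hs1⟩)
    obtain ⟨m, hm⟩ : ∃ m, m = max s s2 := ⟨_, rfl⟩
    refine ⟨m + 1, ?_⟩
    have h1 : t ≤ (dec i (pre X m)).length :=
      hs.trans (len_mono (D1.2.2.1 i) (by omega))
    rw [pre_succ, D1.2.1, ← pre_succ, List.length_append]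
    rcases h1.eq_or_lt with h2 | h2
    · have h3 := N1.1 i (pre X s2) (pre X (m + 1)) t (pre_prefix X (by omega)) hs2
      rw [← h2]
      have h4 : (nxt i (pre X (m + 1)) t).isSome = true := by
        unfold nxt
        rw [Option.isSome_map]
        exact h3
      obtain ⟨b, hb⟩ := Option.isSome_iff_exists.1 h4
      rw [hb]
      simp
    · omega

theorem ed_of_red {i j : Code} {X Y : ℕ → Bool} (h : Red i X Y) (h' : Red j Y X) :
    Ed (dec i) (dec j) X Y :=
  ⟨⟨dec_red h, dec_unbounded h⟩, ⟨dec_red h', dec_unbounded h'⟩⟩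

theorem chr_join {c : Code} {P Q : List Bool → List Bool} {X : ℕ → Bool} :
    chr {m | join X (Ac P Q c X) m = true} = join X (Ac P Q c X) := by
  funext m
  simp [chr]

/-- the index -/
theorem exists_idx {P Q : List Bool → List Bool} (S : Sys P Q) (c : Code) :
    ∃ e : ℕ, ∀ X : ℕ → Bool, WE X e = {m | join X (Ac P Q c X) m = true} := by
  have hE : S1 fun x : List Bool × ℕ => (x.2 % 2 = 0 ∧ x.1[x.2 / 2]? = some true) ∨
      (x.2 % 2 = 1 ∧ AS P Q c x.1 (x.2 / 2)) := by
    refine S1.of_prim (PrimrecPred.or (PrimrecPred.and (pr_par Primrec.snd 0) ?_)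
      (PrimrecPred.and (pr_par Primrec.snd 1) ?_))
    · exact Primrec.eq.comp (Primrec.list_getElem?.comp Primrec.fst (pr_half Primrec.snd))
        (Primrec.const (some true))
    · exact pr_AS S c Primrec.fst (pr_half Primrec.snd)
  obtain ⟨d, hd⟩ := Nat.Partrec.Code.exists_code.1 hE.re
  refine ⟨encode d, fun X => ?_⟩
  ext m
  simp only [WE, Set.mem_ofPred_eq, Denumerable.ofNat_encode]
  have h1 : (∃ k : ℕ, (d.eval (encode ((List.range k).map X, m))).Dom) ↔
      ∃ k : ℕ, (m % 2 = 0 ∧ (pre X k)[m / 2]? = some true) ∨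
      (m % 2 = 1 ∧ AS P Q c (pre X k) (m / 2)) := by
    refine exists_congr fun k => ?_
    rw [hd]
    simp [Part.assert, pre]
  rw [h1]
  have h2 : ∀ k : ℕ, (pre X k)[m / 2]? = some true ↔ m / 2 < k ∧ X (m / 2) = true := by
    intro k
    unfold pre
    rw [List.getElem?_map]
    by_cases hk : m / 2 < k
    · rw [List.getElem?_eq_getElem (by simpa using hk)]
      simp [hk]
    · rw [List.getElem?_eq_none (by simpa using hk)]
      simp [hk]
  have h5 : join X (Ac P Q c X) m = true ↔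
      (if m % 2 = 0 then X (m / 2) = true else AX P Q c X (m / 2)) := by
    unfold join
    split_ifs
    · exact Iff.rfl
    · exact Ac_true
  rw [h5]
  constructor
  · rintro ⟨k, ⟨h3, h4⟩ | ⟨h3, h4⟩⟩
    · rw [if_pos h3]
      exact ((h2 k).1 h4).2
    · rw [if_neg (by omega)]
      exact ⟨k, h4⟩
  · intro h
    by_cases h3 : m % 2 = 0
    · rw [if_pos h3] at h
      exact ⟨m / 2 + 1, Or.inl ⟨h3, (h2 _).2 ⟨by omega, h⟩⟩⟩
    · rw [if_neg h3] at h
      obtain ⟨k, hk⟩ := h
      exact ⟨k, Or.inr ⟨by omega, hk⟩⟩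

theorem not_Ac_le {P Q : List Bool → List Bool} (S : Sys P Q) (c : Code) (X : ℕ → Bool) :
    ¬ TLe (Ac P Q c X) X := by
  intro h
  obtain ⟨I, Z, O, hk, rfl⟩ := exists_orb P Q X
  have h1 : SI (Z 0) fun x : ℕ => ¬ AX P Q c (Z 0) x := by
    refine ((tLe_iff_SI.1 h).comp (f := fun x : ℕ => (x, false)) (Primrec.id.pair
      (Primrec.const false))).of_eq fun x => ?_
    rw [← Ac_true (P := P) (Q := Q) (c := c) (X := Z 0)]
    simp
  have h2 : CEIn (Z 0) {x | ¬ AX P Q c (Z 0) x} := SI.iff_ceIn.2 h1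
  obtain ⟨e, he⟩ := ceIn_iff_exists_WE.1 h2
  obtain ⟨u, hu, G⟩ := exists_Gd S O hk e
  refine pos (c := c) S O hk G fun x => ?_
  rw [hu, ← he]
  rfl

theorem main (i j : Code) : ∃ e : ℕ,
    (∀ X : ℕ → Bool, TLe X (chr (WE X e)) ∧ ¬ TLe (chr (WE X e)) X ∧
      TLe (chr (WE X e)) (jump X) ∧ ¬ TLe (jump X) (chr (WE X e)) ∧
      TLe (jump (chr (WE X e))) (jump X)) ∧
    ∀ X Y : ℕ → Bool, Red i X Y → Red j Y X →
      TLe (chr (WE X e)) (chr (WE Y e)) ∧ TLe (chr (WE Y e)) (chr (WE X e)) := by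
  have S := sys_dec i j
  obtain ⟨c, hc⟩ := exists_fix S
  obtain ⟨e, he⟩ := exists_idx S c
  refine ⟨e, fun X => ?_, fun X Y hXY hYX => ?_⟩
  · rw [he X, chr_join]
    have h1 : TLe (join X (Ac (dec i) (dec j) c X)) (join X (fl c X)) :=
      join_tLe (tLe_join_left _ _) (Ac_le S hc X)
    have h2 : TLe (jump (join X (Ac (dec i) (dec j) c X))) (jump X) :=
      h1.jump.trans (low_fl (hsv_of_fix S hc X))
    refine ⟨tLe_join_left _ _, fun h => not_Ac_le S c X ((tLe_join_right _ _).trans h),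
      (tLe_jump _).trans h2, fun h => not_jump_le _ (h2.trans h), h2⟩
  · have hE := ed_of_red hXY hYX
    obtain ⟨I, Z, O, hk, rfl⟩ := exists_orb (dec i) (dec j) X
    have hk1 : (0 : ℤ) + 1 ∈ I := by
      by_contra h
      exact O.rend 0 hk h ⟨Y, hE⟩
    have hY : Z (0 + 1) = Y := (O.edge 0 hk hk1).det hE
    subst hY
    rw [he, he, chr_join, chr_join]
    have t1 : TLe (Z (0 + 1)) (Z 0) := by
      have := O.tLe S hk 1 0 (by simpa using hk1)
      simpa using this
    have t2 : TLe (Z 0) (Z (0 + 1)) := by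
      have := O.tLe S hk1 0 1 (by simpa using hk)
      simpa using this
    exact ⟨join_tLe (t2.trans (tLe_join_left _ _)) (inv2 S O hk hk1 c),
      join_tLe (t1.trans (tLe_join_left _ _)) (inv1 S O hk hk1 c)⟩

end Pool.Agent.Run7.h353.PI
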