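import Pool.Agent.Run7.h353.PI.A1

set_option autoImplicit false

namespace Pool.Agent.Run7.h353.PI

open Encodable Pool.Agent.Helper227 Pool.Agent.H548R2.Post
open Nat.Partrec (Code)

variable {α : Type*} [Primcodable α]

theorem pr_hlt {s e z : α → ℕ} {τ : α → List Bool} (hs : Primrec s) (he : Primrec e)
    (hz : Primrec z) (hτ : Primrec τ) : Primrec fun a => hlt (s a) (e a) (z a) (τ a) :=
  primrec_hlt.comp (hs.pair (he.pair (hz.pair hτ)))

theorem pr_hav {c : α → Code} {σ : α → List Bool} {g : α → ℕ} {b : α → Bool} (hc : Primrec c)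
    (hσ : Primrec σ) (hg : Primrec g) (hb : Primrec b) :
    PrimrecPred fun a => hav (c a) (σ a) (g a) (b a) := by
  unfold hav
  refine PP.ex_lt (f := fun a => (σ a).length + 1) (p := fun a t => (Code.evaln (σ a).length (c a)
    (encode ((g a, b a), (σ a).take t))).isSome = true) ?_
    (Primrec.succ.comp (Primrec.list_length.comp hσ))
  have h1 : Primrec fun x : α × ℕ => (Code.evaln (σ x.1).length (c x.1)
      (encode ((g x.1, b x.1), (σ x.1).take x.2))).isSome :=
    Primrec.option_isSome.comp (Nat.Partrec.Code.primrec_evaln.comp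
      (((Primrec.list_length.comp (hσ.comp Primrec.fst)).pair (hc.comp Primrec.fst)).pair
        (Primrec.encode.comp (((hg.comp Primrec.fst).pair (hb.comp Primrec.fst)).pair
          (Primrec.list_take.comp Primrec.snd (hσ.comp Primrec.fst))))))
  exact Primrec.eq.comp h1 (Primrec.const true)

theorem pr_bt {k i : α → ℕ} (hk : Primrec k) (hi : Primrec i) :
    Primrec fun a => bt (k a) (i a) := by
  unfold bt
  exact PrimrecPred.decide (Primrec.eq.comp (Primrec.nat_mod.comp
    (Primrec.nat_div.comp hk (primrec_pow.comp (Primrec.const 2) hi)) (Primrec.const 2))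
    (Primrec.const 1))

theorem pr_half {k : α → ℕ} (hk : Primrec k) : Primrec fun a => k a / 2 :=
  Primrec.nat_div.comp hk (Primrec.const 2)

theorem pr_par {k : α → ℕ} (hk : Primrec k) (m : ℕ) : PrimrecPred fun a => k a % 2 = m :=
  Primrec.eq.comp (Primrec.nat_mod.comp hk (Primrec.const 2)) (Primrec.const m)

theorem pr_jst {σ : α → List Bool} {k t : α → ℕ} (hσ : Primrec σ) (hk : Primrec k)
    (ht : Primrec t) : Primrec fun a => jst (σ a) (bt (k a)) (t a) := by
  unfold jst
  refine Primrec.list_map (f := fun a => List.range (t a)) (g := fun a i =>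
    if i % 2 = 0 then (σ a).getD (i / 2) false else bt (k a) (i / 2)) (Primrec.list_range.comp ht) ?_
  refine Primrec.ite (pr_par Primrec.snd 0) ?_ ?_
  · exact (Primrec.list_getD false).comp (hσ.comp Primrec.fst) (pr_half Primrec.snd)
  · exact pr_bt (hk.comp Primrec.fst) (pr_half Primrec.snd)

theorem pr_imp {p q : α → Prop} (hp : PrimrecPred p) (hq : PrimrecPred q) :
    PrimrecPred fun a => p a → q a :=
  (PrimrecPred.or (PrimrecPred.not hp) hq).of_eq fun a => by
    classical
    exact Decidable.imp_iff_not_or.symm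

theorem pr_cnd {σ : α → List Bool} {k r : α → ℕ} (hσ : Primrec σ) (hk : Primrec k)
    (hr : Primrec r) : PrimrecPred fun a => cnd (σ a) (bt (k a)) (r a) := by
  unfold cnd
  refine PrimrecPred.and (pr_imp (pr_par hr 0) ?_) (pr_imp (pr_par hr 1) (pr_imp ?_ ?_))
  · refine PP.all_lt (f := fun a => (σ a).length + 1) (p := fun a t => hlt (σ a).length (r a / 2)
      (r a / 2) (jst (σ a) (bt (k a)) t) = false) ?_
      (Primrec.succ.comp (Primrec.list_length.comp hσ))
    have hr' : Primrec fun x : α × ℕ => r x.1 / 2 := pr_half (hr.comp Primrec.fst)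
    exact Primrec.eq.comp (pr_hlt (Primrec.list_length.comp (hσ.comp Primrec.fst)) hr' hr'
      (pr_jst (hσ.comp Primrec.fst) (hk.comp Primrec.fst) Primrec.snd)) (Primrec.const false)
  · exact Primrec.nat_lt.comp (pr_half hr) (Primrec.list_length.comp hσ)
  · exact Primrec.eq.comp (pr_bt hk (pr_half hr)) (Primrec.const false)

theorem pr_okc {c : α → Code} {σ : α → List Bool} {k : α → ℕ} {B : α → List Bool}
    (hc : Primrec c) (hσ : Primrec σ) (hk : Primrec k) (hB : Primrec B) :
    PrimrecPred fun a => okc (c a) (σ a) (bt (k a)) (B a) := by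
  unfold okc
  refine PrimrecPred.and ?_ ?_
  · refine PP.all_lt (f := fun a => (σ a).length) (p := fun a g => ¬ hav (c a) (σ a) g
      (bt (k a) g)) ?_ (Primrec.list_length.comp hσ)
    exact PrimrecPred.not (pr_hav (hc.comp Primrec.fst) (hσ.comp Primrec.fst) Primrec.snd
      (pr_bt (hk.comp Primrec.fst) Primrec.snd))
  · refine PP.all_lt (f := fun a => (B a).length) (p := fun a r => (B a).getD r false = true →
      cnd (σ a) (bt (k a)) r) ?_ (Primrec.list_length.comp hB)
    exact pr_imp (Primrec.eq.comp ((Primrec.list_getD false).comp (hB.comp Primrec.fst)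
      Primrec.snd) (Primrec.const true)) (pr_cnd (hσ.comp Primrec.fst) (hk.comp Primrec.fst)
      Primrec.snd)

theorem pr_Bs {c : α → Code} {σ : α → List Bool} {r : α → ℕ}
    (hc : Primrec c) (hσ : Primrec σ) (hr : Primrec r) :
    Primrec fun a => Bs (c a) (σ a) (r a) := by
  classical
  have h : Primrec fun a => Nat.rec (motive := fun _ => List Bool) [] (fun n IH =>
      (fun (a : α) (x : ℕ × List Bool) => x.2 ++ [decide (∃ k < 2 ^ (σ a).length,
        okc (c a) (σ a) (bt k) (x.2 ++ [true]))]) a (n, IH)) (r a) := by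
    refine Primrec.nat_rec' (f := r) (g := fun _ => ([] : List Bool))
      (h := fun (a : α) (x : ℕ × List Bool) => x.2 ++ [decide (∃ k < 2 ^ (σ a).length,
        okc (c a) (σ a) (bt k) (x.2 ++ [true]))]) hr (Primrec.const []) ?_
    have hB : Primrec fun y : (α × (ℕ × List Bool)) × ℕ => y.1.2.2 ++ [true] :=
      Primrec.list_append.comp (Primrec.snd.comp (Primrec.snd.comp Primrec.fst))
        (Primrec.const [true])
    have h1 : PrimrecPred fun y : α × (ℕ × List Bool) => ∃ k < 2 ^ (σ y.1).length,
        okc (c y.1) (σ y.1) (bt k) (y.2.2 ++ [true]) := by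
      refine PP.ex_lt (f := fun y : α × (ℕ × List Bool) => 2 ^ (σ y.1).length)
        (p := fun y k => okc (c y.1) (σ y.1) (bt k) (y.2.2 ++ [true])) ?_ ?_
      · exact pr_okc (hc.comp (Primrec.fst.comp Primrec.fst))
          (hσ.comp (Primrec.fst.comp Primrec.fst)) Primrec.snd hB
      · exact primrec_pow.comp (Primrec.const 2) (Primrec.list_length.comp (hσ.comp Primrec.fst))
    exact Primrec.list_append.comp (Primrec.snd.comp Primrec.snd)
      (Primrec.list_cons.comp (PrimrecPred.decide h1) (Primrec.const []))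
  refine h.of_eq fun a => ?_
  generalize r a = n
  induction n with
  | zero => rfl
  | succ n ih =>
    rw [Bs, ← ih]

theorem pr_F {c : α → Code} {σ : α → List Bool} {g : α → ℕ}
    (hc : Primrec c) (hσ : Primrec σ) (hg : Primrec g) :
    Primrec fun a => F (c a) (σ a) (g a) := by
  unfold F
  have h2 : Primrec fun a => 2 * g a := Primrec.nat_mul.comp (Primrec.const 2) hg
  exact Primrec.not.comp ((Primrec.list_getD false).comp
    (pr_Bs hc hσ (Primrec.nat_add.comp h2 (Primrec.const 2)))
    (Primrec.succ.comp h2))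

/-- A primitive recursive predicate of an initial segment of `X`. -/
theorem si_pre {β : Type*} [Primcodable β] (X : ℕ → Bool) {p : β → List Bool → Prop}
    (hp : PrimrecPred fun y : β × List Bool => p y.1 y.2) {b : α → β} {s : α → ℕ} (hb : Primrec b)
    (hs : Primrec s) : SI X fun a => p (b a) (pre X (s a)) := by
  have h1 : SI X fun a : α => ∃ σ : List Bool, (∀ i < σ.length, X i = σ.getD i false) ∧
      (σ.length = s a ∧ p (b a) σ) := by
    refine SI.ex (p := fun (a : α) (σ : List Bool) =>
      (∀ i < σ.length, X i = σ.getD i false) ∧ (σ.length = s a ∧ p (b a) σ))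
      (SI.and ?_ (SI.and (SI.of_prim ?_) (SI.of_prim ?_)))
    · refine SI.all_lt (α := α × List Bool) (p := fun x i => X i = x.2.getD i false)
        (f := fun x => x.2.length) ?_ (Primrec.list_length.comp Primrec.snd)
      exact SI.query.comp (f := fun z : (α × List Bool) × ℕ => (z.2, z.1.2.getD z.2 false))
        (Primrec.snd.pair ((Primrec.list_getD false).comp (Primrec.snd.comp Primrec.fst) Primrec.snd))
    · exact Primrec.eq.comp (Primrec.list_length.comp Primrec.snd) (hs.comp Primrec.fst)
    · exact hp.comp ((hb.comp Primrec.fst).pair Primrec.snd)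
  refine h1.of_eq fun a => ?_
  constructor
  · rintro ⟨σ, h3, h4, h6⟩
    have h5 : pre X (s a) = σ := by
      rw [← h4]
      refine List.ext_getElem (by simp) fun i h5 h6 => ?_
      rw [getElem_pre, h3 i h6]
      simp [h6]
    rw [h5]
    exact h6
  · intro h
    exact ⟨pre X (s a), fun i hi => (pre_getD X _ _ _ (by simpa using hi)).symm, by simp, h⟩

theorem low_fl {c : Code} {X : ℕ → Bool}
    (hsv : ∀ (g s s' : ℕ) (b b' : Bool), hav c (pre X s) g b → hav c (pre X s') g b' → b = b') :
    TLe (jump (join X (fl c X))) (jump X) := by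
  have hp (b : Bool) : PrimrecPred fun y : ℕ × List Bool =>
      (Bs c y.2 (2 * y.1 + 1)).getD (2 * y.1) false = b := by
    have h2 : Primrec fun y : ℕ × List Bool => 2 * y.1 :=
      Primrec.nat_mul.comp (Primrec.const 2) Primrec.fst
    exact Primrec.eq.comp ((Primrec.list_getD false).comp
      (pr_Bs (Primrec.const c) Primrec.snd (Primrec.succ.comp h2)) h2) (Primrec.const b)
  refine tLe_jump_of_limit (X := X) (Z := jump (join X (fl c X)))
    (p := fun e s => (Bs c (pre X s) (2 * e + 1)).getD (2 * e) false = false) ?_ ?_ ?_ ?_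
  · exact si_pre X (p := fun (e : ℕ) σ => (Bs c σ (2 * e + 1)).getD (2 * e) false = false)
      (hp false) Primrec.fst Primrec.snd
  · refine (si_pre X (p := fun (e : ℕ) σ => (Bs c σ (2 * e + 1)).getD (2 * e) false = true)
      (hp true) Primrec.fst Primrec.snd).of_eq fun x => ?_
    simp
  · intro e he
    rw [jump_join_fl hsv] at he
    obtain ⟨s0, h0⟩ := Bs_lim c X (2 * e + 1)
    exact ⟨s0, fun s hs => by rw [h0 s hs]; exact he⟩
  · intro e he
    obtain ⟨s0, h0⟩ := Bs_lim c X (2 * e + 1)
    refine ⟨s0, fun s hs h => ?_⟩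
    rw [h0 s hs, ← jump_join_fl hsv] at h
    rw [he] at h
    exact absurd h (by simp)

end Pool.Agent.Run7.h353.PI
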