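import Pool.Agent.H548R2.Post.Main

set_option autoImplicit false

/-!
Two programs acting on strings, the edges between sequences which they define, and orbits.
-/

namespace Pool.Agent.Run7.h353.PI

open Encodable Pool.Agent.Helper227 Pool.Agent.H548R2.Post
open Nat.Partrec (Code)

/-- two monotone primitive recursive functions on strings which do not increase the length -/
structure Sys (P Q : List Bool → List Bool) : Prop where
  pP : Primrec P
  pQ : Primrec Q
  mP : ∀ σ τ, σ <+: τ → P σ <+: P τ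
  mQ : ∀ σ τ, σ <+: τ → Q σ <+: Q τ
  lP : ∀ σ, (P σ).length ≤ σ.length
  lQ : ∀ σ, (Q σ).length ≤ σ.length

theorem Sys.symm {P Q : List Bool → List Bool} (h : Sys P Q) : Sys Q P :=
  ⟨h.pQ, h.pP, h.mQ, h.mP, h.lQ, h.lP⟩

/-- the edge from `σ` is verified up to `t` -/
def ag (P Q : List Bool → List Bool) (t : ℕ) (σ : List Bool) : Prop :=
  t ≤ (Q (P σ)).length ∧ (Q (P σ)).take t = σ.take t

/-- the `i`-th string of a list of strings in which `σ` is at the position `q` -/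
def at' (P Q : List Bool → List Bool) (σ : List Bool) (q i : ℕ) : List Bool :=
  if i < q then Q^[q - i] σ else P^[i - q] σ

/-- the list of length `N` with `σ` at the position `q` is verified up to `t` -/
def Vf (P Q : List Bool → List Bool) (σ : List Bool) (q N t : ℕ) : Prop :=
  t ≤ σ.length ∧ q < N ∧ (∀ j < N - 1 - q, ag P Q t (P^[j] σ)) ∧ ∀ j < q, ag Q P t (Q^[j] σ)

/-- an edge between two sequences -/
def Ed (P Q : List Bool → List Bool) (X Y : ℕ → Bool) : Prop :=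
  ((∀ s, P (pre X s) = pre Y (P (pre X s)).length) ∧ ∀ t, ∃ s, t ≤ (P (pre X s)).length) ∧
  ((∀ s, Q (pre Y s) = pre X (Q (pre Y s)).length) ∧ ∀ t, ∃ s, t ≤ (Q (pre Y s)).length)

theorem Ed.symm {P Q : List Bool → List Bool} {X Y : ℕ → Bool} (h : Ed P Q X Y) : Ed Q P Y X :=
  ⟨h.2, h.1⟩

theorem eq_of_pre {X Y : ℕ → Bool} (h : ∀ t, ∃ s ≥ t, pre X s = pre Y s) : X = Y := by
  funext i
  obtain ⟨s, hs, h1⟩ := h (i + 1)
  rw [← pre_getD X s i false (by omega), h1, pre_getD Y s i false (by omega)]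

theorem Ed.det {P Q : List Bool → List Bool} {X Y Y' : ℕ → Bool} (h : Ed P Q X Y)
    (h' : Ed P Q X Y') : Y = Y' := by
  refine eq_of_pre fun t => ?_
  obtain ⟨s, hs⟩ := h.1.2 t
  exact ⟨_, hs, by rw [← h.1.1 s, ← h'.1.1 s]⟩

theorem Ed.det' {P Q : List Bool → List Bool} {X Y Y' : ℕ → Bool} (h : Ed P Q Y X)
    (h' : Ed P Q Y' X) : Y = Y' := h.symm.det h'.symm

theorem len_mono {P : List Bool → List Bool} (mP : ∀ σ τ, σ <+: τ → P σ <+: P τ) {X : ℕ → Bool}
    {s s' : ℕ} (h : s ≤ s') : (P (pre X s)).length ≤ (P (pre X s')).length :=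
  (mP _ _ (pre_prefix X h)).length_le

theorem Ed.grow {P Q : List Bool → List Bool} (S : Sys P Q) {X Y : ℕ → Bool} (h : Ed P Q X Y)
    (t : ℕ) : ∃ s0, ∀ s ≥ s0, t ≤ (P (pre X s)).length := by
  obtain ⟨s0, h0⟩ := h.1.2 t
  exact ⟨s0, fun s hs => h0.trans (len_mono S.mP hs)⟩

theorem Ed.ag {P Q : List Bool → List Bool} (S : Sys P Q) {X Y : ℕ → Bool} (h : Ed P Q X Y)
    (t : ℕ) : ∃ s0, ∀ s ≥ s0, ag P Q t (pre X s) := by
  obtain ⟨s1, h1⟩ := h.symm.grow S.symm t
  obtain ⟨s2, h2⟩ := h.grow S s1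
  refine ⟨s2, fun s hs => ?_⟩
  have h3 := h2 s hs
  have h4 := h1 _ h3
  rw [← h.1.1 s] at h4
  refine ⟨h4, ?_⟩
  have h5 := h.2.1 (P (pre X s)).length
  rw [← h.1.1 s] at h5
  have h6 : (Q (P (pre X s))).length ≤ s := by
    have := S.lQ (P (pre X s))
    have := S.lP (pre X s)
    rw [length_pre] at this
    omega
  have h7 : pre X (Q (P (pre X s))).length = (pre X s).take (Q (P (pre X s))).length :=
    (take_pre X s _ h6).symm
  rw [h5, h7, List.take_take, min_eq_left h4]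

theorem ag_mono {P Q : List Bool → List Bool} {t t' : ℕ} {σ : List Bool} (ht : t ≤ t')
    (h : ag P Q t' σ) : ag P Q t σ := by
  refine ⟨ht.trans h.1, ?_⟩
  have h1 := congrArg (List.take t) h.2
  rwa [List.take_take, List.take_take, min_eq_left ht] at h1

/-- If there are verifications of arbitrarily long length, then there is an edge. -/
theorem exists_ed {P Q : List Bool → List Bool} (S : Sys P Q) {X : ℕ → Bool}
    (h : ∀ L, ∃ t > L, ∃ s, ag P Q t (pre X s)) : ∃ Y, Ed P Q X Y := by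
  have hex : ∀ t, ∃ s, ag P Q t (pre X s) := fun t => by
    obtain ⟨t', h1, s, h2⟩ := h t
    exact ⟨s, ag_mono h1.le h2⟩
  have hlen : ∀ t s, ag P Q t (pre X s) → t ≤ (P (pre X s)).length := fun t s h1 =>
    h1.1.trans (S.lQ _)
  choose sf hsf using hex
  set Y : ℕ → Bool := fun i => (P (pre X (sf (i + 1)))).getD i false with hY
  have key : ∀ s i, i < (P (pre X s)).length → (P (pre X s)).getD i false = Y i := by
    intro s i hi
    have h1 : i < (P (pre X (sf (i + 1)))).length := hlen _ _ (hsf (i + 1))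
    have h2 : ∀ a b, a ≤ b → i < (P (pre X a)).length →
        (P (pre X a)).getD i false = (P (pre X b)).getD i false := by
      intro a b hab hi
      obtain ⟨l, hl⟩ := S.mP _ _ (pre_prefix X hab)
      rw [← hl, List.getD_append _ _ _ _ hi]
    rcases le_total s (sf (i + 1)) with h3 | h3
    · exact h2 _ _ h3 hi
    · exact (h2 _ _ h3 h1).symm
  have hP : ∀ s, P (pre X s) = pre Y (P (pre X s)).length := by
    intro s
    refine List.ext_getElem (by simp) fun i h1 h2 => ?_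
    rw [getElem_pre, ← key s i h1]
    exact (List.getD_eq_getElem _ _ h1).symm
  refine ⟨Y, ⟨hP, fun t => ⟨sf t, hlen _ _ (hsf t)⟩⟩, fun s => ?_, fun t => ?_⟩
  · set t := max ((Q (pre Y s)).length + 1) s with ht
    have h1 := hsf t
    have h2 := hlen _ _ h1
    have h3 : pre Y s <+: P (pre X (sf t)) := by
      rw [hP (sf t)]
      exact pre_prefix Y (le_trans (le_max_right _ _) h2)
    have h4 := S.mQ _ _ h3
    rw [List.prefix_iff_eq_take] at h4
    have h5 : (Q (pre Y s)).length ≤ t := le_trans (Nat.le_succ _) (le_max_left _ _)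
    have h6 := congrArg (List.take (Q (pre Y s)).length) h1.2
    rw [List.take_take, List.take_take, min_eq_left h5, ← h4] at h6
    have h7 : (Q (pre Y s)).length ≤ sf t := by
      have := (S.mQ _ _ h3).length_le
      have h8 := S.lQ (P (pre X (sf t)))
      have h9 := S.lP (pre X (sf t))
      rw [length_pre] at h9
      omega
    rw [take_pre _ _ _ h7] at h6
    exact h6
  · refine ⟨(P (pre X (sf t))).length, ?_⟩
    rw [← hP]
    exact (hsf t).1

theorem bound_of_no_ed {P Q : List Bool → List Bool} (S : Sys P Q) {X : ℕ → Bool}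
    (h : ¬ ∃ Y, Ed P Q X Y) : ∃ L, ∀ t > L, ∀ s, ¬ ag P Q t (pre X s) := by
  by_contra h1
  push Not at h1
  exact h (exists_ed S h1)

/-- an orbit, indexed by an interval of integers -/
structure Orb (P Q : List Bool → List Bool) (I : Set ℤ) (Z : ℤ → ℕ → Bool) : Prop where
  conv : ∀ a b c, a ∈ I → c ∈ I → a ≤ b → b ≤ c → b ∈ I
  edge : ∀ k, k ∈ I → k + 1 ∈ I → Ed P Q (Z k) (Z (k + 1))
  rend : ∀ k, k ∈ I → k + 1 ∉ I → ¬ ∃ Y, Ed P Q (Z k) Y
  lend : ∀ k, k ∈ I → k - 1 ∉ I → ¬ ∃ Y, Ed P Q Y (Z k)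

theorem Orb.neg {P Q : List Bool → List Bool} {I : Set ℤ} {Z : ℤ → ℕ → Bool} (O : Orb P Q I Z) :
    Orb Q P {k | -k ∈ I} (fun k => Z (-k)) where
  conv a b c ha hc h1 h2 := O.conv (-c) (-b) (-a) hc ha (by omega) (by omega)
  edge k h1 h2 := by
    have h3 := O.edge (-(k + 1)) h2 (by
      rw [show -(k + 1) + 1 = -k by ring]
      exact h1)
    rw [show -(k + 1) + 1 = -k by ring] at h3
    exact h3.symm
  rend k h1 h2 := by
    rintro ⟨Y, hY⟩
    refine O.lend (-k) h1 ?_ ⟨Y, hY.symm⟩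
    intro h3
    apply h2
    change -(k + 1) ∈ I
    rw [show -(k + 1) = -k - 1 by ring]
    exact h3
  lend k h1 h2 := by
    rintro ⟨Y, hY⟩
    refine O.rend (-k) h1 ?_ ⟨Y, hY.symm⟩
    intro h3
    apply h2
    change -(k - 1) ∈ I
    rw [show -(k - 1) = -k + 1 by ring]
    exact h3

theorem exists_ray (P Q : List Bool → List Bool) (X : ℕ → Bool) :
    ∃ (R : ℕ → ℕ → Bool) (D : ℕ → Prop), R 0 = X ∧ D 0 ∧ (∀ n, D (n + 1) → D n) ∧
      (∀ n, D (n + 1) → Ed P Q (R n) (R (n + 1))) ∧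
      ∀ n, D n → ¬ D (n + 1) → ¬ ∃ Y, Ed P Q (R n) Y := by
  classical
  have hS : ∃ S : (ℕ → Bool) → ℕ → Bool, ∀ Y, (∃ Y', Ed P Q Y Y') → Ed P Q Y (S Y) := by
    refine ⟨fun Y => if h : ∃ Y', Ed P Q Y Y' then h.choose else Y, fun Y h => ?_⟩
    simp only
    rw [dif_pos h]
    exact h.choose_spec
  obtain ⟨S, hS⟩ := hS
  refine ⟨fun n => S^[n] X, fun n => ∀ j < n, ∃ Y', Ed P Q (S^[j] X) Y', rfl,
    fun j hj => absurd hj (Nat.not_lt_zero _), fun n h j hj => h j (by omega), fun n h => ?_,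
    fun n h1 h2 h3 => ?_⟩
  · show Ed P Q (S^[n] X) (S^[n + 1] X)
    rw [Function.iterate_succ_apply']
    exact hS _ (h n (Nat.lt_succ_self _))
  · apply h2
    intro j hj
    rcases Nat.lt_succ_iff_lt_or_eq.1 hj with h4 | rfl
    · exact h1 j h4
    · exact h3

theorem ray_down {D : ℕ → Prop} (h : ∀ n, D (n + 1) → D n) {a b : ℕ} (hab : a ≤ b) (hb : D b) :
    D a := by
  induction b, hab using Nat.le_induction with
  | base => exact hb
  | succ n _ ih => exact ih (h n hb)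

theorem exists_orb (P Q : List Bool → List Bool) (X : ℕ → Bool) :
    ∃ (I : Set ℤ) (Z : ℤ → ℕ → Bool), Orb P Q I Z ∧ (0 : ℤ) ∈ I ∧ Z 0 = X := by
  obtain ⟨R, D, hR0, hD0, hD, hRe, hRn⟩ := exists_ray P Q X
  obtain ⟨R', D', hR0', hD0', hD', hRe', hRn'⟩ := exists_ray Q P X
  refine ⟨{k | D k.toNat ∧ D' (-k).toNat},
    fun k => if 0 ≤ k then R k.toNat else R' (-k).toNat, ⟨?_, ?_, ?_, ?_⟩, ?_, ?_⟩
  · rintro a b c ⟨ha1, ha2⟩ ⟨hc1, hc2⟩ h1 h2
    exact ⟨ray_down hD (by omega) hc1, ray_down hD' (by omega) ha2⟩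
  · rintro k ⟨h1, h1'⟩ ⟨h2, h2'⟩
    rcases lt_trichotomy k (-1) with h | h | h
    · rw [if_neg (by omega), if_neg (by omega)]
      have e : (-k).toNat = (-(k + 1)).toNat + 1 := by omega
      rw [e] at h1' ⊢
      exact (hRe' _ h1').symm
    · subst h
      rw [if_neg (by omega), if_pos (by omega)]
      have e : ((-1 : ℤ) + 1).toNat = 0 := by omega
      rw [e, hR0, ← hR0']
      exact (hRe' 0 h1').symm
    · rw [if_pos (by omega), if_pos (by omega)]
      have e : (k + 1).toNat = k.toNat + 1 := by omega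
      rw [e] at h2 ⊢
      exact hRe _ h2
  · rintro k ⟨h1, h1'⟩ h2
    by_cases h : 0 ≤ k
    · rw [if_pos h]
      refine hRn _ h1 fun h3 => h2 ⟨?_, ?_⟩
      · have e : (k + 1).toNat = k.toNat + 1 := by omega
        rw [e]
        exact h3
      · have e : (-(k + 1)).toNat = 0 := by omega
        rw [e]
        exact hD0'
    · exfalso
      refine h2 ⟨?_, ray_down hD' (by omega) h1'⟩
      have e : (k + 1).toNat = 0 := by omega
      rw [e]
      exact hD0
  · rintro k ⟨h1, h1'⟩ h2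
    by_cases h : 0 < k
    · exfalso
      refine h2 ⟨ray_down hD (by omega) h1, ?_⟩
      have e : (-(k - 1)).toNat = 0 := by omega
      rw [e]
      exact hD0'
    · have e1 : (if 0 ≤ k then R k.toNat else R' (-k).toNat) = R' (-k).toNat := by
        by_cases h3 : 0 ≤ k
        · have : k = 0 := by omega
          subst this
          simp [hR0, hR0']
        · rw [if_neg h3]
      rw [e1]
      rintro ⟨Y, hY⟩
      refine hRn' _ h1' (fun h3 => h2 ⟨?_, ?_⟩) ⟨Y, hY.symm⟩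
      · have e : (k - 1).toNat = 0 := by omega
        rw [e]
        exact hD0
      · have e : (-(k - 1)).toNat = (-k).toNat + 1 := by omega
        rw [e]
        exact h3
  · exact ⟨hD0, hD0'⟩
  · simp [hR0]

section orb
variable {P Q : List Bool → List Bool} {I : Set ℤ} {Z : ℤ → ℕ → Bool}

theorem Orb.itP (O : Orb P Q I Z) (J : ℕ) {k : ℤ} (hk : k ∈ I) (hJ : k + J ∈ I) (s : ℕ) :
    ∃ s', P^[J] (pre (Z k) s) = pre (Z (k + J)) s' := by
  induction J with
  | zero => exact ⟨s, by simp⟩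
  | succ J ih =>
    have h1 : k + J ∈ I := O.conv _ _ _ hk hJ (by omega) (by push_cast; omega)
    obtain ⟨s', hs'⟩ := ih h1
    rw [Function.iterate_succ_apply', hs']
    have h2 := O.edge (k + J) h1 (by rw [add_assoc]; exact_mod_cast hJ)
    have h3 := h2.1.1 s'
    refine ⟨(P (pre (Z (k + J)) s')).length, ?_⟩
    rw [show k + ((J + 1 : ℕ) : ℤ) = k + J + 1 by push_cast; ring]
    exact h3

theorem Orb.growP (S : Sys P Q) (O : Orb P Q I Z) (J : ℕ) {k : ℤ} (hk : k ∈ I) (hJ : k + J ∈ I)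
    (t : ℕ) : ∃ s0, ∀ s ≥ s0, t ≤ (P^[J] (pre (Z k) s)).length := by
  induction J generalizing t with
  | zero => exact ⟨t, fun s hs => by simpa using hs⟩
  | succ J ih =>
    have h1 : k + J ∈ I := O.conv _ _ _ hk hJ (by omega) (by push_cast; omega)
    have h2 := O.edge (k + J) h1 (by rw [add_assoc]; exact_mod_cast hJ)
    obtain ⟨s1, hs1⟩ := h2.grow S t
    obtain ⟨s0, hs0⟩ := ih h1 s1
    refine ⟨s0, fun s hs => ?_⟩
    obtain ⟨s', hs'⟩ := O.itP J hk h1 s
    have h3 := hs0 s hs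
    rw [Function.iterate_succ_apply', hs']
    rw [hs', length_pre] at h3
    exact hs1 _ h3

theorem Orb.agP (S : Sys P Q) (O : Orb P Q I Z) (J : ℕ) {k : ℤ} (hk : k ∈ I) (hJ : k + J + 1 ∈ I)
    (t : ℕ) : ∃ s0, ∀ s ≥ s0, PI.ag P Q t (P^[J] (pre (Z k) s)) := by
  have h1 : k + J ∈ I := O.conv _ _ _ hk hJ (by omega) (by omega)
  obtain ⟨s1, hs1⟩ := (O.edge (k + J) h1 hJ).ag S t
  obtain ⟨s0, hs0⟩ := O.growP S J hk h1 s1
  refine ⟨s0, fun s hs => ?_⟩
  obtain ⟨s', hs'⟩ := O.itP J hk h1 s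
  have h3 := hs0 s hs
  rw [hs'] at h3 ⊢
  rw [length_pre] at h3
  exact hs1 _ h3

theorem Orb.agP_all (S : Sys P Q) (O : Orb P Q I Z) (J : ℕ) {k : ℤ} (hk : k ∈ I) (hJ : k + J ∈ I)
    (t : ℕ) : ∃ s0, ∀ s ≥ s0, ∀ j < J, PI.ag P Q t (P^[j] (pre (Z k) s)) := by
  induction J with
  | zero => exact ⟨0, fun _ _ j hj => absurd hj (Nat.not_lt_zero _)⟩
  | succ J ih =>
    obtain ⟨s0, h0⟩ := ih (O.conv _ _ _ hk hJ (by omega) (by push_cast; omega))
    obtain ⟨s1, h1⟩ := O.agP S J hk (by rw [add_assoc]; exact_mod_cast hJ) t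
    refine ⟨max s0 s1, fun s hs j hj => ?_⟩
    rcases Nat.lt_succ_iff_lt_or_eq.1 hj with h2 | rfl
    · exact h0 s (le_trans (le_max_left _ _) hs) j h2
    · exact h1 s (le_trans (le_max_right _ _) hs)

theorem Orb.exists_end (_O : Orb P Q I Z) (J : ℕ) {k : ℤ} (hk : k ∈ I) (hJ : k + J ∉ I) :
    ∃ j < J, k + j ∈ I ∧ k + j + 1 ∉ I := by
  induction J with
  | zero => exact absurd (by simpa using hk) hJ
  | succ J ih =>
    by_cases h : k + J ∈ I
    · refine ⟨J, Nat.lt_succ_self _, h, ?_⟩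
      rw [add_assoc]
      exact_mod_cast hJ
    · obtain ⟨j, hj, h1⟩ := ih h
      exact ⟨j, by omega, h1⟩

theorem Orb.sndP (S : Sys P Q) (O : Orb P Q I Z) : ∃ L, ∀ k ∈ I, ∀ t > L, ∀ s J,
    (∀ j < J, PI.ag P Q t (P^[j] (pre (Z k) s))) → k + J ∈ I := by
  by_cases h : ∃ r, r ∈ I ∧ r + 1 ∉ I
  · obtain ⟨r, hr, hr1⟩ := h
    obtain ⟨L, hL⟩ := bound_of_no_ed S (O.rend r hr hr1)
    refine ⟨L, fun k hk t ht s J hag => ?_⟩
    by_contra hJ
    obtain ⟨j, hj, h1, h2⟩ := O.exists_end J hk hJ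
    have h3 : k + j = r := by
      by_contra hne
      rcases lt_or_gt_of_ne hne with h3 | h3
      · exact h2 (O.conv _ _ _ h1 hr (by omega) (by omega))
      · exact hr1 (O.conv _ _ _ hr h1 (by omega) (by omega))
    obtain ⟨s', hs'⟩ := O.itP j hk h1 s
    have h4 := hag j hj
    rw [hs', h3] at h4
    exact hL t ht s' h4
  · refine ⟨0, fun k hk t _ s J _ => ?_⟩
    by_contra hJ
    obtain ⟨j, _, h1, h2⟩ := O.exists_end J hk hJ
    exact h ⟨_, h1, h2⟩

theorem Orb.sndE (S : Sys P Q) (O : Orb P Q I Z) : ∃ L, ∀ k ∈ I, k + 1 ∉ I → ∀ t > L, ∀ s,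
    ¬ PI.ag P Q t (pre (Z k) s) := by
  obtain ⟨L, hL⟩ := O.sndP S
  refine ⟨L, fun k hk hk1 t ht s h => hk1 ?_⟩
  have := hL k hk t ht s 1 (fun j hj => by
    have : j = 0 := by omega
    subst this
    exact h)
  exact_mod_cast this

theorem Orb.itQ (O : Orb P Q I Z) (J : ℕ) {k : ℤ} (hk : k ∈ I) (hJ : k - J ∈ I) (s : ℕ) :
    ∃ s', Q^[J] (pre (Z k) s) = pre (Z (k - J)) s' := by
  have h := O.neg.itP J (k := -k) (by simpa using hk)
    (by
      change -(-k + J) ∈ I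
      rw [show -(-k + (J : ℤ)) = k - J by ring]
      exact hJ) s
  obtain ⟨s', hs'⟩ := h
  refine ⟨s', ?_⟩
  rw [neg_neg, show -(-k + (J : ℤ)) = k - J by ring] at hs'
  exact hs'

theorem Orb.agQ_all (S : Sys P Q) (O : Orb P Q I Z) (J : ℕ) {k : ℤ} (hk : k ∈ I) (hJ : k - J ∈ I)
    (t : ℕ) : ∃ s0, ∀ s ≥ s0, ∀ j < J, PI.ag Q P t (Q^[j] (pre (Z k) s)) := by
  have h := O.neg.agP_all S.symm J (k := -k) (by simpa using hk)
    (by
      change -(-k + J) ∈ I
      rw [show -(-k + (J : ℤ)) = k - J by ring]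
      exact hJ) t
  simpa only [neg_neg] using h

theorem Orb.sndQ (S : Sys P Q) (O : Orb P Q I Z) : ∃ L, ∀ k ∈ I, ∀ t > L, ∀ s J,
    (∀ j < J, PI.ag Q P t (Q^[j] (pre (Z k) s))) → k - J ∈ I := by
  obtain ⟨L, hL⟩ := O.neg.sndP S.symm
  refine ⟨L, fun k hk t ht s J hag => ?_⟩
  have h := hL (-k) (by simpa using hk) t ht s J (by simpa only [neg_neg] using hag)
  change -(-k + J) ∈ I at h
  rwa [show -(-k + (J : ℤ)) = k - J by ring] at h

theorem Orb.sndF (S : Sys P Q) (O : Orb P Q I Z) : ∃ L, ∀ k ∈ I, k - 1 ∉ I → ∀ t > L, ∀ s,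
    ¬ PI.ag Q P t (pre (Z k) s) := by
  obtain ⟨L, hL⟩ := O.sndQ S
  refine ⟨L, fun k hk hk1 t ht s h => hk1 ?_⟩
  have := hL k hk t ht s 1 (fun j hj => by
    have : j = 0 := by omega
    subst this
    exact h)
  exact_mod_cast this

end orb

end Pool.Agent.Run7.h353.PI
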