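import Pool.Agent.Run7.h353.PI.A2

set_option autoImplicit false

namespace Pool.Agent.Run7.h353.PI

open Encodable Pool.Agent.Helper227 Pool.Agent.H548R2.Post
open Nat.Partrec (Code)

section
variable {P Q : List Bool → List Bool} {I : Set ℤ} {Z : ℤ → ℕ → Bool}

theorem ag_len (S : Sys P Q) {t : ℕ} {σ : List Bool} (h : ag P Q t σ) : t ≤ (P σ).length :=
  h.1.trans (S.lQ _)

theorem Vf_len (S : Sys P Q) {σ : List Bool} {q N t i : ℕ} (h : Vf P Q σ q N t) (hi : i < N) :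
    t ≤ (at' P Q σ q i).length := by
  obtain ⟨h1, h2, h3, h4⟩ := h
  unfold at'
  by_cases hq : i < q
  · rw [if_pos hq]
    obtain ⟨j, hj⟩ : ∃ j, q - i = j + 1 := ⟨q - i - 1, by omega⟩
    rw [hj, Function.iterate_succ_apply']
    exact ag_len S.symm (h4 j (by omega))
  · rw [if_neg hq]
    rcases Nat.eq_zero_or_pos (i - q) with h0 | h0
    · rw [h0]
      exact h1
    · obtain ⟨j, hj⟩ : ∃ j, i - q = j + 1 := ⟨i - q - 1, by omega⟩
      rw [hj, Function.iterate_succ_apply']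
      exact ag_len S (h3 j (by omega))

theorem Vf_mono {σ : List Bool} {q N t t' : ℕ} (ht : t' ≤ t) (h : Vf P Q σ q N t) :
    Vf P Q σ q N t' :=
  ⟨ht.trans h.1, h.2.1, fun j hj => ag_mono ht (h.2.2.1 j hj), fun j hj => ag_mono ht (h.2.2.2 j hj)⟩

theorem it_mono {P : List Bool → List Bool} (mP : ∀ σ τ, σ <+: τ → P σ <+: P τ) (j : ℕ)
    {σ τ : List Bool} (h : σ <+: τ) : P^[j] σ <+: P^[j] τ := by
  induction j with
  | zero => exact h
  | succ j ih =>
    rw [Function.iterate_succ_apply', Function.iterate_succ_apply']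
    exact mP _ _ ih

theorem at_mono (S : Sys P Q) {σ τ : List Bool} (h : σ <+: τ) (q i : ℕ) :
    at' P Q σ q i <+: at' P Q τ q i := by
  unfold at'
  by_cases hq : i < q
  · rw [if_pos hq, if_pos hq]
    exact it_mono S.mQ _ h
  · rw [if_neg hq, if_neg hq]
    exact it_mono S.mP _ h

theorem take_of_prefix' {σ τ : List Bool} {t : ℕ} (h : σ <+: τ) (ht : t ≤ σ.length) :
    σ.take t = τ.take t := by
  obtain ⟨l, rfl⟩ := h
  rw [List.take_append_of_le_length ht]

theorem Vf_coh (S : Sys P Q) {X : ℕ → Bool} {s s' q N t t' i : ℕ} (hs : s ≤ s')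
    (h : Vf P Q (pre X s) q N t) (hi : i < N) (ht : t' ≤ t) :
    (at' P Q (pre X s) q i).take t' = (at' P Q (pre X s') q i).take t' :=
  take_of_prefix' (at_mono S (pre_prefix X hs) q i) (ht.trans (Vf_len S h hi))

theorem Orb.Vf_sound (S : Sys P Q) (O : Orb P Q I Z) : ∃ L, ∀ k ∈ I, ∀ t > L, ∀ s q N,
    Vf P Q (pre (Z k) s) q N t → k - q ∈ I ∧ k - q + N - 1 ∈ I := by
  obtain ⟨L1, h1⟩ := O.sndP S
  obtain ⟨L2, h2⟩ := O.sndQ S
  refine ⟨max L1 L2, fun k hk t ht s q N h => ⟨?_, ?_⟩⟩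
  · exact h2 k hk t (lt_of_le_of_lt (le_max_right _ _) ht) s q h.2.2.2
  · have h3 := h1 k hk t (lt_of_le_of_lt (le_max_left _ _) ht) s (N - 1 - q) h.2.2.1
    have h4 := h.2.1
    have e : k - q + N - 1 = k + ((N - 1 - q : ℕ) : ℤ) := by omega
    rw [e]
    exact h3

theorem Orb.at_eq (O : Orb P Q I Z) {k : ℤ} (hk : k ∈ I) {q N i : ℕ} (h1 : k - q ∈ I)
    (h2 : k - q + N - 1 ∈ I) (hi : i < N) (s : ℕ) :
    ∃ s', at' P Q (pre (Z k) s) q i = pre (Z (k - q + i)) s' := by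
  unfold at'
  by_cases hq : i < q
  · rw [if_pos hq]
    have e : k - q + i = k - ((q - i : ℕ) : ℤ) := by omega
    rw [e]
    exact O.itQ _ hk (O.conv _ _ _ h1 hk (by omega) (by omega)) s
  · rw [if_neg hq]
    have e : k - q + i = k + ((i - q : ℕ) : ℤ) := by omega
    rw [e]
    exact O.itP _ hk (O.conv _ _ _ hk h2 (by omega) (by omega)) s

theorem Orb.Vf_val (S : Sys P Q) (O : Orb P Q I Z) {k : ℤ} (hk : k ∈ I) {q N i s t t' : ℕ}
    (h1 : k - q ∈ I) (h2 : k - q + N - 1 ∈ I) (h : Vf P Q (pre (Z k) s) q N t) (hi : i < N)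
    (ht : t' ≤ t) : (at' P Q (pre (Z k) s) q i).take t' = pre (Z (k - q + i)) t' := by
  obtain ⟨s', hs'⟩ := O.at_eq hk h1 h2 hi s
  have h3 := Vf_len S h hi
  rw [hs', length_pre] at h3
  rw [hs', take_pre _ _ _ (ht.trans h3)]

theorem Orb.Vf_complete (S : Sys P Q) (O : Orb P Q I Z) {k : ℤ} (hk : k ∈ I) {q N : ℕ}
    (hq : q < N) (h1 : k - q ∈ I) (h2 : k - q + N - 1 ∈ I) (t : ℕ) :
    ∃ s0, ∀ s ≥ s0, Vf P Q (pre (Z k) s) q N t := by
  obtain ⟨s0, h3⟩ := O.agP_all S (N - 1 - q) hk (by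
    have e : k + ((N - 1 - q : ℕ) : ℤ) = k - q + N - 1 := by omega
    rw [e]
    exact h2) t
  obtain ⟨s1, h4⟩ := O.agQ_all S q hk h1 t
  refine ⟨max t (max s0 s1), fun s hs => ⟨?_, hq, ?_, ?_⟩⟩
  · rw [length_pre]
    exact le_trans (le_max_left _ _) hs
  · exact h3 s (le_trans (le_trans (le_max_left _ _) (le_max_right _ _)) hs)
  · exact h4 s (le_trans (le_trans (le_max_right _ _) (le_max_right _ _)) hs)

end

/-! Recursiveness. -/

section
variable {α : Type*} [Primcodable α] {P Q : List Bool → List Bool}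

theorem pr_it {P : List Bool → List Bool} (pP : Primrec P) {n : α → ℕ} {σ : α → List Bool}
    (hn : Primrec n) (hσ : Primrec σ) : Primrec fun a => P^[n a] (σ a) :=
  Primrec.nat_iterate (f := n) (g := σ) (h := fun _ τ => P τ) hn hσ (pP.comp Primrec.snd)

theorem pr_ag (S : Sys P Q) {t : α → ℕ} {σ : α → List Bool} (ht : Primrec t) (hσ : Primrec σ) :
    PrimrecPred fun a => ag P Q (t a) (σ a) := by
  unfold ag
  have h : Primrec fun a => Q (P (σ a)) := S.pQ.comp (S.pP.comp hσ)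
  exact PrimrecPred.and (Primrec.nat_le.comp ht (Primrec.list_length.comp h))
    (Primrec.eq.comp (Primrec.list_take.comp ht h) (Primrec.list_take.comp ht hσ))

theorem pr_at (S : Sys P Q) {σ : α → List Bool} {q i : α → ℕ} (hσ : Primrec σ) (hq : Primrec q)
    (hi : Primrec i) : Primrec fun a => at' P Q (σ a) (q a) (i a) := by
  unfold at'
  exact Primrec.ite (Primrec.nat_lt.comp hi hq) (pr_it S.pQ (Primrec.nat_sub.comp hq hi) hσ)
    (pr_it S.pP (Primrec.nat_sub.comp hi hq) hσ)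

theorem pr_Vf (S : Sys P Q) {σ : α → List Bool} {q N t : α → ℕ} (hσ : Primrec σ) (hq : Primrec q)
    (hN : Primrec N) (ht : Primrec t) : PrimrecPred fun a => Vf P Q (σ a) (q a) (N a) (t a) := by
  unfold Vf
  refine PrimrecPred.and (Primrec.nat_le.comp ht (Primrec.list_length.comp hσ))
    (PrimrecPred.and (Primrec.nat_lt.comp hq hN) (PrimrecPred.and ?_ ?_))
  · exact PP.all_lt (f := fun a => N a - 1 - q a) (p := fun a j => ag P Q (t a) (P^[j] (σ a)))
      (pr_ag S (ht.comp Primrec.fst) (pr_it S.pP Primrec.snd (hσ.comp Primrec.fst)))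
      (Primrec.nat_sub.comp (Primrec.nat_sub.comp hN (Primrec.const 1)) hq)
  · exact PP.all_lt (f := fun a => q a) (p := fun a j => ag Q P (t a) (Q^[j] (σ a)))
      (pr_ag S.symm (ht.comp Primrec.fst) (pr_it S.pQ Primrec.snd (hσ.comp Primrec.fst))) hq

end

end Pool.Agent.Run7.h353.PI
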