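import Pool.Agent.Run7.h353.PI.A1b
import Pool.Agent.Run7.h353.PI.A2b

set_option autoImplicit false

/-!
The decisions.
-/

namespace Pool.Agent.Run7.h353.PI

open Encodable Pool.Agent.Helper227 Pool.Agent.H548R2.Post
open Nat.Partrec (Code)

/-- the level -/
def un (u : ℕ) : ℕ := u.unpair.1
/-- the index of the requirement -/
def ue (u : ℕ) : ℕ := u.unpair.2.unpair.1
/-- the position of the sequence whose requirement is treated -/
def uk (u : ℕ) : ℕ := u.unpair.2.unpair.2.unpair.1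
/-- the length -/
def ul (u : ℕ) : ℕ := u.unpair.2.unpair.2.unpair.2.unpair.1
/-- the type of the left end -/
def ua (u : ℕ) : ℕ := u.unpair.2.unpair.2.unpair.2.unpair.2.unpair.1
/-- the type of the right end -/
def ub (u : ℕ) : ℕ := u.unpair.2.unpair.2.unpair.2.unpair.2.unpair.2

/-- the number with given components -/
def mk (n e k l a b : ℕ) : ℕ := Nat.pair n (Nat.pair e (Nat.pair k (Nat.pair l (Nat.pair a b))))

@[simp] theorem un_mk (n e k l a b : ℕ) : un (mk n e k l a b) = n := by simp [un, mk]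
@[simp] theorem ue_mk (n e k l a b : ℕ) : ue (mk n e k l a b) = e := by simp [ue, mk]
@[simp] theorem uk_mk (n e k l a b : ℕ) : uk (mk n e k l a b) = k := by simp [uk, mk]
@[simp] theorem ul_mk (n e k l a b : ℕ) : ul (mk n e k l a b) = l := by simp [ul, mk]
@[simp] theorem ua_mk (n e k l a b : ℕ) : ua (mk n e k l a b) = a := by simp [ua, mk]
@[simp] theorem ub_mk (n e k l a b : ℕ) : ub (mk n e k l a b) = b := by simp [ub, mk]

theorem mk_eta (u : ℕ) : mk (un u) (ue u) (uk u) (ul u) (ua u) (ub u) = u := by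
  simp [un, ue, uk, ul, ua, ub, mk]

/-- the number of sequences which have to be looked at -/
def NN (u : ℕ) : ℕ := if ub u = 2 then ul u + 1 else ul u

theorem ul_le_NN (u : ℕ) : ul u ≤ NN u := by unfold NN; split_ifs <;> omega

/-- the string coded by a number -/
def str (v : ℕ) : List Bool := (decode v : Option (List Bool)).getD []

@[simp] theorem str_encode (l : List Bool) : str (encode l) = l := by simp [str]

/-- the string belonging to `x` -/
def lm (x : ℕ) : List Bool := str x.unpair.2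

/-- the number with the given binary digits -/
def num (l : List Bool) : ℕ := l.foldl (fun a b => 2 * a + (if b then 1 else 0)) 0

/-- The list `S 0, …, S (N - 1)` shows at stage `t` that `S i` is a local minimum of level `n`
which is not minimal. -/
def LM (S : ℕ → ℕ → List Bool) (i N n t : ℕ) : Prop :=
  n + 1 ≤ i ∧ i + n + 1 < N ∧ n ≤ t ∧
    (∀ j < 2 * n + 3, num (S i n) ≤ num (S (i - (n + 1) + j) n)) ∧
    ∃ k < N, num (S k t) < num (S i t)

section
variable (P Q : List Bool → List Bool)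

/-- The list is seen at stage `t` not to be right for `x`. -/
def Rf (S : ℕ → ℕ → List Bool) (t x : ℕ) : Prop :=
  ((lm x).length ≤ t ∧ S 0 (lm x).length ≠ lm x) ∨
  (∃ i < ul x.unpair.1, 1 ≤ i ∧ (lm x).length ≤ t ∧ S i (lm x).length = lm x) ∨
  (ub x.unpair.1 < 2 ∧ ∃ i < ul x.unpair.1, LM S i (ul x.unpair.1) (un x.unpair.1) t) ∨
  (ub x.unpair.1 < 2 ∧ ua x.unpair.1 = 1 ∧ ag Q P (un x.unpair.1 + 1) (S 0 t)) ∨
  (ub x.unpair.1 = 1 ∧ ag P Q (un x.unpair.1 + 1) (S (ul x.unpair.1 - 1) t)) ∨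
  (ub x.unpair.1 = 2 ∧ S (ul x.unpair.1) t ≠ S 0 t)

/-- The decision to put `x` in at stage `t`. -/
def dc (c : Code) (S : ℕ → ℕ → List Bool) (t x : ℕ) : Prop :=
  un x.unpair.1 ≤ t ∧ x ≤ t ∧ (lm x).length ≤ t ∧ ue x.unpair.1 ≤ un x.unpair.1 ∧
  uk x.unpair.1 < ul x.unpair.1 ∧ ua x.unpair.1 ≤ 1 ∧ ub x.unpair.1 ≤ 2 ∧
  (∃ t' < t + 1, hlt t (ue x.unpair.1) x (S (uk x.unpair.1) t') = true) ∧
  (∀ i < ul x.unpair.1, ∀ t' < t + 1, x ≤ t' →
    F c (S i t') (Nat.pair x.unpair.1 i) = F c (S i t) (Nat.pair x.unpair.1 i)) ∧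
  ¬ Rf P Q S t x

/-- some decision is made at stage `t` -/
def dA (c : Code) (S : ℕ → ℕ → List Bool) (u t : ℕ) : Prop :=
  ∃ x < t + 1, x.unpair.1 = u ∧ dc P Q c S t x

/-- the first stage with a decision is `t` -/
def fs (c : Code) (S : ℕ → ℕ → List Bool) (u t : ℕ) : Prop :=
  dA P Q c S u t ∧ ∀ t' < t, ¬ dA P Q c S u t'

/-- the strings of the list given by `σ` at position `q` -/
def SS (σ : List Bool) (q i t : ℕ) : List Bool := (at' P Q σ q i).take t

/-- the set of pairs which are to be avoided -/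
def Sim (c : Code) (σ : List Bool) (g : ℕ) (b : Bool) : Prop :=
  g.unpair.2 < ul g.unpair.1 ∧ ∃ t < σ.length + 1, Vf P Q σ g.unpair.2 (NN g.unpair.1) t ∧
    fs P Q c (SS P Q σ g.unpair.2) g.unpair.1 t ∧ b = F c (σ.take t) g

end

/-- the two families agree -/
def Agr (N T : ℕ) (S S' : ℕ → ℕ → List Bool) : Prop := ∀ i < N, ∀ t ≤ T, S i t = S' i t

theorem Agr.symm {N T : ℕ} {S S' : ℕ → ℕ → List Bool} (h : Agr N T S S') : Agr N T S' S :=
  fun i hi t ht => (h i hi t ht).symm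

section
variable {P Q : List Bool → List Bool} {S S' : ℕ → ℕ → List Bool} {c : Code}

theorem LM.congr {N T N0 i n t : ℕ} (h : Agr N T S S') (hN : N0 ≤ N) (ht : t ≤ T)
    (h1 : LM S i N0 n t) : LM S' i N0 n t := by
  obtain ⟨a, b, d, e, k, hk, f⟩ := h1
  refine ⟨a, b, d, fun j hj => ?_, k, hk, ?_⟩
  · rw [← h i (by omega) n (by omega), ← h (i - (n + 1) + j) (by omega) n (by omega)]
    exact e j hj
  · rw [← h k (by omega) t ht, ← h i (by omega) t ht]
    exact f

theorem Rf.congr {T t x : ℕ} (h : Agr (NN x.unpair.1) T S S') (ht : t ≤ T)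
    (hl : 0 < ul x.unpair.1) (h1 : Rf P Q S t x) : Rf P Q S' t x := by
  have hN := ul_le_NN x.unpair.1
  rcases h1 with ⟨a, b⟩ | ⟨i, hi, a, b, d⟩ | ⟨a, i, hi, b⟩ | ⟨a, b, d⟩ | ⟨a, b⟩ | ⟨a, b⟩
  · left
    refine ⟨a, ?_⟩
    rw [← h 0 (by omega) _ (a.trans ht)]
    exact b
  · right; left
    refine ⟨i, hi, a, b, ?_⟩
    rw [← h i (by omega) _ (b.trans ht)]
    exact d
  · right; right; left
    exact ⟨a, i, hi, b.congr h hN ht⟩
  · right; right; right; left
    refine ⟨a, b, ?_⟩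
    rw [← h 0 (by omega) t ht]
    exact d
  · right; right; right; right; left
    refine ⟨a, ?_⟩
    rw [← h _ (by omega) t ht]
    exact b
  · right; right; right; right; right
    refine ⟨a, ?_⟩
    have hN2 : NN x.unpair.1 = ul x.unpair.1 + 1 := by
      unfold NN
      rw [if_pos a]
    rw [← h 0 (by omega) t ht, ← h (ul x.unpair.1) (by omega) t ht]
    exact b

theorem dc.congr {T t x : ℕ} (h : Agr (NN x.unpair.1) T S S') (ht : t ≤ T)
    (h1 : dc P Q c S t x) : dc P Q c S' t x := by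
  have hN := ul_le_NN x.unpair.1
  obtain ⟨a1, a2, a3, a4, a5, a6, a7, ⟨t', ht', a8⟩, a9, a10⟩ := h1
  refine ⟨a1, a2, a3, a4, a5, a6, a7, ⟨t', ht', ?_⟩, fun i hi t' ht' hx => ?_, fun h2 => a10 ?_⟩
  · rw [← h _ (by omega) t' (by omega)]
    exact a8
  · rw [← h i (by omega) t' (by omega), ← h i (by omega) t (by omega)]
    exact a9 i hi t' ht' hx
  · exact h2.congr h.symm ht (by omega)

theorem dA.congr {T t u : ℕ} (h : Agr (NN u) T S S') (ht : t ≤ T)
    (h1 : dA P Q c S u t) : dA P Q c S' u t := by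
  obtain ⟨x, hx, rfl, h2⟩ := h1
  exact ⟨x, hx, rfl, h2.congr h ht⟩

theorem fs.congr {T t u : ℕ} (h : Agr (NN u) T S S') (ht : t ≤ T)
    (h1 : fs P Q c S u t) : fs P Q c S' u t :=
  ⟨h1.1.congr h ht, fun t' ht' h2 => h1.2 t' ht' (h2.congr h.symm (by omega))⟩

end

/-! Recursiveness. -/

section
variable {α : Type*} [Primcodable α] {P Q : List Bool → List Bool}

theorem pr_u1 {x : α → ℕ} (hx : Primrec x) : Primrec fun a => (x a).unpair.1 :=
  Primrec.fst.comp (Primrec.unpair.comp hx)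
theorem pr_u2 {x : α → ℕ} (hx : Primrec x) : Primrec fun a => (x a).unpair.2 :=
  Primrec.snd.comp (Primrec.unpair.comp hx)
theorem pr_un {x : α → ℕ} (hx : Primrec x) : Primrec fun a => un (x a) := pr_u1 hx
theorem pr_ue {x : α → ℕ} (hx : Primrec x) : Primrec fun a => ue (x a) := pr_u1 (pr_u2 hx)
theorem pr_uk {x : α → ℕ} (hx : Primrec x) : Primrec fun a => uk (x a) := pr_u1 (pr_u2 (pr_u2 hx))
theorem pr_ul {x : α → ℕ} (hx : Primrec x) : Primrec fun a => ul (x a) :=
  pr_u1 (pr_u2 (pr_u2 (pr_u2 hx)))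
theorem pr_ua {x : α → ℕ} (hx : Primrec x) : Primrec fun a => ua (x a) :=
  pr_u1 (pr_u2 (pr_u2 (pr_u2 (pr_u2 hx))))
theorem pr_ub {x : α → ℕ} (hx : Primrec x) : Primrec fun a => ub (x a) :=
  pr_u2 (pr_u2 (pr_u2 (pr_u2 (pr_u2 hx))))
theorem pr_NN {x : α → ℕ} (hx : Primrec x) : Primrec fun a => NN (x a) :=
  Primrec.ite (Primrec.eq.comp (pr_ub hx) (Primrec.const 2)) (Primrec.succ.comp (pr_ul hx))
    (pr_ul hx)
theorem pr_str {x : α → ℕ} (hx : Primrec x) : Primrec fun a => str (x a) :=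
  Primrec.option_getD.comp (Primrec.decode.comp hx) (Primrec.const [])
theorem pr_lm {x : α → ℕ} (hx : Primrec x) : Primrec fun a => lm (x a) := pr_str (pr_u2 hx)

theorem pr_num {l : α → List Bool} (hl : Primrec l) : Primrec fun a => num (l a) := by
  have h : Primrec fun l : List Bool => num l := by
    unfold num
    refine Primrec.list_foldl (f := fun l : List Bool => l) (g := fun _ => 0)
      (h := fun _ p => 2 * p.1 + (if p.2 then 1 else 0)) Primrec.id (Primrec.const 0) ?_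
    refine Primrec.nat_add.comp (Primrec.nat_mul.comp (Primrec.const 2)
      (Primrec.fst.comp Primrec.snd)) (Primrec.ite ?_ (Primrec.const 1) (Primrec.const 0))
    exact Primrec.eq.comp (Primrec.snd.comp Primrec.snd) (Primrec.const true)
  exact h.comp hl

theorem pr_SS (S : Sys P Q) {σ : α → List Bool} {q i t : α → ℕ} (hσ : Primrec σ) (hq : Primrec q)
    (hi : Primrec i) (ht : Primrec t) : Primrec fun a => SS P Q (σ a) (q a) (i a) (t a) :=
  Primrec.list_take.comp ht (pr_at S hσ hq hi)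

theorem pr_add1 {x : α → ℕ} (hx : Primrec x) : Primrec fun a => x a + 1 := Primrec.succ.comp hx

theorem pr_LM (S : Sys P Q) {σ : α → List Bool} {q i N n t : α → ℕ} (hσ : Primrec σ)
    (hq : Primrec q) (hi : Primrec i) (hN : Primrec N) (hn : Primrec n) (ht : Primrec t) :
    PrimrecPred fun a => LM (SS P Q (σ a) (q a)) (i a) (N a) (n a) (t a) := by
  unfold LM
  refine PrimrecPred.and ?_ (PrimrecPred.and ?_ (PrimrecPred.and ?_ (PrimrecPred.and ?_ ?_)))
  · exact Primrec.nat_le.comp (pr_add1 hn) hi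
  · exact Primrec.nat_lt.comp (pr_add1 (Primrec.nat_add.comp hi hn)) hN
  · exact Primrec.nat_le.comp hn ht
  · refine PP.all_lt (f := fun a => 2 * n a + 3) (p := fun a j =>
      num (SS P Q (σ a) (q a) (i a) (n a)) ≤ num (SS P Q (σ a) (q a) (i a - (n a + 1) + j) (n a)))
      ?_ (Primrec.nat_add.comp (Primrec.nat_mul.comp (Primrec.const 2) hn) (Primrec.const 3))
    exact Primrec.nat_le.comp
      (pr_num (pr_SS S (hσ.comp Primrec.fst) (hq.comp Primrec.fst) (hi.comp Primrec.fst)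
        (hn.comp Primrec.fst)))
      (pr_num (pr_SS S (hσ.comp Primrec.fst) (hq.comp Primrec.fst)
        (Primrec.nat_add.comp (Primrec.nat_sub.comp (hi.comp Primrec.fst)
          (pr_add1 (hn.comp Primrec.fst))) Primrec.snd) (hn.comp Primrec.fst)))
  · refine PP.ex_lt (f := fun a => N a) (p := fun a k =>
      num (SS P Q (σ a) (q a) k (t a)) < num (SS P Q (σ a) (q a) (i a) (t a))) ?_ hN
    exact Primrec.nat_lt.comp
      (pr_num (pr_SS S (hσ.comp Primrec.fst) (hq.comp Primrec.fst) Primrec.snd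
        (ht.comp Primrec.fst)))
      (pr_num (pr_SS S (hσ.comp Primrec.fst) (hq.comp Primrec.fst) (hi.comp Primrec.fst)
        (ht.comp Primrec.fst)))

theorem pr_len {l : α → List Bool} (hl : Primrec l) : Primrec fun a => (l a).length :=
  Primrec.list_length.comp hl

theorem pr_Rf (S : Sys P Q) {σ : α → List Bool} {q t x : α → ℕ} (hσ : Primrec σ)
    (hq : Primrec q) (ht : Primrec t) (hx : Primrec x) :
    PrimrecPred fun a => Rf P Q (SS P Q (σ a) (q a)) (t a) (x a) := by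
  unfold Rf
  have hu := pr_u1 hx
  have hl := pr_len (pr_lm hx)
  refine PrimrecPred.or ?_ (PrimrecPred.or ?_ (PrimrecPred.or ?_ (PrimrecPred.or ?_
    (PrimrecPred.or ?_ ?_))))
  · exact PrimrecPred.and (Primrec.nat_le.comp hl ht) (PrimrecPred.not (Primrec.eq.comp
      (pr_SS S hσ hq (Primrec.const 0) hl) (pr_lm hx)))
  · refine PP.ex_lt (f := fun a => ul (x a).unpair.1) (p := fun a i => 1 ≤ i ∧
      (lm (x a)).length ≤ t a ∧ SS P Q (σ a) (q a) i (lm (x a)).length = lm (x a)) ?_ (pr_ul hu)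
    exact PrimrecPred.and (Primrec.nat_le.comp (Primrec.const 1) Primrec.snd)
      (PrimrecPred.and (Primrec.nat_le.comp (hl.comp Primrec.fst) (ht.comp Primrec.fst))
        (Primrec.eq.comp (pr_SS S (hσ.comp Primrec.fst) (hq.comp Primrec.fst) Primrec.snd
          (hl.comp Primrec.fst)) ((pr_lm hx).comp Primrec.fst)))
  · refine PrimrecPred.and (Primrec.nat_lt.comp (pr_ub hu) (Primrec.const 2)) ?_
    refine PP.ex_lt (f := fun a => ul (x a).unpair.1) (p := fun a i =>
      LM (SS P Q (σ a) (q a)) i (ul (x a).unpair.1) (un (x a).unpair.1) (t a)) ?_ (pr_ul hu)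
    exact pr_LM S (hσ.comp Primrec.fst) (hq.comp Primrec.fst) Primrec.snd
      ((pr_ul hu).comp Primrec.fst) ((pr_un hu).comp Primrec.fst) (ht.comp Primrec.fst)
  · exact PrimrecPred.and (Primrec.nat_lt.comp (pr_ub hu) (Primrec.const 2))
      (PrimrecPred.and (Primrec.eq.comp (pr_ua hu) (Primrec.const 1))
        (pr_ag S.symm (pr_add1 (pr_un hu)) (pr_SS S hσ hq (Primrec.const 0) ht)))
  · exact PrimrecPred.and (Primrec.eq.comp (pr_ub hu) (Primrec.const 1))
      (pr_ag S (pr_add1 (pr_un hu)) (pr_SS S hσ hq (Primrec.nat_sub.comp (pr_ul hu)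
        (Primrec.const 1)) ht))
  · exact PrimrecPred.and (Primrec.eq.comp (pr_ub hu) (Primrec.const 2))
      (PrimrecPred.not (Primrec.eq.comp (pr_SS S hσ hq (pr_ul hu) ht)
        (pr_SS S hσ hq (Primrec.const 0) ht)))

theorem pr_dc (S : Sys P Q) {c : α → Code} {σ : α → List Bool} {q t x : α → ℕ} (hc : Primrec c)
    (hσ : Primrec σ) (hq : Primrec q) (ht : Primrec t) (hx : Primrec x) :
    PrimrecPred fun a => dc P Q (c a) (SS P Q (σ a) (q a)) (t a) (x a) := by
  unfold dc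
  have hu := pr_u1 hx
  have hl := pr_len (pr_lm hx)
  refine PrimrecPred.and (Primrec.nat_le.comp (pr_un hu) ht)
    (PrimrecPred.and (Primrec.nat_le.comp hx ht)
    (PrimrecPred.and (Primrec.nat_le.comp hl ht)
    (PrimrecPred.and (Primrec.nat_le.comp (pr_ue hu) (pr_un hu))
    (PrimrecPred.and (Primrec.nat_lt.comp (pr_uk hu) (pr_ul hu))
    (PrimrecPred.and (Primrec.nat_le.comp (pr_ua hu) (Primrec.const 1))
    (PrimrecPred.and (Primrec.nat_le.comp (pr_ub hu) (Primrec.const 2))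
    (PrimrecPred.and ?_ (PrimrecPred.and ?_ (PrimrecPred.not (pr_Rf S hσ hq ht hx))))))))))
  · refine PP.ex_lt (f := fun a => t a + 1) (p := fun a t' => hlt (t a) (ue (x a).unpair.1) (x a)
      (SS P Q (σ a) (q a) (uk (x a).unpair.1) t') = true) ?_ (pr_add1 ht)
    exact Primrec.eq.comp (pr_hlt (ht.comp Primrec.fst) ((pr_ue hu).comp Primrec.fst)
      (hx.comp Primrec.fst) (pr_SS S (hσ.comp Primrec.fst) (hq.comp Primrec.fst)
      ((pr_uk hu).comp Primrec.fst) Primrec.snd)) (Primrec.const true)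
  · refine PP.all_lt (f := fun a => ul (x a).unpair.1) (p := fun a i => ∀ t' < t a + 1, x a ≤ t' →
      F (c a) (SS P Q (σ a) (q a) i t') (Nat.pair (x a).unpair.1 i) =
        F (c a) (SS P Q (σ a) (q a) i (t a)) (Nat.pair (x a).unpair.1 i)) ?_ (pr_ul hu)
    refine PP.all_lt (α := α × ℕ) (f := fun y => t y.1 + 1) (p := fun y t' => x y.1 ≤ t' →
      F (c y.1) (SS P Q (σ y.1) (q y.1) y.2 t') (Nat.pair (x y.1).unpair.1 y.2) =
        F (c y.1) (SS P Q (σ y.1) (q y.1) y.2 (t y.1)) (Nat.pair (x y.1).unpair.1 y.2)) ?_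
      ((pr_add1 ht).comp Primrec.fst)
    have ff : Primrec fun z : (α × ℕ) × ℕ => z.1.1 := Primrec.fst.comp Primrec.fst
    have fs : Primrec fun z : (α × ℕ) × ℕ => z.1.2 := Primrec.snd.comp Primrec.fst
    have hg : Primrec fun z : (α × ℕ) × ℕ => Nat.pair (x z.1.1).unpair.1 z.1.2 :=
      Primrec₂.natPair.comp (hu.comp ff) fs
    exact pr_imp (Primrec.nat_le.comp (hx.comp ff) Primrec.snd)
      (Primrec.eq.comp (pr_F (hc.comp ff) (pr_SS S (hσ.comp ff) (hq.comp ff) fs Primrec.snd) hg)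
        (pr_F (hc.comp ff) (pr_SS S (hσ.comp ff) (hq.comp ff) fs (ht.comp ff)) hg))

theorem pr_dA (S : Sys P Q) {c : α → Code} {σ : α → List Bool} {q u t : α → ℕ} (hc : Primrec c)
    (hσ : Primrec σ) (hq : Primrec q) (hu : Primrec u) (ht : Primrec t) :
    PrimrecPred fun a => dA P Q (c a) (SS P Q (σ a) (q a)) (u a) (t a) := by
  unfold dA
  refine PP.ex_lt (f := fun a => t a + 1) (p := fun a x => x.unpair.1 = u a ∧
    dc P Q (c a) (SS P Q (σ a) (q a)) (t a) x) ?_ (pr_add1 ht)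
  exact PrimrecPred.and (Primrec.eq.comp (pr_u1 Primrec.snd) (hu.comp Primrec.fst))
    (pr_dc S (hc.comp Primrec.fst) (hσ.comp Primrec.fst) (hq.comp Primrec.fst)
      (ht.comp Primrec.fst) Primrec.snd)

theorem pr_fs (S : Sys P Q) {c : α → Code} {σ : α → List Bool} {q u t : α → ℕ} (hc : Primrec c)
    (hσ : Primrec σ) (hq : Primrec q) (hu : Primrec u) (ht : Primrec t) :
    PrimrecPred fun a => fs P Q (c a) (SS P Q (σ a) (q a)) (u a) (t a) := by
  unfold fs
  refine PrimrecPred.and (pr_dA S hc hσ hq hu ht) ?_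
  refine PP.all_lt (f := fun a => t a) (p := fun a t' =>
    ¬ dA P Q (c a) (SS P Q (σ a) (q a)) (u a) t') ?_ ht
  exact PrimrecPred.not (pr_dA S (hc.comp Primrec.fst) (hσ.comp Primrec.fst)
    (hq.comp Primrec.fst) (hu.comp Primrec.fst) Primrec.snd)

theorem pr_Sim (S : Sys P Q) {c : α → Code} {σ : α → List Bool} {g : α → ℕ} {b : α → Bool}
    (hc : Primrec c) (hσ : Primrec σ) (hg : Primrec g) (hb : Primrec b) :
    PrimrecPred fun a => Sim P Q (c a) (σ a) (g a) (b a) := by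
  unfold Sim
  refine PrimrecPred.and (Primrec.nat_lt.comp (pr_u2 hg) (pr_ul (pr_u1 hg))) ?_
  refine PP.ex_lt (f := fun a => (σ a).length + 1) (p := fun a t =>
    Vf P Q (σ a) (g a).unpair.2 (NN (g a).unpair.1) t ∧
    fs P Q (c a) (SS P Q (σ a) (g a).unpair.2) (g a).unpair.1 t ∧
    b a = F (c a) ((σ a).take t) (g a)) ?_ (pr_add1 (pr_len hσ))
  have hg' := hg.comp (Primrec.fst : Primrec (Prod.fst : α × ℕ → α))
  exact PrimrecPred.and
    (pr_Vf S (hσ.comp Primrec.fst) (pr_u2 hg') (pr_NN (pr_u1 hg')) Primrec.snd)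
    (PrimrecPred.and (pr_fs S (hc.comp Primrec.fst) (hσ.comp Primrec.fst) (pr_u2 hg')
      (pr_u1 hg') Primrec.snd)
    (Primrec.eq.comp (hb.comp Primrec.fst) (pr_F (hc.comp Primrec.fst)
      (Primrec.list_take.comp Primrec.snd (hσ.comp Primrec.fst)) hg')))

/-- the fixed point -/
theorem exists_fix (S : Sys P Q) : ∃ c : Code, ∀ (g : ℕ) (b : Bool) (σ : List Bool),
    (c.eval (encode ((g, b), σ))).Dom ↔ Sim P Q c σ g b := by
  classical
  have h1 : Primrec fun y : Code × ℕ => (decode y.2 : Option ((ℕ × Bool) × List Bool)).getD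
      ((0, false), []) :=
    Primrec.option_getD.comp (Primrec.decode.comp Primrec.snd) (Primrec.const _)
  have h2 : PrimrecPred fun y : Code × ℕ => Sim P Q y.1
      ((decode y.2 : Option ((ℕ × Bool) × List Bool)).getD ((0, false), [])).2
      ((decode y.2 : Option ((ℕ × Bool) × List Bool)).getD ((0, false), [])).1.1
      ((decode y.2 : Option ((ℕ × Bool) × List Bool)).getD ((0, false), [])).1.2 :=
    pr_Sim S Primrec.fst (Primrec.snd.comp h1) (Primrec.fst.comp (Primrec.fst.comp h1))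
      (Primrec.snd.comp (Primrec.fst.comp h1))
  obtain ⟨c, hc⟩ := Nat.Partrec.Code.fixed_point₂ (f := fun (c : Code) (m : ℕ) =>
    Nat.rfind fun _ => Part.some (decide (Sim P Q c
      ((decode m : Option ((ℕ × Bool) × List Bool)).getD ((0, false), [])).2
      ((decode m : Option ((ℕ × Bool) × List Bool)).getD ((0, false), [])).1.1
      ((decode m : Option ((ℕ × Bool) × List Bool)).getD ((0, false), [])).1.2))) (by
    refine Partrec.rfind (α := Code × ℕ) (p := fun y _ => Part.some (decide (Sim P Q y.1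
      ((decode y.2 : Option ((ℕ × Bool) × List Bool)).getD ((0, false), [])).2
      ((decode y.2 : Option ((ℕ × Bool) × List Bool)).getD ((0, false), [])).1.1
      ((decode y.2 : Option ((ℕ × Bool) × List Bool)).getD ((0, false), [])).1.2))) ?_
    exact ((PrimrecPred.decide h2).comp Primrec.fst).to_comp.partrec)
  refine ⟨c, fun g b σ => ?_⟩
  rw [hc, Nat.rfind_dom]
  simp

theorem Sim_coh (S : Sys P Q) {c : Code} {X : ℕ → Bool} {g s s' : ℕ} {b b' : Bool} (hs : s ≤ s')
    (h : Sim P Q c (pre X s) g b) (h' : Sim P Q c (pre X s') g b') : b = b' := by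
  obtain ⟨_, t, ht, h2, h3, h4⟩ := h
  obtain ⟨_, t', ht', h2', h3', h4'⟩ := h'
  rw [length_pre] at ht ht'
  have hag : ∀ T, T ≤ t → Agr (NN g.unpair.1) T (SS P Q (pre X s) g.unpair.2)
      (SS P Q (pre X s') g.unpair.2) := fun T hT i hi t'' ht'' =>
    Vf_coh S hs h2 hi (ht''.trans hT)
  have htt : t = t' := by
    rcases lt_trichotomy t t' with h5 | h5 | h5
    · exact absurd (h3.1.congr (hag t le_rfl) le_rfl) (h3'.2 t h5)
    · exact h5
    · exact absurd (h3'.1.congr (hag t' h5.le).symm le_rfl) (h3.2 t' h5)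
  subst htt
  rw [h4, h4', take_pre _ _ _ (by omega), take_pre _ _ _ (by omega)]

theorem Sim_of_hav {c : Code} (hc : ∀ (g : ℕ) (b : Bool) (σ : List Bool),
    (c.eval (encode ((g, b), σ))).Dom ↔ Sim P Q c σ g b) {X : ℕ → Bool} {g s : ℕ} {b : Bool}
    (h : hav c (pre X s) g b) : ∃ t, Sim P Q c (pre X t) g b := by
  obtain ⟨t, ht, h1⟩ := h
  rw [length_pre] at ht h1
  rw [take_pre _ _ _ (by omega)] at h1
  rw [Option.isSome_iff_exists] at h1
  obtain ⟨y, hy⟩ := h1
  refine ⟨t, (hc _ _ _).1 ?_⟩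
  exact (Part.dom_iff_mem).2 ⟨y, Nat.Partrec.Code.evaln_sound hy⟩

theorem hav_of_Sim {c : Code} (hc : ∀ (g : ℕ) (b : Bool) (σ : List Bool),
    (c.eval (encode ((g, b), σ))).Dom ↔ Sim P Q c σ g b) {X : ℕ → Bool} {g t : ℕ} {b : Bool}
    (h : Sim P Q c (pre X t) g b) : ∃ s, hav c (pre X s) g b := by
  have h1 := (hc _ _ _).2 h
  obtain ⟨y, hy⟩ := Part.dom_iff_mem.1 h1
  obtain ⟨k, hk⟩ := Nat.Partrec.Code.evaln_complete.1 hy
  refine ⟨max k t, t, ?_, ?_⟩
  · rw [length_pre]
    exact Nat.lt_succ_of_le (le_max_right _ _)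
  · rw [length_pre, take_pre _ _ _ (le_max_right _ _), Option.isSome_iff_exists]
    exact ⟨y, Nat.Partrec.Code.evaln_mono (le_max_left _ _) hk⟩

theorem hsv_of_fix (S : Sys P Q) {c : Code} (hc : ∀ (g : ℕ) (b : Bool) (σ : List Bool),
    (c.eval (encode ((g, b), σ))).Dom ↔ Sim P Q c σ g b) (X : ℕ → Bool) (g s s' : ℕ) (b b' : Bool)
    (h : hav c (pre X s) g b) (h' : hav c (pre X s') g b') : b = b' := by
  obtain ⟨t, h1⟩ := Sim_of_hav hc h
  obtain ⟨t', h1'⟩ := Sim_of_hav hc h'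
  rcases le_total t t' with h2 | h2
  · exact Sim_coh S h2 h1 h1'
  · exact (Sim_coh S h2 h1' h1).symm

end

end Pool.Agent.Run7.h353.PI
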