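import Pool.Agent.Run7.h353.PI.A3

set_option autoImplicit false

/-!
Local minima and periods of orbits.
-/

namespace Pool.Agent.Run7.h353.PI

open Encodable Pool.Agent.Helper227 Pool.Agent.H548R2.Post
open Nat.Partrec (Code)

theorem num_append (l : List Bool) (b : Bool) : num (l ++ [b]) = 2 * num l + (if b then 1 else 0) := by
  simp [num]

theorem num_succ (X : ℕ → Bool) (t : ℕ) :
    num (pre X (t + 1)) = 2 * num (pre X t) + (if X t then 1 else 0) := by
  rw [pre_succ, num_append]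

theorem num_lt_pow (X : ℕ → Bool) (t : ℕ) : num (pre X t) < 2 ^ t := by
  induction t with
  | zero => simp [num, pre]
  | succ t ih =>
    rw [num_succ, pow_succ]
    split_ifs <;> omega

theorem num_lt_mono {X Y : ℕ → Bool} {t t' : ℕ} (h : num (pre X t) < num (pre Y t)) (ht : t ≤ t') :
    num (pre X t') < num (pre Y t') := by
  induction t', ht using Nat.le_induction with
  | base => exact h
  | succ n _ ih =>
    rw [num_succ, num_succ]
    split_ifs <;> omega

theorem num_inj {X Y : ℕ → Bool} {t : ℕ} (h : num (pre X t) = num (pre Y t)) :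
    pre X t = pre Y t := by
  induction t with
  | zero => rfl
  | succ t ih =>
    rw [num_succ, num_succ] at h
    have h1 : num (pre X t) = num (pre Y t) := by split_ifs at h <;> omega
    have h2 : X t = Y t := by
      rw [h1] at h
      cases hX : X t <;> cases hY : Y t <;> simp [hX, hY] at h ⊢
    rw [pre_succ, pre_succ, ih h1, h2]

/-- lexicographic order -/
def ltR (X Y : ℕ → Bool) : Prop := ∃ t, num (pre X t) < num (pre Y t)

theorem ltR_or {X Y : ℕ → Bool} (h : X ≠ Y) : ltR X Y ∨ ltR Y X := by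
  by_contra h1
  unfold ltR at h1
  push Not at h1
  exact h (eq_of_pre fun t => ⟨t, le_rfl, num_inj (le_antisymm (h1.2 t) (h1.1 t))⟩)

theorem ltR_asymm {X Y : ℕ → Bool} (h : ltR X Y) : ¬ ltR Y X := by
  rintro ⟨t', h'⟩
  obtain ⟨t, h⟩ := h
  have h1 := num_lt_mono h (le_max_left t t')
  have h2 := num_lt_mono h' (le_max_right t t')
  omega

/-- a bounded function has local minima far out -/
theorem locmin {f : ℕ → ℕ} {B : ℕ} (hB : ∀ j, f j ≤ B) (r K : ℕ) :
    ∃ i ≥ K + r, ∀ j, i ≤ j + r → f i ≤ f j := by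
  classical
  have hP : ∃ v, ∀ K, ∃ j ≥ K, f j ≤ v := ⟨B, fun K => ⟨K, le_rfl, hB K⟩⟩
  have h1 := Nat.find_spec hP
  have h2 : ∃ K1, ∀ j ≥ K1, Nat.find hP ≤ f j := by
    rcases Nat.eq_zero_or_pos (Nat.find hP) with h0 | h0
    · exact ⟨0, fun j _ => by rw [h0]; exact Nat.zero_le _⟩
    · have h3 := Nat.find_min hP (m := Nat.find hP - 1) (by omega)
      push Not at h3
      obtain ⟨K1, hK1⟩ := h3
      exact ⟨K1, fun j hj => by have := hK1 j hj; omega⟩
  obtain ⟨K1, hK1⟩ := h2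
  obtain ⟨i, hi, hfi⟩ := h1 (max K K1 + r)
  have h4 : K ≤ max K K1 := le_max_left _ _
  have h5 : K1 ≤ max K K1 := le_max_right _ _
  exact ⟨i, by omega, fun j hj => hfi.trans (hK1 j (by omega))⟩

/-- the strings of the list starting at the position `m` -/
def SR (Z : ℤ → ℕ → Bool) (m : ℤ) (i t : ℕ) : List Bool := pre (Z (m + i)) t

/-- the position `k` is a marker of level `n` -/
def Bn (Z : ℤ → ℕ → Bool) (I : Set ℤ) (n : ℕ) (k : ℤ) : Prop :=
  k - (n + 1) ∈ I ∧ k + (n + 1) ∈ I ∧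
    (∀ j, k - (n + 1) ≤ j → j ≤ k + (n + 1) → num (pre (Z k) n) ≤ num (pre (Z j) n)) ∧
    ∃ j ∈ I, ltR (Z j) (Z k)

/-- the position `k` is a marker of level `n`, and this can be seen inside `[K, K']` -/
def BI (Z : ℤ → ℕ → Bool) (n : ℕ) (K K' k : ℤ) : Prop :=
  K ≤ k - (n + 1) ∧ k + (n + 1) ≤ K' ∧
    (∀ j, k - (n + 1) ≤ j → j ≤ k + (n + 1) → num (pre (Z k) n) ≤ num (pre (Z j) n)) ∧
    ∃ j, K ≤ j ∧ j ≤ K' ∧ ltR (Z j) (Z k)

section
variable {P Q : List Bool → List Bool} {I : Set ℤ} {Z : ℤ → ℕ → Bool}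

theorem BI.neg {n : ℕ} {K K' k : ℤ} (h : BI (fun j => Z (-j)) n K K' k) :
    BI Z n (-K') (-K) (-k) := by
  obtain ⟨h1, h2, h3, j, h4, h5, h6⟩ := h
  refine ⟨by omega, by omega, fun j h7 h8 => ?_, -j, by omega, by omega, h6⟩
  have := h3 (-j) (by omega) (by omega)
  simpa only [neg_neg] using this

theorem Bn.neg {n : ℕ} {k : ℤ} (h : Bn (fun j => Z (-j)) {k | -k ∈ I} n k) : Bn Z I n (-k) := by
  obtain ⟨h1, h2, h3, j, h4, h5⟩ := h
  change -(k - (n + 1)) ∈ I at h1
  change -(k + (n + 1)) ∈ I at h2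
  refine ⟨?_, ?_, fun j h7 h8 => ?_, -j, h4, h5⟩
  · rw [show -k - ((n : ℤ) + 1) = -(k + (n + 1)) by ring]
    exact h2
  · rw [show -k + ((n : ℤ) + 1) = -(k - (n + 1)) by ring]
    exact h1
  · have := h3 (-j) (by omega) (by omega)
    simpa only [neg_neg] using this

theorem BI.mono {n : ℕ} {K K' k M M' : ℤ} (h : BI Z n K K' k) (h1 : M ≤ K) (h2 : K' ≤ M') :
    BI Z n M M' k := by
  obtain ⟨a, b, d, j, e, f, g⟩ := h
  exact ⟨by omega, by omega, d, j, by omega, by omega, g⟩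

theorem BI.toLM {n : ℕ} {m k : ℤ} {N : ℕ} (h : BI Z n m (m + N - 1) k) :
    ∃ i : ℕ, m + (i : ℤ) = k ∧ i < N ∧ ∃ t0, ∀ t ≥ t0, LM (SR Z m) i N n t := by
  obtain ⟨a, b, d, j, e, f, t0, g⟩ := h
  refine ⟨(k - m).toNat, by omega, by omega, max n t0, fun t ht => ⟨by omega, by omega,
    le_trans (le_max_left _ _) ht, fun j' hj' => ?_, (j - m).toNat, by omega, ?_⟩⟩
  · unfold SR
    rw [show m + (((k - m).toNat : ℕ) : ℤ) = k by omega]
    exact d _ (by omega) (by omega)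
  · unfold SR
    rw [show m + (((k - m).toNat : ℕ) : ℤ) = k by omega,
      show m + (((j - m).toNat : ℕ) : ℤ) = j by omega]
    exact num_lt_mono g (le_trans (le_max_right _ _) ht)

theorem BI_of_LM {n : ℕ} {m : ℤ} {N i t : ℕ} (h : LM (SR Z m) i N n t) :
    BI Z n m (m + N - 1) (m + i) := by
  obtain ⟨a, b, d, e, k, hk, f⟩ := h
  refine ⟨by omega, by omega, fun j h1 h2 => ?_, m + k, by omega, by omega, t, f⟩
  have h3 := e (j - m - i + (n + 1)).toNat (by omega)
  unfold SR at h3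
  rw [show m + ((i - (n + 1) + (j - m - i + (n + 1)).toNat : ℕ) : ℤ) = j by omega] at h3
  exact h3

theorem Bn_of_BI (O : Orb P Q I Z) {n : ℕ} {K K' k : ℤ} (hK : K ∈ I) (hK' : K' ∈ I)
    (h : BI Z n K K' k) : Bn Z I n k := by
  obtain ⟨a, b, d, j, e, f, g⟩ := h
  exact ⟨O.conv _ _ _ hK hK' (by omega) (by omega), O.conv _ _ _ hK hK' (by omega) (by omega), d, j,
    O.conv _ _ _ hK hK' (by omega) (by omega), g⟩

theorem BI_of_Bn {n : ℕ} {k l : ℤ} (hl : l ∈ I) (h : Bn Z I n k) :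
    ∃ K K', K ∈ I ∧ K' ∈ I ∧ K ≤ l ∧ l ≤ K' ∧ BI Z n K K' k := by
  obtain ⟨a, b, d, j, e, f⟩ := h
  have hmin : ∀ x y : ℤ, x ∈ I → y ∈ I → min x y ∈ I := fun x y hx hy => by
    rcases min_choice x y with h | h <;> rw [h] <;> assumption
  have hmax : ∀ x y : ℤ, x ∈ I → y ∈ I → max x y ∈ I := fun x y hx hy => by
    rcases max_choice x y with h | h <;> rw [h] <;> assumption
  refine ⟨min (k - (n + 1)) (min j l), max (k + (n + 1)) (max j l), hmin _ _ a (hmin _ _ e hl),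
    hmax _ _ b (hmax _ _ e hl), by omega, by omega, by omega, by omega, d, j, by omega, by omega, f⟩

theorem vanish {k : ℤ} : ∃ n0, ∀ n ≥ n0, ¬ Bn Z I n k := by
  by_cases h : ∃ j ∈ I, ltR (Z j) (Z k)
  · obtain ⟨j, hj, t0, ht0⟩ := h
    refine ⟨max t0 (j - k).natAbs, fun n hn h1 => ?_⟩
    have h2 : t0 ≤ n := le_trans (le_max_left _ _) hn
    have h3 : (j - k).natAbs ≤ n := le_trans (le_max_right _ _) hn
    have h4 := h1.2.2.1 j (by omega) (by omega)
    have h5 := num_lt_mono ht0 h2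
    omega
  · exact ⟨0, fun n _ h1 => h h1.2.2.2⟩

/-- In an infinite direction there are markers. -/
theorem exists_BI_right {K : ℤ} (hinj : ∀ i j, K ≤ i → K ≤ j → Z i = Z j → i = j) (n : ℕ) :
    ∃ K' k, BI Z n K K' k := by
  have hB : ∀ j : ℕ, num (pre (Z (K + j)) n) ≤ 2 ^ n := fun j => (num_lt_pow _ _).le
  obtain ⟨i1, hi1, h1⟩ := locmin (f := fun j : ℕ => num (pre (Z (K + j)) n)) hB (n + 1) 0
  obtain ⟨i2, hi2, h2⟩ := locmin (f := fun j : ℕ => num (pre (Z (K + j)) n)) hB (n + 1) (i1 + 1)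
  have hne : Z (K + i1) ≠ Z (K + i2) := fun h => by
    have := hinj _ _ (by omega) (by omega) h
    omega
  have key : ∀ i : ℕ, n + 1 ≤ i → (∀ j : ℕ, i ≤ j + (n + 1) →
      num (pre (Z (K + i)) n) ≤ num (pre (Z (K + j)) n)) → ∀ j : ℕ, ltR (Z (K + j)) (Z (K + i)) →
      BI Z n K (K + i + j + (n + 1)) (K + i) := by
    intro i hi h3 j hj
    refine ⟨by omega, by omega, fun j' h4 h5 => ?_, K + j, by omega, by omega, hj⟩
    have h6 := h3 (j' - K).toNat (by omega)
    rwa [show K + (((j' - K).toNat : ℕ) : ℤ) = j' by omega] at h6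
  rcases ltR_or hne with h | h
  · exact ⟨_, _, key i2 (by omega) h2 i1 h⟩
  · exact ⟨_, _, key i1 (by omega) h1 i2 h⟩

theorem exists_BI_left {K : ℤ} (hinj : ∀ i j, i ≤ K → j ≤ K → Z i = Z j → i = j) (n : ℕ) :
    ∃ K' k, BI Z n K' K k := by
  obtain ⟨K', k, h⟩ := exists_BI_right (Z := fun j => Z (-j)) (K := -K)
    (fun i j hi hj h => by
      have := hinj (-i) (-j) (by omega) (by omega) h
      omega) n
  have := h.neg
  rw [neg_neg] at this
  exact ⟨_, _, this⟩

theorem Orb.right_eq (O : Orb P Q I Z) {m p : ℤ} (hp : 0 < p) (hm : m ∈ I) (hmp : m + p ∈ I)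
    (h : Z (m + p) = Z m) (j : ℕ) : m + j ∈ I ∧ m + j + p ∈ I ∧ Z (m + j + p) = Z (m + j) := by
  induction j with
  | zero => simpa using ⟨hm, hmp, h⟩
  | succ j ih =>
    obtain ⟨h1, h2, h3⟩ := ih
    have h4 : m + j + 1 ∈ I := O.conv _ _ _ h1 h2 (by omega) (by omega)
    have h5 := O.edge _ h1 h4
    have h6 : m + j + p + 1 ∈ I := by
      by_contra h6
      refine O.rend _ h2 h6 ⟨Z (m + j + 1), ?_⟩
      rw [h3]
      exact h5
    have h7 := O.edge _ h2 h6
    rw [h3] at h7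
    push_cast
    rw [show m + ((j : ℤ) + 1) = m + j + 1 by ring, show m + j + 1 + p = m + j + p + 1 by ring]
    exact ⟨h4, h6, (h5.det h7).symm⟩

theorem Orb.left_eq (O : Orb P Q I Z) {m p : ℤ} (hp : 0 < p) (hm : m ∈ I) (hmp : m + p ∈ I)
    (h : Z (m + p) = Z m) (j : ℕ) : m - j ∈ I ∧ m - j + p ∈ I ∧ Z (m - j + p) = Z (m - j) := by
  have h1 := O.neg.right_eq (m := -(m + p)) hp
    (by change -(-(m + p)) ∈ I; rw [neg_neg]; exact hmp)
    (by change -(-(m + p) + p) ∈ I; rw [show -(-(m + p) + p) = m by ring]; exact hm)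
    (by
      show Z (-(-(m + p) + p)) = Z (-(-(m + p)))
      rw [show -(-(m + p) + p) = m by ring, neg_neg]
      exact h.symm) j
  obtain ⟨h2, h3, h4⟩ := h1
  change -(-(m + p) + j) ∈ I at h2
  change -(-(m + p) + j + p) ∈ I at h3
  rw [show -(-(m + p) + (j : ℤ)) = m - j + p by ring] at h2 h4
  rw [show -(-(m + p) + (j : ℤ) + p) = m - j by ring] at h3 h4
  exact ⟨h3, h2, h4.symm⟩

theorem Orb.per_of_eq (O : Orb P Q I Z) {m p : ℤ} (hp : 0 < p) (hm : m ∈ I) (hmp : m + p ∈ I)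
    (h : Z (m + p) = Z m) : (∀ k, k ∈ I) ∧ ∀ k, Z (k + p) = Z k := by
  have key : ∀ k, k ∈ I ∧ Z (k + p) = Z k := by
    intro k
    rcases le_total m k with h1 | h1
    · have h2 := O.right_eq hp hm hmp h (k - m).toNat
      rw [show m + (((k - m).toNat : ℕ) : ℤ) = k by omega] at h2
      exact ⟨h2.1, h2.2.2⟩
    · have h2 := O.left_eq hp hm hmp h (m - k).toNat
      rw [show m - (((m - k).toNat : ℕ) : ℤ) = k by omega] at h2
      exact ⟨h2.1, h2.2.2⟩
  exact ⟨fun k => (key k).1, fun k => (key k).2⟩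

theorem per_mul {p : ℕ} (h : ∀ k, Z (k + p) = Z k) (j : ℕ) (k : ℤ) : Z (k + (p * j : ℕ)) = Z k := by
  induction j with
  | zero => simp
  | succ j ih =>
    rw [show k + ((p * (j + 1) : ℕ) : ℤ) = k + (p * j : ℕ) + p by push_cast; ring, h, ih]

theorem per_dvd {p : ℕ} (h : ∀ k, Z (k + p) = Z k) {m m' : ℤ} (hd : (p : ℤ) ∣ m' - m) :
    Z m = Z m' := by
  obtain ⟨j, hj⟩ := hd
  rcases le_total 0 j with h1 | h1
  · have h2 := per_mul h j.toNat m
    have h3 : m + ((p * j.toNat : ℕ) : ℤ) = m' := by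
      push_cast
      rw [Int.toNat_of_nonneg h1]
      omega
    rw [h3] at h2
    exact h2.symm
  · have h2 := per_mul h (-j).toNat m'
    have h3 : m' + ((p * (-j).toNat : ℕ) : ℤ) = m := by
      push_cast
      rw [Int.toNat_of_nonneg (by omega)]
      rw [mul_neg]
      omega
    rw [h3] at h2
    exact h2

theorem Orb.cases (O : Orb P Q I Z) : (∀ m m', m ∈ I → m' ∈ I → Z m = Z m' → m = m') ∨
    ∃ p : ℕ, 0 < p ∧ (∀ k, k ∈ I) ∧ (∀ k, Z (k + p) = Z k) ∧
      ∀ m m', Z m = Z m' → (p : ℤ) ∣ m' - m := by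
  classical
  by_cases hap : ∀ m m', m ∈ I → m' ∈ I → Z m = Z m' → m = m'
  · exact Or.inl hap
  · right
    have hex : ∃ p : ℕ, 0 < p ∧ (∀ k, k ∈ I) ∧ ∀ k, Z (k + p) = Z k := by
      push Not at hap
      obtain ⟨m, m', hm, hm', h, hne⟩ := hap
      rcases lt_or_gt_of_ne hne with h1 | h1
      · have h2 := O.per_of_eq (m := m) (p := m' - m) (by omega) hm
          (by rw [show m + (m' - m) = m' by ring]; exact hm')
          (by rw [show m + (m' - m) = m' by ring]; exact h.symm)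
        refine ⟨(m' - m).toNat, by omega, h2.1, fun k => ?_⟩
        rw [Int.toNat_of_nonneg (by omega)]
        exact h2.2 k
      · have h2 := O.per_of_eq (m := m') (p := m - m') (by omega) hm'
          (by rw [show m' + (m - m') = m by ring]; exact hm)
          (by rw [show m' + (m - m') = m by ring]; exact h)
        refine ⟨(m - m').toNat, by omega, h2.1, fun k => ?_⟩
        rw [Int.toNat_of_nonneg (by omega)]
        exact h2.2 k
    have h0 := Nat.find_spec hex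
    refine ⟨Nat.find hex, h0.1, h0.2.1, h0.2.2, fun m m' h => ?_⟩
    set p := Nat.find hex with hp
    have hp0 : (0 : ℤ) < p := by exact_mod_cast h0.1
    set r := (m' - m) % p with hr
    have hr0 : 0 ≤ r := Int.emod_nonneg _ (by omega)
    have hr1 : r < p := Int.emod_lt_of_pos _ hp0
    have h1 : (p : ℤ) ∣ m' - (m + r) := by
      have := Int.emod_add_mul_ediv (m' - m) p
      exact ⟨(m' - m) / p, by rw [← hr] at this; omega⟩
    have h2 : Z (m + r) = Z m := by rw [per_dvd h0.2.2 h1, h]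
    rcases hr0.eq_or_lt with h3 | h3
    · exact Int.dvd_of_emod_eq_zero (hr ▸ h3.symm)
    · exfalso
      have h4 := O.per_of_eq h3 (h0.2.1 m) (h0.2.1 _) h2
      refine Nat.find_min hex (m := r.toNat) (by omega) ⟨by omega, h4.1, fun k => ?_⟩
      rw [Int.toNat_of_nonneg hr0]
      exact h4.2 k

end

end Pool.Agent.Run7.h353.PI
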