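import Pool.Agent.Run7.h353.PI.A4

set_option autoImplicit false

/-!
The set, and its description by the orbit.
-/

namespace Pool.Agent.Run7.h353.PI

open Encodable Pool.Agent.Helper227 Pool.Agent.H548R2.Post
open Nat.Partrec (Code)

section
variable (P Q : List Bool → List Bool)

/-- `x` is put in for the list in which `σ` has the position `q` -/
def RS (c : Code) (σ : List Bool) (q x : ℕ) : Prop :=
  ∃ t < σ.length + 1, Vf P Q σ q (NN x.unpair.1) t ∧ fs P Q c (SS P Q σ q) x.unpair.1 t ∧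
    dc P Q c (SS P Q σ q) t x

/-- member `j` of the list in which `σ` has the position `q` is seen to be a marker -/
def crt (σ : List Bool) (q j n x : ℕ) : Prop :=
  ∃ i < σ.length + 1, ∃ q' < σ.length + 1, ∃ N < σ.length + 1, ∃ t < σ.length + 1,
    i + q = q' + j ∧ x ≤ t ∧ Vf P Q σ q' N t ∧ LM (SS P Q σ q') i N n t

/-- the approximation to the set, for one position -/
def Aq (c : Code) (σ : List Bool) (q x : ℕ) : Prop :=
  RS P Q c σ q x ∧ (ub x.unpair.1 < 2 →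
    (ua x.unpair.1 = 0 → crt P Q σ q 0 (un x.unpair.1) x) ∧
    (ub x.unpair.1 = 0 → crt P Q σ q (ul x.unpair.1 - 1) (un x.unpair.1) x))

/-- the approximation to the set -/
def AS (c : Code) (σ : List Bool) (x : ℕ) : Prop := ∃ q < ul x.unpair.1, Aq P Q c σ q x

/-- the set -/
def AX (c : Code) (X : ℕ → Bool) (x : ℕ) : Prop := ∃ s, AS P Q c (pre X s) x

/-- `x` is put in for the list starting at `m` -/
def RR (c : Code) (Z : ℤ → ℕ → Bool) (m : ℤ) (x : ℕ) : Prop :=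
  ∃ t, fs P Q c (SR Z m) x.unpair.1 t ∧ dc P Q c (SR Z m) t x

end

/-- the ends of the list are markers, where required -/
def MK (Z : ℤ → ℕ → Bool) (I : Set ℤ) (m : ℤ) (x : ℕ) : Prop :=
  ub x.unpair.1 < 2 → (ua x.unpair.1 = 0 → Bn Z I (un x.unpair.1) m) ∧
    (ub x.unpair.1 = 0 → Bn Z I (un x.unpair.1) (m + ul x.unpair.1 - 1))

/-- the list is part of the orbit -/
def IN (I : Set ℤ) (m : ℤ) (x : ℕ) : Prop := m ∈ I ∧ m + NN x.unpair.1 - 1 ∈ I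

section
variable {P Q : List Bool → List Bool} {I : Set ℤ} {Z : ℤ → ℕ → Bool} {c : Code}

theorem Orb.agr (S : Sys P Q) (O : Orb P Q I Z) {k : ℤ} (hk : k ∈ I) {q N s t : ℕ}
    (h1 : k - q ∈ I) (h2 : k - q + N - 1 ∈ I) (h : Vf P Q (pre (Z k) s) q N t) :
    Agr N t (SS P Q (pre (Z k) s) q) (SR Z (k - q)) := fun _ hi _ ht' =>
  O.Vf_val S hk h1 h2 h hi ht'

theorem RS_imp (S : Sys P Q) (O : Orb P Q I Z) {L : ℕ} (hL : ∀ k ∈ I, ∀ t > L, ∀ s q N,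
    Vf P Q (pre (Z k) s) q N t → k - q ∈ I ∧ k - q + N - 1 ∈ I) {k : ℤ} (hk : k ∈ I) {s q x : ℕ}
    (hx : L < x) (h : RS P Q c (pre (Z k) s) q x) : IN I (k - q) x ∧ RR P Q c Z (k - q) x := by
  obtain ⟨t, _, h1, h2, h3⟩ := h
  have hxt : x ≤ t := h3.2.1
  obtain ⟨h4, h5⟩ := hL k hk t (by omega) s q _ h1
  have h6 := O.agr S hk h4 h5 h1
  exact ⟨⟨h4, h5⟩, t, h2.congr h6 le_rfl, h3.congr h6 le_rfl⟩

theorem RS_of (S : Sys P Q) (O : Orb P Q I Z) {k : ℤ} (hk : k ∈ I) {q x : ℕ}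
    (hq : q < ul x.unpair.1) (h1 : IN I (k - q) x) (h2 : RR P Q c Z (k - q) x) :
    ∃ s0, ∀ s ≥ s0, RS P Q c (pre (Z k) s) q x := by
  obtain ⟨t, h3, h4⟩ := h2
  obtain ⟨s0, h0⟩ := O.Vf_complete S hk (lt_of_lt_of_le hq (ul_le_NN _)) h1.1 h1.2 t
  refine ⟨s0, fun s hs => ?_⟩
  have h5 := h0 s hs
  have h6 := (O.agr S hk h1.1 h1.2 h5).symm
  exact ⟨t, Nat.lt_succ_of_le h5.1, h5, h3.congr h6 le_rfl, h4.congr h6 le_rfl⟩

theorem crt_imp (S : Sys P Q) (O : Orb P Q I Z) {L : ℕ} (hL : ∀ k ∈ I, ∀ t > L, ∀ s q N,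
    Vf P Q (pre (Z k) s) q N t → k - q ∈ I ∧ k - q + N - 1 ∈ I) {k : ℤ} (hk : k ∈ I)
    {s q j n x : ℕ} (hx : L < x) (h : crt P Q (pre (Z k) s) q j n x) : Bn Z I n (k - q + j) := by
  obtain ⟨i, _, q', _, N, _, t, _, h1, h2, h3, h4⟩ := h
  obtain ⟨h5, h6⟩ := hL k hk t (by omega) s q' _ h3
  have h7 := O.agr S hk h5 h6 h3
  have h8 := Bn_of_BI O h5 h6 (BI_of_LM (h4.congr h7 le_rfl le_rfl))
  rwa [show k - (q' : ℤ) + i = k - q + j by omega] at h8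

theorem crt_of (S : Sys P Q) (O : Orb P Q I Z) {k : ℤ} (hk : k ∈ I) {q j n : ℕ} (x : ℕ)
    (h : Bn Z I n (k - q + j)) : ∃ s0, ∀ s ≥ s0, crt P Q (pre (Z k) s) q j n x := by
  obtain ⟨K, K', h1, h2, h3, h4, h5⟩ := BI_of_Bn hk h
  have h5' : BI Z n K (K + ((K' - K + 1).toNat : ℕ) - 1) (k - q + j) := by
    rw [show K + (((K' - K + 1).toNat : ℕ) : ℤ) - 1 = K' by omega]
    exact h5
  obtain ⟨i, h6, h7, t0, h8⟩ := h5'.toLM
  set N := (K' - K + 1).toNat with hN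
  set q' := (k - K).toNat with hq'
  have e1 : k - (q' : ℤ) = K := by omega
  obtain ⟨s0, h9⟩ := O.Vf_complete S hk (q := q') (N := N) (by omega) (by rw [e1]; exact h1)
    (by rw [e1, show K + (N : ℤ) - 1 = K' by omega]; exact h2) (max t0 x)
  refine ⟨max s0 (max (max t0 x) N), fun s hs => ?_⟩
  have h10 := h9 s (le_trans (le_max_left _ _) hs)
  have h11 : max (max t0 x) N ≤ s := le_trans (le_max_right _ _) hs
  have h12 : N ≤ s := le_trans (le_max_right _ _) h11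
  have h13 : max t0 x ≤ s := le_trans (le_max_left _ _) h11
  have h14 : t0 ≤ max t0 x := le_max_left _ _
  have h15 : x ≤ max t0 x := le_max_right _ _
  rw [crt, length_pre]
  refine ⟨i, by omega, q', by omega, N, by omega, max t0 x, by omega, by omega, h15, h10, ?_⟩
  have h16 := O.agr S hk (by rw [e1]; exact h1)
    (by rw [e1, show K + (N : ℤ) - 1 = K' by omega]; exact h2) h10
  refine LM.congr h16.symm le_rfl le_rfl ?_
  rw [e1]
  exact h8 _ h14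

theorem Aq_iff (S : Sys P Q) (O : Orb P Q I Z) {L : ℕ} (hL : ∀ k ∈ I, ∀ t > L, ∀ s q N,
    Vf P Q (pre (Z k) s) q N t → k - q ∈ I ∧ k - q + N - 1 ∈ I) {k : ℤ} (hk : k ∈ I) {q x : ℕ}
    (hq : q < ul x.unpair.1) (hx : L < x) :
    (∃ s, Aq P Q c (pre (Z k) s) q x) → IN I (k - q) x ∧ RR P Q c Z (k - q) x ∧ MK Z I (k - q) x := by
  rintro ⟨s, h1, h2⟩
  have h3 := RS_imp S O hL hk hx h1
  refine ⟨h3.1, h3.2, fun hb => ⟨fun ha => ?_, fun hb0 => ?_⟩⟩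
  · have := crt_imp S O hL hk hx ((h2 hb).1 ha)
    simpa using this
  · have := crt_imp S O hL hk hx ((h2 hb).2 hb0)
    rwa [show k - (q : ℤ) + ((ul x.unpair.1 - 1 : ℕ) : ℤ) = k - q + ul x.unpair.1 - 1 by omega] at this

theorem Aq_of (S : Sys P Q) (O : Orb P Q I Z) {k : ℤ} (hk : k ∈ I) {q x : ℕ}
    (hq : q < ul x.unpair.1) (h1 : IN I (k - q) x) (h2 : RR P Q c Z (k - q) x)
    (h3 : MK Z I (k - q) x) : ∃ s, Aq P Q c (pre (Z k) s) q x := by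
  obtain ⟨s0, h4⟩ := RS_of S O hk hq h1 h2
  have h5 : ∃ s1, ∀ s ≥ s1, ub x.unpair.1 < 2 → ua x.unpair.1 = 0 →
      crt P Q (pre (Z k) s) q 0 (un x.unpair.1) x := by
    by_cases h : ub x.unpair.1 < 2 ∧ ua x.unpair.1 = 0
    · obtain ⟨s1, h6⟩ := crt_of S O hk (q := q) (j := 0) x (by simpa using (h3 h.1).1 h.2)
      exact ⟨s1, fun s hs _ _ => h6 s hs⟩
    · exact ⟨0, fun s _ ha hb => absurd ⟨ha, hb⟩ h⟩
  have h6 : ∃ s1, ∀ s ≥ s1, ub x.unpair.1 < 2 → ub x.unpair.1 = 0 →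
      crt P Q (pre (Z k) s) q (ul x.unpair.1 - 1) (un x.unpair.1) x := by
    by_cases h : ub x.unpair.1 < 2 ∧ ub x.unpair.1 = 0
    · obtain ⟨s1, h6⟩ := crt_of S O hk (q := q) (j := ul x.unpair.1 - 1) x (by
        rw [show k - (q : ℤ) + ((ul x.unpair.1 - 1 : ℕ) : ℤ) = k - q + ul x.unpair.1 - 1 by omega]
        exact (h3 h.1).2 h.2)
      exact ⟨s1, fun s hs _ _ => h6 s hs⟩
    · exact ⟨0, fun s _ ha hb => absurd ⟨ha, hb⟩ h⟩
  obtain ⟨s1, h5⟩ := h5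
  obtain ⟨s2, h6⟩ := h6
  refine ⟨max s0 (max s1 s2), h4 _ (le_max_left _ _), fun hb => ⟨fun ha => ?_, fun hb0 => ?_⟩⟩
  · exact h5 _ (le_trans (le_max_left _ _) (le_max_right _ _)) hb ha
  · exact h6 _ (le_trans (le_max_right _ _) (le_max_right _ _)) hb hb0

/-- The set contains `x` if and only if `x` is put in for some list. -/
theorem AX_iff (S : Sys P Q) (O : Orb P Q I Z) {L : ℕ} (hL : ∀ k ∈ I, ∀ t > L, ∀ s q N,
    Vf P Q (pre (Z k) s) q N t → k - q ∈ I ∧ k - q + N - 1 ∈ I) {k : ℤ} (hk : k ∈ I) {x : ℕ}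
    (hx : L < x) : AX P Q c (Z k) x ↔
      ∃ q < ul x.unpair.1, IN I (k - q) x ∧ RR P Q c Z (k - q) x ∧ MK Z I (k - q) x := by
  constructor
  · rintro ⟨s, q, hq, h⟩
    exact ⟨q, hq, Aq_iff S O hL hk hq hx ⟨s, h⟩⟩
  · rintro ⟨q, hq, h1, h2, h3⟩
    obtain ⟨s, hs⟩ := Aq_of S O hk hq h1 h2 h3
    exact ⟨s, q, hq, hs⟩

theorem ag_pre_mono {P Q : List Bool → List Bool} (S : Sys P Q) {X : ℕ → Bool} {n t t' : ℕ}
    (ht : t ≤ t') (h : ag P Q n (pre X t)) : ag P Q n (pre X t') := by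
  obtain ⟨h1, h2⟩ := h
  have h3 := S.mQ _ _ (S.mP _ _ (pre_prefix X ht))
  refine ⟨h1.trans h3.length_le, ?_⟩
  have h4 : n ≤ t := by
    have := S.lQ (P (pre X t))
    have := S.lP (pre X t)
    rw [length_pre] at this
    omega
  rw [← take_of_prefix' h3 h1, h2, take_pre _ _ _ h4, take_pre _ _ _ (h4.trans ht)]

theorem LM_mono {m : ℤ} {i N n t t' : ℕ} (ht : t ≤ t') (h : LM (SR Z m) i N n t) :
    LM (SR Z m) i N n t' := by
  obtain ⟨a, b, d, e, k, hk, f⟩ := h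
  exact ⟨a, b, d.trans ht, e, k, hk, num_lt_mono f ht⟩

theorem Rf_mono (S : Sys P Q) {m : ℤ} {x t t' : ℕ} (ht : t ≤ t') (h : Rf P Q (SR Z m) t x) :
    Rf P Q (SR Z m) t' x := by
  rcases h with ⟨a, b⟩ | ⟨i, hi, a, b, d⟩ | ⟨a, i, hi, b⟩ | ⟨a, b, d⟩ | ⟨a, b⟩ | ⟨a, b⟩
  · exact Or.inl ⟨a.trans ht, b⟩
  · exact Or.inr (Or.inl ⟨i, hi, a, b.trans ht, d⟩)
  · exact Or.inr (Or.inr (Or.inl ⟨a, i, hi, LM_mono ht b⟩))
  · exact Or.inr (Or.inr (Or.inr (Or.inl ⟨a, b, ag_pre_mono S.symm ht d⟩)))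
  · exact Or.inr (Or.inr (Or.inr (Or.inr (Or.inl ⟨a, ag_pre_mono S ht b⟩))))
  · refine Or.inr (Or.inr (Or.inr (Or.inr (Or.inr ⟨a, fun h => b ?_⟩))))
    have h1 := congrArg (List.take t) h
    unfold SR at h1 ⊢
    rwa [take_pre _ _ _ ht, take_pre _ _ _ ht] at h1

/-- If `x` is put in at the stage `t`, then the function `fl` shows this. -/
theorem permit (S : Sys P Q) (O : Orb P Q I Z) (hc : ∀ (g : ℕ) (b : Bool) (σ : List Bool),
    (c.eval (encode ((g, b), σ))).Dom ↔ Sim P Q c σ g b) {k : ℤ} (hk : k ∈ I) {q u t : ℕ}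
    (hq : q < ul u) (h1 : k - q ∈ I) (h2 : k - q + NN u - 1 ∈ I) (h : fs P Q c (SR Z (k - q)) u t) :
    fl c (Z k) (Nat.pair u q) ≠ F c (pre (Z k) t) (Nat.pair u q) := by
  obtain ⟨s0, h0⟩ := O.Vf_complete S hk (lt_of_lt_of_le hq (ul_le_NN _)) h1 h2 t
  have h3 := h0 (max s0 t) (le_max_left _ _)
  have h4 := h.congr (O.agr S hk h1 h2 h3).symm le_rfl
  have h5 : Sim P Q c (pre (Z k) (max s0 t)) (Nat.pair u q) (F c (pre (Z k) t) (Nat.pair u q)) := by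
    unfold Sim
    rw [Nat.unpair_pair]
    refine ⟨hq, t, ?_, h3, h4, ?_⟩
    · rw [length_pre]
      exact Nat.lt_succ_of_le (le_max_right _ _)
    · rw [take_pre _ _ _ (le_max_right _ _)]
  obtain ⟨s, hs⟩ := hav_of_Sim hc h5
  exact fl_avoid (hsv_of_fix S hc (Z k)) hs

theorem permit' (S : Sys P Q) (O : Orb P Q I Z) (hc : ∀ (g : ℕ) (b : Bool) (σ : List Bool),
    (c.eval (encode ((g, b), σ))).Dom ↔ Sim P Q c σ g b) {k : ℤ} (hk : k ∈ I) {q x t t' : ℕ}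
    (hq : q < ul x.unpair.1) (h1 : IN I (k - q) x)
    (h : fs P Q c (SR Z (k - q)) x.unpair.1 t) (h' : dc P Q c (SR Z (k - q)) t x)
    (hx : x ≤ t') (ht : t' ≤ t) :
    fl c (Z k) (Nat.pair x.unpair.1 q) ≠ F c (pre (Z k) t') (Nat.pair x.unpair.1 q) := by
  have h3 := permit S O hc hk hq h1.1 h1.2 h
  have h4 := h'.2.2.2.2.2.2.2.2.1 q hq t' (by omega) hx
  unfold SR at h4
  rw [show k - (q : ℤ) + q = k by ring] at h4
  rw [h4]
  exact h3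

end

end Pool.Agent.Run7.h353.PI
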