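import Pool.Agent.Run7.h353.PI.A5

set_option autoImplicit false

/-!
The set is not computable from the oracle.
-/

namespace Pool.Agent.Run7.h353.PI

open Encodable Pool.Agent.Helper227 Pool.Agent.H548R2.Post
open Nat.Partrec (Code)

theorem exists_sep (Y : ℕ → ℕ → Bool) (W : ℕ → Bool) (n : ℕ) :
    ∃ H, ∀ h ≥ H, ∀ i < n, Y i ≠ W → pre (Y i) h ≠ pre W h := by
  induction n with
  | zero => exact ⟨0, fun _ _ i hi => absurd hi (Nat.not_lt_zero _)⟩
  | succ n ih =>
    obtain ⟨H, hH⟩ := ih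
    have h1 : ∃ H', ∀ h ≥ H', Y n ≠ W → pre (Y n) h ≠ pre W h := by
      by_cases h2 : Y n = W
      · exact ⟨0, fun _ _ h => absurd h2 h⟩
      · by_contra h3
        push Not at h3
        exact h2 (eq_of_pre fun t => by
          obtain ⟨s, hs, _, h4⟩ := h3 t
          exact ⟨s, hs, h4⟩)
    obtain ⟨H', hH'⟩ := h1
    refine ⟨max H H', fun h hh i hi hne => ?_⟩
    rcases Nat.lt_succ_iff_lt_or_eq.1 hi with h2 | rfl
    · exact hH h (le_trans (le_max_left _ _) hh) i h2 hne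
    · exact hH' h (le_trans (le_max_right _ _) hh) hne

theorem exists_F_lim (c : Code) (Y : ℕ → ℕ → Bool) (u n : ℕ) :
    ∃ T, ∀ i < n, ∀ t ≥ T, F c (pre (Y i) t) (Nat.pair u i) = fl c (Y i) (Nat.pair u i) := by
  induction n with
  | zero => exact ⟨0, fun i hi => absurd hi (Nat.not_lt_zero _)⟩
  | succ n ih =>
    obtain ⟨T, hT⟩ := ih
    obtain ⟨T', hT'⟩ := F_lim c (Y n) (Nat.pair u n)
    refine ⟨max T T', fun i hi t ht => ?_⟩
    rcases Nat.lt_succ_iff_lt_or_eq.1 hi with h2 | rfl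
    · exact hT i h2 t (le_trans (le_max_left _ _) ht)
    · exact hT' t (le_trans (le_max_right _ _) ht)

section
variable {P Q : List Bool → List Bool} {I : Set ℤ} {Z : ℤ → ℕ → Bool} {c : Code}

/-- what is required of the list -/
structure Gd (P Q : List Bool → List Bool) (I : Set ℤ) (Z : ℤ → ℕ → Bool) (k : ℤ) (u : ℕ) :
    Prop where
  q : uk u < ul u
  e : ue u ≤ un u
  a : ua u ≤ 1
  b : ub u ≤ 2
  inl : k - uk u ∈ I
  inr : k - uk u + NN u - 1 ∈ I
  mkr : ub u < 2 → (ua u = 0 → Bn Z I (un u) (k - uk u)) ∧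
    (ub u = 0 → Bn Z I (un u) (k - uk u + ul u - 1))
  r1 : ∀ t, ¬ (ub u < 2 ∧ ∃ i < ul u, LM (SR Z (k - uk u)) i (ul u) (un u) t)
  r2 : ∀ t, ¬ (ub u < 2 ∧ ua u = 1 ∧ ag Q P (un u + 1) (SR Z (k - uk u) 0 t))
  r3 : ∀ t, ¬ (ub u = 1 ∧ ag P Q (un u + 1) (SR Z (k - uk u) (ul u - 1) t))
  r4 : ∀ t, ¬ (ub u = 2 ∧ SR Z (k - uk u) (ul u) t ≠ SR Z (k - uk u) 0 t)
  d1 : ∀ i < ul u, 1 ≤ i → Z (k - uk u + i) ≠ Z (k - uk u)
  d2 : ∀ q' < ul u, q' ≠ uk u → k - q' ∈ I → Z (k - q') ≠ Z (k - uk u)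

theorem pos (S : Sys P Q) (O : Orb P Q I Z) {k : ℤ} (hk : k ∈ I) {u : ℕ}
    (G : Gd P Q I Z k u) : ¬ ∀ x, x ∈ WE (Z k) (ue u) ↔ ¬ AX P Q c (Z k) x := by
  intro hW
  obtain ⟨L, hL⟩ := O.Vf_sound S
  have ek : k - (uk u : ℤ) + uk u = k := by ring
  -- no decision is made
  have step1 : ∀ t, ¬ fs P Q c (SR Z (k - uk u)) u t := by
    intro t h
    obtain ⟨x, hx, rfl, h1⟩ := h.1
    have h2 : AX P Q c (Z k) x := by
      obtain ⟨s, hs⟩ := Aq_of (c := c) S O hk G.q ⟨G.inl, G.inr⟩ ⟨t, h, h1⟩ G.mkr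
      exact ⟨s, _, G.q, hs⟩
    obtain ⟨t', ht', h3⟩ := h1.2.2.2.2.2.2.2.1
    unfold SR at h3
    rw [ek] at h3
    exact (hW x).1 ((mem_WE_iff _ _ _).2 ⟨t, t', by omega, h3⟩) h2
  obtain ⟨H1, hH1⟩ := exists_sep (fun i => Z (k - uk u + i)) (Z (k - uk u)) (ul u)
  obtain ⟨H2, hH2⟩ := exists_sep (fun q' => Z (k - q')) (Z (k - uk u)) (ul u)
  obtain ⟨T, hT⟩ := exists_F_lim c (fun i => Z (k - uk u + i)) u (ul u)
  obtain ⟨h, hh⟩ : ∃ h, h = max (max H1 H2) (max T (L + 1)) := ⟨_, rfl⟩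
  have b1 : H1 ≤ h := by omega
  have b2 : H2 ≤ h := by omega
  have b3 : T ≤ h := by omega
  have b4 : L + 1 ≤ h := by omega
  obtain ⟨x, hx⟩ : ∃ x, x = Nat.pair u (encode (pre (Z (k - uk u)) h)) := ⟨_, rfl⟩
  have xu : x.unpair.1 = u := by rw [hx, Nat.unpair_pair]
  have xl : lm x = pre (Z (k - uk u)) h := by
    rw [lm, hx, Nat.unpair_pair, str_encode]
  have hhx : h ≤ x := by
    have h1 := Encodable.length_le_encode (pre (Z (k - uk u)) h)
    rw [length_pre] at h1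
    exact h1.trans (hx ▸ Nat.right_le_pair _ _)
  have hnot : ¬ AX P Q c (Z k) x := by
    intro hA
    rw [AX_iff S O hL hk (by omega)] at hA
    obtain ⟨q', hq', h1, ⟨t, h2, h3⟩, _⟩ := hA
    rw [xu] at hq' h2
    by_cases hqq : q' = uk u
    · subst hqq
      exact step1 t h2
    · have h4 := G.d2 q' hq' hqq h1.1
      have h5 := h3.2.2.2.2.2.2.2.2.2
      have h6 : (lm x).length ≤ t := h3.2.2.1
      apply h5
      left
      refine ⟨h6, ?_⟩
      rw [xl, length_pre]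
      unfold SR
      have := hH2 h b2 q' hq' h4
      simpa using this
  have hWx := (hW x).2 hnot
  obtain ⟨s0, t0, ht0, h0⟩ := (mem_WE_iff _ _ _).1 hWx
  obtain ⟨t, ht⟩ : ∃ t, t = max (max (un u) x) s0 := ⟨_, rfl⟩
  have d : dc P Q c (SR Z (k - uk u)) t x := by
    unfold dc
    rw [xu]
    refine ⟨by omega, by omega, ?_, G.e, G.q, G.a, G.b, ⟨t0, by omega, ?_⟩, ?_, ?_⟩
    · rw [xl, length_pre]
      omega
    · unfold SR
      rw [ek]
      exact hlt_mono (by omega) h0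
    · intro i hi t' ht' hxt'
      unfold SR
      rw [hT i hi t' (by omega), hT i hi t (by omega)]
    · intro hR
      unfold Rf at hR
      rw [xu] at hR
      rcases hR with ⟨a, b⟩ | ⟨i, hi, a, b, d⟩ | h1 | h1 | h1 | h1
      · apply b
        rw [xl, length_pre]
        unfold SR
        simp
      · rw [xl, length_pre] at d
        exact hH1 h b1 i hi (G.d1 i hi a) d
      · exact G.r1 t h1
      · exact G.r2 t h1
      · exact G.r3 t h1
      · exact G.r4 t h1
  have hd : ∃ t, dA P Q c (SR Z (k - uk u)) u t := ⟨t, x, by omega, xu, d⟩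
  classical
  exact step1 (Nat.find hd) ⟨Nat.find_spec hd, fun t' ht' => Nat.find_min hd ht'⟩

theorem exists_Gd (S : Sys P Q) (O : Orb P Q I Z) {k : ℤ} (hk : k ∈ I) (e : ℕ) :
    ∃ u, ue u = e ∧ Gd P Q I Z k u := by
  classical
  rcases O.cases with hap | ⟨p, hp, hI, hper, hdvd⟩
  · obtain ⟨L1, hL1⟩ := O.sndE S
    obtain ⟨L2, hL2⟩ := O.sndF S
    obtain ⟨n, hn⟩ : ∃ n, n = max e (max L1 L2) := ⟨_, rfl⟩
    have hr : ∃ j : ℕ, k + j + 1 ∉ I ∨ Bn Z I n (k + j) := by
      by_contra h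
      push Not at h
      have hI : ∀ i, k ≤ i → i ∈ I := by
        intro i hi
        rcases hi.eq_or_lt with rfl | h1
        · exact hk
        · have := (h (i - k - 1).toNat).1
          rwa [show k + (((i - k - 1).toNat : ℕ) : ℤ) + 1 = i by omega] at this
      obtain ⟨K', k', hB⟩ := exists_BI_right (Z := Z) (K := k)
        (fun i j hi hj => hap i j (hI i hi) (hI j hj)) n
      have h1 := hB.1
      have h2 := hB.2.1
      have h3 := Bn_of_BI O (hI k le_rfl) (hI K' (by omega)) hB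
      have h4 := (h (k' - k).toNat).2
      rw [show k + (((k' - k).toNat : ℕ) : ℤ) = k' by omega] at h4
      exact h4 h3
    have hl : ∃ j : ℕ, k - j - 1 ∉ I ∨ Bn Z I n (k - j) := by
      by_contra h
      push Not at h
      have hI : ∀ i, i ≤ k → i ∈ I := by
        intro i hi
        rcases hi.eq_or_lt with rfl | h1
        · exact hk
        · have := (h (k - i - 1).toNat).1
          rwa [show k - (((k - i - 1).toNat : ℕ) : ℤ) - 1 = i by omega] at this
      obtain ⟨K', k', hB⟩ := exists_BI_left (Z := Z) (K := k)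
        (fun i j hi hj => hap i j (hI i hi) (hI j hj)) n
      have h1 := hB.1
      have h2 := hB.2.1
      have h3 := Bn_of_BI O (hI K' (by omega)) (hI k le_rfl) hB
      have h4 := (h (k - k').toNat).2
      rw [show k - (((k - k').toNat : ℕ) : ℤ) = k' by omega] at h4
      exact h4 h3
    obtain ⟨jr, hjr⟩ : ∃ jr, jr = Nat.find hr := ⟨_, rfl⟩
    obtain ⟨jl, hjl⟩ : ∃ jl, jl = Nat.find hl := ⟨_, rfl⟩
    have hr1 := Nat.find_spec hr
    have hl1 := Nat.find_spec hl
    rw [← hjr] at hr1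
    rw [← hjl] at hl1
    have hr2 : ∀ j < jr, k + j + 1 ∈ I ∧ ¬ Bn Z I n (k + j) := fun j hj => by
      have := Nat.find_min hr (hjr ▸ hj)
      push Not at this
      exact this
    have hl2 : ∀ j < jl, k - j - 1 ∈ I ∧ ¬ Bn Z I n (k - j) := fun j hj => by
      have := Nat.find_min hl (hjl ▸ hj)
      push Not at this
      exact this
    have hrI : k + jr ∈ I := by
      rcases Nat.eq_zero_or_pos jr with h0 | h0
      · rw [h0]
        simpa using hk
      · have := (hr2 (jr - 1) (by omega)).1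
        rwa [show k + ((jr - 1 : ℕ) : ℤ) + 1 = k + jr by omega] at this
    have hlI : k - jl ∈ I := by
      rcases Nat.eq_zero_or_pos jl with h0 | h0
      · rw [h0]
        simpa using hk
      · have := (hl2 (jl - 1) (by omega)).1
        rwa [show k - ((jl - 1 : ℕ) : ℤ) - 1 = k - jl by omega] at this
    obtain ⟨a, ha⟩ : ∃ a, a = if Bn Z I n (k - jl) then 0 else 1 := ⟨_, rfl⟩
    obtain ⟨b, hb⟩ : ∃ b, b = if Bn Z I n (k + jr) then 0 else 1 := ⟨_, rfl⟩
    have ha1 : a ≤ 1 := by rw [ha]; split_ifs <;> omega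
    have hb1 : b ≤ 1 := by rw [hb]; split_ifs <;> omega
    refine ⟨mk n e jl (jl + jr + 1) a b, by simp, ?_⟩
    have hNN : NN (mk n e jl (jl + jr + 1) a b) = jl + jr + 1 := by
      unfold NN
      rw [ub_mk, ul_mk, if_neg (by omega)]
    refine ⟨?_, ?_, ?_, ?_, ?_, ?_, ?_, ?_, ?_, ?_, ?_, ?_, ?_⟩
    · rw [uk_mk, ul_mk]
      omega
    · rw [ue_mk, un_mk]
      omega
    · rw [ua_mk]
      exact ha1
    · rw [ub_mk]
      omega
    · rw [uk_mk]
      exact hlI
    · rw [uk_mk, hNN]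
      rw [show k - (jl : ℤ) + ((jl + jr + 1 : ℕ) : ℤ) - 1 = k + jr by push_cast; ring]
      exact hrI
    · rw [ub_mk, ua_mk, uk_mk, ul_mk, un_mk]
      refine fun _ => ⟨fun h => ?_, fun h => ?_⟩
      · by_contra h1
        rw [ha, if_neg h1] at h
        exact absurd h one_ne_zero
      · rw [show k - (jl : ℤ) + ((jl + jr + 1 : ℕ) : ℤ) - 1 = k + jr by push_cast; ring]
        by_contra h1
        rw [hb, if_neg h1] at h
        exact absurd h one_ne_zero
    · rw [ub_mk, uk_mk, ul_mk, un_mk]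
      rintro t ⟨_, i, hi, h⟩
      have h1 := BI_of_LM h
      rw [show k - (jl : ℤ) + ((jl + jr + 1 : ℕ) : ℤ) - 1 = k + jr by push_cast; ring] at h1
      have h2 := Bn_of_BI O hlI hrI h1
      have h3 := h1.1
      have h4 := h1.2.1
      rcases le_total k (k - jl + i) with h5 | h5
      · refine (hr2 (k - jl + i - k).toNat (by omega)).2 ?_
        rw [show k + (((k - (jl : ℤ) + i - k).toNat : ℕ) : ℤ) = k - jl + i by omega]
        exact h2
      · refine (hl2 (k - (k - jl + i)).toNat (by omega)).2 ?_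
        rw [show k - (((k - (k - (jl : ℤ) + i)).toNat : ℕ) : ℤ) = k - jl + i by omega]
        exact h2
    · rw [ub_mk, uk_mk, ua_mk, un_mk]
      rintro t ⟨_, h1, h2⟩
      have h3 : ¬ Bn Z I n (k - jl) := fun h3 => by
        rw [ha, if_pos h3] at h1
        exact absurd h1 zero_ne_one
      have h4 : k - (jl : ℤ) - 1 ∉ I := hl1.resolve_right h3
      unfold SR at h2
      rw [Nat.cast_zero, add_zero] at h2
      exact hL2 _ hlI h4 (n + 1) (by omega) _ h2
    · rw [ub_mk, uk_mk, ul_mk, un_mk]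
      rintro t ⟨h1, h2⟩
      have h3 : ¬ Bn Z I n (k + jr) := fun h3 => by
        rw [hb, if_pos h3] at h1
        exact absurd h1 zero_ne_one
      have h4 : k + (jr : ℤ) + 1 ∉ I := hr1.resolve_right h3
      unfold SR at h2
      rw [show k - (jl : ℤ) + ((jl + jr + 1 - 1 : ℕ) : ℤ) = k + jr by omega] at h2
      exact hL1 _ hrI h4 (n + 1) (by omega) _ h2
    · rw [ub_mk]
      rintro t ⟨h1, _⟩
      omega
    · rw [ul_mk, uk_mk]
      intro i hi h1 h2
      have := hap _ _ (O.conv _ _ _ hlI hrI (by omega) (by omega)) hlI h2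
      omega
    · rw [ul_mk, uk_mk]
      intro q' hq' hne hI h2
      have := hap _ _ hI hlI h2
      omega
  · refine ⟨mk e e 0 p 0 2, by simp, ?_⟩
    have hnd : ∀ i : ℕ, 1 ≤ i → i < p → ¬ (p : ℤ) ∣ (i : ℤ) := fun i h1 h2 h3 => by
      have := Nat.le_of_dvd h1 (Int.natCast_dvd_natCast.1 h3)
      omega
    refine ⟨?_, ?_, ?_, ?_, ?_, ?_, ?_, ?_, ?_, ?_, ?_, ?_, ?_⟩
    · rw [uk_mk, ul_mk]
      exact hp
    · rw [ue_mk, un_mk]
    · rw [ua_mk]
      omega
    · rw [ub_mk]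
    · exact hI _
    · exact hI _
    · rw [ub_mk]
      intro h
      omega
    · rw [ub_mk]
      rintro t ⟨h, _⟩
      omega
    · rw [ub_mk]
      rintro t ⟨h, _⟩
      omega
    · rw [ub_mk]
      rintro t ⟨h, _⟩
      omega
    · rw [ul_mk]
      rintro t ⟨_, h⟩
      apply h
      unfold SR
      rw [hper]
      simp
    · rw [ul_mk, uk_mk]
      intro i hi h1 h2
      have h3 := hdvd _ _ h2
      rw [show k - ((0 : ℕ) : ℤ) - (k - ((0 : ℕ) : ℤ) + i) = -(i : ℤ) by ring] at h3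
      exact hnd i h1 hi ((Int.dvd_neg).1 h3)
    · rw [ul_mk, uk_mk]
      intro q' hq' hne _ h2
      have h3 := hdvd _ _ h2
      rw [show k - ((0 : ℕ) : ℤ) - (k - (q' : ℤ)) = (q' : ℤ) by push_cast; ring] at h3
      exact hnd q' (by omega) hq' h3

end

end Pool.Agent.Run7.h353.PI
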