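import Pool.Agent.Run7.h353.PI.A6

set_option autoImplicit false

/-!
Refutation of lists, and the effectivity of the parts of the description.
-/

namespace Pool.Agent.Run7.h353.PI

open Encodable Pool.Agent.Helper227 Pool.Agent.H548R2.Post
open Nat.Partrec (Code)

section
variable {P Q : List Bool → List Bool} {I : Set ℤ} {Z : ℤ → ℕ → Bool} {c : Code}

theorem Rf_of_BI {m k : ℤ} {x : ℕ} (hb : ub x.unpair.1 < 2)
    (h : BI Z (un x.unpair.1) m (m + ul x.unpair.1 - 1) k) : ∃ t, Rf P Q (SR Z m) t x := by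
  obtain ⟨i, _, hi, t0, h0⟩ := h.toLM
  exact ⟨t0, Or.inr (Or.inr (Or.inl ⟨hb, i, hi, h0 t0 le_rfl⟩))⟩

theorem Rf_of_eq {m : ℤ} {x i : ℕ} (hi : i < ul x.unpair.1) (h1 : 1 ≤ i) (h : Z (m + i) = Z m) :
    ∃ t, Rf P Q (SR Z m) t x := by
  refine ⟨(lm x).length, ?_⟩
  by_cases h2 : SR Z m 0 (lm x).length = lm x
  · refine Or.inr (Or.inl ⟨i, hi, h1, le_rfl, ?_⟩)
    rw [← h2]
    unfold SR
    rw [h]
    simp
  · exact Or.inl ⟨le_rfl, h2⟩

/-- Long lists starting at `k` are refuted. -/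
theorem long_right (O : Orb P Q I Z) {k : ℤ} (hk : k ∈ I) (n : ℕ) : ∃ l0, ∀ x : ℕ,
    l0 ≤ ul x.unpair.1 → un x.unpair.1 = n → ub x.unpair.1 < 2 → k + ul x.unpair.1 - 1 ∈ I →
    ∃ t, Rf P Q (SR Z k) t x := by
  rcases O.cases with hap | ⟨p, hp, hI, hper, _⟩
  · by_cases h : ∃ r, k ≤ r ∧ r ∉ I
    · obtain ⟨r, hr, hrI⟩ := h
      refine ⟨(r - k + 1).toNat, fun x h1 _ _ h2 => ?_⟩
      exact absurd (O.conv _ _ _ hk h2 hr (by omega)) hrI
    · push Not at h
      obtain ⟨K', k', hB⟩ := exists_BI_right (Z := Z) (K := k)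
        (fun i j hi hj => hap i j (h i hi) (h j hj)) n
      refine ⟨(K' - k + 1).toNat, fun x h1 h2 h3 _ => ?_⟩
      refine Rf_of_BI (k := k') h3 ?_
      rw [h2]
      exact hB.mono le_rfl (by omega)
  · refine ⟨p + 1, fun x h1 _ _ _ => ?_⟩
    exact Rf_of_eq (i := p) (by omega) hp (hper k)

/-- Long lists ending at `k` are refuted. -/
theorem long_left (O : Orb P Q I Z) {k : ℤ} (hk : k ∈ I) (n : ℕ) : ∃ l0, ∀ x : ℕ,
    l0 ≤ ul x.unpair.1 → un x.unpair.1 = n → ub x.unpair.1 < 2 →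
    ∀ m : ℤ, m + ul x.unpair.1 - 1 = k → m ∈ I → ∃ t, Rf P Q (SR Z m) t x := by
  rcases O.cases with hap | ⟨p, hp, hI, hper, _⟩
  · by_cases h : ∃ r, r ≤ k ∧ r ∉ I
    · obtain ⟨r, hr, hrI⟩ := h
      refine ⟨(k - r + 1).toNat, fun x h1 _ _ m hm h2 => ?_⟩
      exact absurd (O.conv _ _ _ h2 hk (by omega) hr) hrI
    · push Not at h
      obtain ⟨K', k', hB⟩ := exists_BI_left (Z := Z) (K := k)
        (fun i j hi hj => hap i j (h i hi) (h j hj)) n
      refine ⟨(k - K' + 1).toNat, fun x h1 h2 h3 m hm _ => ?_⟩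
      refine Rf_of_BI (k := k') h3 ?_
      rw [h2]
      exact hB.mono (by omega) (by omega)
  · refine ⟨p + 1, fun x h1 _ _ m _ _ => ?_⟩
    exact Rf_of_eq (i := p) (by omega) hp (hper m)

theorem sep (P Q : List Bool → List Bool) (c : Code) {m m' : ℤ} {x : ℕ}
    (h : RR P Q c Z m x) (h' : RR P Q c Z m' x)
    (h1 : m < m') (h2 : m' < m + ul x.unpair.1) : False := by
  obtain ⟨t, _, h3⟩ := h
  obtain ⟨t', _, h3'⟩ := h'
  have h4 : (lm x).length ≤ t := h3.2.2.1
  have h4' : (lm x).length ≤ t' := h3'.2.2.1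
  have h5 := h3.2.2.2.2.2.2.2.2.2
  have h5' := h3'.2.2.2.2.2.2.2.2.2
  have h6 : SR Z m' 0 (lm x).length = lm x := by
    by_contra h6
    exact h5' (Or.inl ⟨h4', h6⟩)
  refine h5 (Or.inr (Or.inl ⟨(m' - m).toNat, by omega, by omega, h4, ?_⟩))
  unfold SR at h6 ⊢
  rw [show m + (((m' - m).toNat : ℕ) : ℤ) = m' + ((0 : ℕ) : ℤ) by omega]
  exact h6

theorem not_RR_of_Rf (S : Sys P Q) {m : ℤ} {x t : ℕ} (h : Rf P Q (SR Z m) t x)
    (h1 : ∀ t' ≤ t, ¬ (fs P Q c (SR Z m) x.unpair.1 t' ∧ dc P Q c (SR Z m) t' x)) :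
    ¬ RR P Q c Z m x := by
  rintro ⟨t', h2, h3⟩
  rcases le_total t' t with h4 | h4
  · exact h1 t' h4 ⟨h2, h3⟩
  · exact h3.2.2.2.2.2.2.2.2.2 (Rf_mono S h4 h)

/-- The lists of one kind put in only finitely many numbers. -/
theorem finite_RR (P Q : List Bool → List Bool) (c : Code) (Z : ℤ → ℕ → Bool) (mf : ℕ → ℤ)
    (B : ℕ) : ∃ M, ∀ x, x.unpair.1 < B → RR P Q c Z (mf x.unpair.1) x → x ≤ M := by
  induction B with
  | zero => exact ⟨0, fun x hx => absurd hx (Nat.not_lt_zero _)⟩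
  | succ B ih =>
    obtain ⟨M, hM⟩ := ih
    have h1 : ∃ M', ∀ x, x.unpair.1 = B → RR P Q c Z (mf x.unpair.1) x → x ≤ M' := by
      by_cases h : ∃ t, fs P Q c (SR Z (mf B)) B t
      · obtain ⟨t, ht⟩ := h
        refine ⟨t, fun x hx hR => ?_⟩
        obtain ⟨t', h2, h3⟩ := hR
        rw [hx] at h2 h3
        have h4 : t' = t := by
          rcases lt_trichotomy t' t with h5 | h5 | h5
          · exact absurd h2.1 (ht.2 t' h5)
          · exact h5
          · exact absurd ht.1 (h2.2 t h5)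
        rw [← h4]
        exact h3.2.1
      · refine ⟨0, fun x hx hR => ?_⟩
        obtain ⟨t', h2, _⟩ := hR
        rw [hx] at h2
        exact absurd ⟨t', h2⟩ h
    obtain ⟨M', hM'⟩ := h1
    refine ⟨max M M', fun x hx hR => ?_⟩
    rcases Nat.lt_succ_iff_lt_or_eq.1 hx with h2 | h2
    · exact (hM x h2 hR).trans (le_max_left _ _)
    · exact (hM' x h2 hR).trans (le_max_right _ _)

end

/-! Effectivity. -/

theorem pr_down {D : ℕ → Prop} (h : ∀ n, D (n + 1) → D n) : PrimrecPred D := by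
  classical
  by_cases h1 : ∀ n, D n
  · exact (PP.const True).of_eq fun n => by simp [h1 n]
  · push Not at h1
    have h2 := Nat.find_spec h1
    refine (Primrec.nat_lt.comp Primrec.id (Primrec.const (Nat.find h1))).of_eq fun n => ?_
    constructor
    · intro h3
      by_contra h4
      exact Nat.find_min h1 h3 h4
    · intro h3
      by_contra h4
      exact h2 (ray_down h (not_lt.1 h4) h3)

theorem pr_fin (p : ℕ → Prop) (L : ℕ) : PrimrecPred fun x => x < L ∧ p x := by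
  induction L with
  | zero => exact (PP.const False).of_eq fun n => by simp
  | succ L ih =>
    refine (PrimrecPred.or ih (PrimrecPred.and (Primrec.eq.comp Primrec.id (Primrec.const L))
      (PP.const (p L)))).of_eq fun x => ?_
    constructor
    · rintro (⟨h1, h2⟩ | ⟨h1, h2⟩)
      · exact ⟨by omega, h2⟩
      · change x = L at h1
        subst h1
        exact ⟨by omega, h2⟩
    · rintro ⟨h1, h2⟩
      rcases Nat.lt_succ_iff_lt_or_eq.1 h1 with h3 | rfl
      · exact Or.inl ⟨h3, h2⟩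
      · exact Or.inr ⟨rfl, h2⟩

section
variable {α : Type*} [Primcodable α] {P Q : List Bool → List Bool} {I : Set ℤ}
  {Z : ℤ → ℕ → Bool} {c : Code}

theorem Orb.pr_I (O : Orb P Q I Z) {k : ℤ} (hk : k ∈ I) {a b : α → ℕ} (ha : Primrec a)
    (hb : Primrec b) : PrimrecPred fun y => k + (a y : ℤ) - (b y : ℤ) ∈ I := by
  have h1 : PrimrecPred fun n : ℕ => k + (n : ℤ) ∈ I :=
    pr_down fun n h => O.conv _ _ _ hk h (by omega) (by push_cast; omega)
  have h2 : PrimrecPred fun n : ℕ => k - (n : ℤ) ∈ I :=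
    pr_down fun n h => O.conv _ _ _ h hk (by push_cast; omega) (by omega)
  refine (PrimrecPred.and (h1.comp (Primrec.nat_sub.comp ha hb))
    (h2.comp (Primrec.nat_sub.comp hb ha))).of_eq fun y => ?_
  rcases le_total (b y) (a y) with h | h
  · have e1 : k + ((a y - b y : ℕ) : ℤ) = k + a y - b y := by omega
    have e2 : k - ((b y - a y : ℕ) : ℤ) = k := by omega
    rw [e1, e2]
    exact ⟨fun h => h.1, fun h => ⟨h, hk⟩⟩
  · have e1 : k + ((a y - b y : ℕ) : ℤ) = k := by omega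
    have e2 : k - ((b y - a y : ℕ) : ℤ) = k + a y - b y := by omega
    rw [e1, e2]
    exact ⟨fun h => h.2, fun h => ⟨hk, h⟩⟩

theorem Orb.growQ (S : Sys P Q) (O : Orb P Q I Z) (J : ℕ) {k : ℤ} (hk : k ∈ I) (hJ : k - J ∈ I)
    (t : ℕ) : ∃ s0, ∀ s ≥ s0, t ≤ (Q^[J] (pre (Z k) s)).length := by
  have h := O.neg.growP S.symm J (k := -k) (by simpa using hk)
    (by
      change -(-k + J) ∈ I
      rw [show -(-k + (J : ℤ)) = k - J by ring]
      exact hJ) t
  simpa only [neg_neg] using h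

/-- the string for the position `k + a - b` -/
def wst (P Q : List Bool → List Bool) (σ : List Bool) (a b : ℕ) : List Bool :=
  if b ≤ a then P^[a - b] σ else Q^[b - a] σ

theorem pr_wst' (S : Sys P Q) {σ : α → List Bool} {a b : α → ℕ} (hσ : Primrec σ) (ha : Primrec a)
    (hb : Primrec b) : Primrec fun y => wst P Q (σ y) (a y) (b y) :=
  Primrec.ite (Primrec.nat_le.comp hb ha) (pr_it S.pP (Primrec.nat_sub.comp ha hb) hσ)
    (pr_it S.pQ (Primrec.nat_sub.comp hb ha) hσ)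

theorem Orb.wst_eq (O : Orb P Q I Z) {k : ℤ} (hk : k ∈ I) {a b : ℕ} (h : k + a - b ∈ I) (s : ℕ) :
    ∃ s', wst P Q (pre (Z k) s) a b = pre (Z (k + a - b)) s' := by
  unfold wst
  split_ifs with h1
  · have e : k + (a : ℤ) - b = k + ((a - b : ℕ) : ℤ) := by omega
    rw [e] at h ⊢
    exact O.itP _ hk h s
  · have e : k + (a : ℤ) - b = k - ((b - a : ℕ) : ℤ) := by omega
    rw [e] at h ⊢
    exact O.itQ _ hk h s

theorem Orb.wst_grow (S : Sys P Q) (O : Orb P Q I Z) {k : ℤ} (hk : k ∈ I) {a b : ℕ}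
    (h : k + a - b ∈ I) (t : ℕ) : ∃ s, t ≤ (wst P Q (pre (Z k) s) a b).length := by
  unfold wst
  split_ifs with h1
  · have e : k + (a : ℤ) - b = k + ((a - b : ℕ) : ℤ) := by omega
    rw [e] at h
    obtain ⟨s0, h0⟩ := O.growP S _ hk h t
    exact ⟨s0, h0 s0 le_rfl⟩
  · have e : k + (a : ℤ) - b = k - ((b - a : ℕ) : ℤ) := by omega
    rw [e] at h
    obtain ⟨s0, h0⟩ := O.growQ S _ hk h t
    exact ⟨s0, h0 s0 le_rfl⟩

theorem Orb.si_val (S : Sys P Q) (O : Orb P Q I Z) {k : ℤ} (hk : k ∈ I) {a b n : α → ℕ}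
    {τ : α → List Bool} (ha : Primrec a) (hb : Primrec b) (hn : Primrec n) (hτ : Primrec τ) :
    SI (Z k) fun y => k + (a y : ℤ) - (b y : ℤ) ∈ I ∧
      pre (Z (k + (a y : ℤ) - (b y : ℤ))) (n y) = τ y := by
  have h1 : SI (Z k) fun y : α => k + (a y : ℤ) - (b y : ℤ) ∈ I ∧ ∃ s : ℕ,
      n y ≤ (wst P Q (pre (Z k) s) (a y) (b y)).length ∧
      (wst P Q (pre (Z k) s) (a y) (b y)).take (n y) = τ y := by
    refine SI.and (SI.of_prim (O.pr_I hk ha hb)) (SI.ex (p := fun (y : α) (s : ℕ) =>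
      n y ≤ (wst P Q (pre (Z k) s) (a y) (b y)).length ∧
      (wst P Q (pre (Z k) s) (a y) (b y)).take (n y) = τ y) ?_)
    refine si_pre (Z k) (β := α) (p := fun y σ => n y ≤ (wst P Q σ (a y) (b y)).length ∧
      (wst P Q σ (a y) (b y)).take (n y) = τ y) ?_ Primrec.fst Primrec.snd
    have hw : Primrec fun y : α × List Bool => wst P Q y.2 (a y.1) (b y.1) :=
      pr_wst' S Primrec.snd (ha.comp Primrec.fst) (hb.comp Primrec.fst)
    exact PrimrecPred.and (Primrec.nat_le.comp (hn.comp Primrec.fst) (pr_len hw))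
      (Primrec.eq.comp (Primrec.list_take.comp (hn.comp Primrec.fst) hw) (hτ.comp Primrec.fst))
  refine h1.of_eq fun y => ?_
  constructor
  · rintro ⟨h2, s, h3, h4⟩
    refine ⟨h2, ?_⟩
    obtain ⟨s', hs'⟩ := O.wst_eq hk h2 s
    rw [hs', length_pre] at h3
    rw [hs', take_pre _ _ _ h3] at h4
    exact h4
  · rintro ⟨h2, h3⟩
    refine ⟨h2, ?_⟩
    obtain ⟨s, hs⟩ := O.wst_grow S hk h2 (n y)
    refine ⟨s, hs, ?_⟩
    obtain ⟨s', hs'⟩ := O.wst_eq hk h2 s
    rw [hs', length_pre] at hs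
    rw [hs', take_pre _ _ _ hs]
    exact h3

/-- The minimal positions of an orbit form a primitive recursive set. -/
theorem Orb.pr_min (O : Orb P Q I Z) {k : ℤ} : ∃ M : ℕ → ℕ → Prop, PrimrecRel M ∧
    ∀ a b : ℕ, k + (a : ℤ) - b ∈ I → (M a b ↔ ∀ j ∈ I, ¬ ltR (Z j) (Z (k + a - b))) := by
  by_cases h : ∃ K ∈ I, ∀ j ∈ I, ¬ ltR (Z j) (Z K)
  · obtain ⟨K, hK, hmin⟩ := h
    have key : ∀ K' ∈ I, (∀ j ∈ I, ¬ ltR (Z j) (Z K')) ↔ Z K' = Z K := by
      intro K' hK'
      constructor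
      · intro h1
        by_contra h2
        rcases ltR_or h2 with h3 | h3
        · exact hmin _ hK' h3
        · exact h1 _ hK h3
      · intro h1
        rw [h1]
        exact hmin
    rcases O.cases with hap | ⟨p, hp, hI, hper, hdvd⟩
    · refine ⟨fun a b => a + (k - K).toNat = b + (K - k).toNat, ?_, fun a b hab => ?_⟩
      · exact Primrec.eq.comp (Primrec.nat_add.comp Primrec.fst (Primrec.const _))
          (Primrec.nat_add.comp Primrec.snd (Primrec.const _))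
      · rw [key _ hab]
        constructor
        · intro h1
          rw [show k + (a : ℤ) - b = K by omega]
        · intro h1
          have := hap _ _ hab hK h1
          omega
    · refine ⟨fun a b => (a + (k - K).toNat) % p = (b + (K - k).toNat) % p, ?_, fun a b hab => ?_⟩
      · exact Primrec.eq.comp
          (Primrec.nat_mod.comp (Primrec.nat_add.comp Primrec.fst (Primrec.const _))
            (Primrec.const p))
          (Primrec.nat_mod.comp (Primrec.nat_add.comp Primrec.snd (Primrec.const _))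
            (Primrec.const p))
      · rw [key _ hab]
        have e : (((a + (k - K).toNat : ℕ) : ℤ)) - ((b + (K - k).toNat : ℕ) : ℤ) =
            (k + a - b) - K := by omega
        constructor
        · intro h1
          have h2 : (p : ℤ) ∣ ((a + (k - K).toNat : ℕ) : ℤ) - ((b + (K - k).toNat : ℕ) : ℤ) :=
            (Nat.modEq_iff_dvd.1 (show Nat.ModEq p _ _ from h1.symm))
          rw [e] at h2
          exact (per_dvd hper h2).symm
        · intro h1
          have h2 := hdvd _ _ h1.symm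
          rw [← e] at h2
          exact (Nat.modEq_iff_dvd.2 h2).symm
  · refine ⟨fun _ _ => False, PP.const False, fun a b hab => ?_⟩
    constructor
    · intro h1
      exact h1.elim
    · intro h1
      exact (h ⟨_, hab, h1⟩).elim

theorem Orb.si_nBn (S : Sys P Q) (O : Orb P Q I Z) {k : ℤ} (hk : k ∈ I) {a b n : α → ℕ}
    (ha : Primrec a) (hb : Primrec b) (hn : Primrec n) :
    SI (Z k) fun y => ¬ Bn Z I (n y) (k + (a y : ℤ) - (b y : ℤ)) := by
  obtain ⟨M, hM, hMi⟩ := O.pr_min (k := k)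
  have hb' : Primrec fun y => b y + n y + 1 := pr_add1 (Primrec.nat_add.comp hb hn)
  have ha' : Primrec fun y => a y + n y + 1 := pr_add1 (Primrec.nat_add.comp ha hn)
  have h1 : SI (Z k) fun y : α => ¬ (k + (a y : ℤ) - ((b y + n y + 1 : ℕ) : ℤ) ∈ I) :=
    SI.of_prim (PrimrecPred.not (O.pr_I hk ha hb'))
  have h2 : SI (Z k) fun y : α => ¬ (k + ((a y + n y + 1 : ℕ) : ℤ) - (b y : ℤ) ∈ I) :=
    SI.of_prim (PrimrecPred.not (O.pr_I hk ha' hb))
  have h3 : SI (Z k) fun y : α => k + (a y : ℤ) - (b y : ℤ) ∈ I ∧ M (a y) (b y) :=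
    SI.and (SI.of_prim (O.pr_I hk ha hb)) (SI.of_prim (hM.comp ha hb))
  have h4 : SI (Z k) fun y : α => ∃ z : ℕ × List Bool × List Bool,
      (z.1 < 2 * n y + 3 ∧ num z.2.2 < num z.2.1) ∧
      (k + (a y : ℤ) - (b y : ℤ) ∈ I ∧ pre (Z (k + (a y : ℤ) - (b y : ℤ))) (n y) = z.2.1) ∧
      (k + ((a y + z.1 : ℕ) : ℤ) - ((b y + n y + 1 : ℕ) : ℤ) ∈ I ∧
        pre (Z (k + ((a y + z.1 : ℕ) : ℤ) - ((b y + n y + 1 : ℕ) : ℤ))) (n y) = z.2.2) := by
    refine SI.ex (p := fun (y : α) (z : ℕ × List Bool × List Bool) =>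
      (z.1 < 2 * n y + 3 ∧ num z.2.2 < num z.2.1) ∧
      (k + (a y : ℤ) - (b y : ℤ) ∈ I ∧ pre (Z (k + (a y : ℤ) - (b y : ℤ))) (n y) = z.2.1) ∧
      (k + ((a y + z.1 : ℕ) : ℤ) - ((b y + n y + 1 : ℕ) : ℤ) ∈ I ∧
        pre (Z (k + ((a y + z.1 : ℕ) : ℤ) - ((b y + n y + 1 : ℕ) : ℤ))) (n y) = z.2.2)) ?_
    have p1 : Primrec fun y : α × ℕ × List Bool × List Bool => y.2.1 :=
      Primrec.fst.comp Primrec.snd
    have p2 : Primrec fun y : α × ℕ × List Bool × List Bool => y.2.2.1 :=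
      Primrec.fst.comp (Primrec.snd.comp Primrec.snd)
    have p3 : Primrec fun y : α × ℕ × List Bool × List Bool => y.2.2.2 :=
      Primrec.snd.comp (Primrec.snd.comp Primrec.snd)
    refine SI.and (SI.of_prim (PrimrecPred.and ?_ ?_)) (SI.and ?_ ?_)
    · exact Primrec.nat_lt.comp p1 (Primrec.nat_add.comp (Primrec.nat_mul.comp (Primrec.const 2)
        (hn.comp Primrec.fst)) (Primrec.const 3))
    · exact Primrec.nat_lt.comp (pr_num p3) (pr_num p2)
    · exact O.si_val S hk (ha.comp Primrec.fst) (hb.comp Primrec.fst) (hn.comp Primrec.fst) p2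
    · exact O.si_val S hk (Primrec.nat_add.comp (ha.comp Primrec.fst) p1) (hb'.comp Primrec.fst)
        (hn.comp Primrec.fst) p3
  refine (SI.or h1 (SI.or h2 (SI.or h3 h4))).of_eq fun y => ?_
  have e1 : k + (a y : ℤ) - ((b y + n y + 1 : ℕ) : ℤ) = k + a y - b y - (n y + 1) := by
    push_cast; ring
  have e2 : k + ((a y + n y + 1 : ℕ) : ℤ) - (b y : ℤ) = k + a y - b y + (n y + 1) := by
    push_cast; ring
  rw [e1, e2]
  constructor
  · rintro (h | h | ⟨h, h'⟩ | ⟨⟨j, τ, τ'⟩, ⟨hj, hlt⟩, ⟨h5, h6⟩, h7, h8⟩)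
    · exact fun hB => h hB.1
    · exact fun hB => h hB.2.1
    · intro hB
      obtain ⟨j, hj, h9⟩ := hB.2.2.2
      exact (hMi _ _ h).1 h' j hj h9
    · intro hB
      have h9 := hB.2.2.1 (k + a y - b y - (n y + 1) + j) (by omega)
        (by simp only at hj; omega)
      simp only at h6 h8 hlt
      rw [show k + ((a y + j : ℕ) : ℤ) - ((b y + n y + 1 : ℕ) : ℤ) =
        k + a y - b y - (n y + 1) + j by push_cast; ring] at h8
      rw [h6, h8] at h9
      omega
  · intro hB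
    by_contra h
    push Not at h
    obtain ⟨g1, g2, g3, g4⟩ := h
    have gI : k + (a y : ℤ) - b y ∈ I := O.conv _ _ _ g1 g2 (by omega) (by omega)
    refine hB ⟨g1, g2, fun j hj1 hj2 => ?_, ?_⟩
    · by_contra hlt
      rw [not_le] at hlt
      have gJ : j ∈ I := O.conv _ _ _ g1 g2 hj1 hj2
      obtain ⟨i, hi⟩ : ∃ i : ℕ, i = (j - (k + a y - b y - (n y + 1))).toNat := ⟨_, rfl⟩
      have e3 : k + ((a y + i : ℕ) : ℤ) - ((b y + n y + 1 : ℕ) : ℤ) = j := by
        push_cast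
        omega
      refine g4 (i, pre (Z (k + a y - b y)) (n y), pre (Z j) (n y)) ⟨by simp only; omega, hlt⟩
        ⟨gI, rfl⟩ ?_ ?_
      · simp only
        rw [e3]
        exact gJ
      · simp only
        rw [e3]
    · by_contra hmin
      push Not at hmin
      exact g3 gI ((hMi _ _ gI).2 hmin)

end

end Pool.Agent.Run7.h353.PI
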