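import Pool.Agent.Run7.h353.PI.A7

set_option autoImplicit false

/-!
The complement of the set.
-/

namespace Pool.Agent.Run7.h353.PI

open Encodable Pool.Agent.Helper227 Pool.Agent.H548R2.Post
open Nat.Partrec (Code)

/-- nothing is put in by the list up to the stage `t` -/
def NS (P Q : List Bool → List Bool) (c : Code) (σ : List Bool) (q x t : ℕ) : Prop :=
  Vf P Q σ q (NN x.unpair.1) t ∧ ∀ t' < t + 1,
    ¬ (fs P Q c (SS P Q σ q) x.unpair.1 t' ∧ dc P Q c (SS P Q σ q) t' x)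

/-- `x` is put in for the list starting at `m` -/
def RC (P Q : List Bool → List Bool) (c : Code) (Z : ℤ → ℕ → Bool) (I : Set ℤ) (m : ℤ) (x : ℕ) :
    Prop := IN I m x ∧ RR P Q c Z m x ∧ MK Z I m x

/-- the components are in the right range -/
def VL (u : ℕ) : Prop := ue u ≤ un u ∧ uk u < ul u ∧ ua u ≤ 1 ∧ ub u ≤ 2

section
variable {α : Type*} [Primcodable α] {P Q : List Bool → List Bool} {I : Set ℤ}
  {Z : ℤ → ℕ → Bool} {c : Code}

theorem pr_NS (S : Sys P Q) {c : α → Code} {σ : α → List Bool} {q x t : α → ℕ} (hc : Primrec c)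
    (hσ : Primrec σ) (hq : Primrec q) (hx : Primrec x) (ht : Primrec t) :
    PrimrecPred fun a => NS P Q (c a) (σ a) (q a) (x a) (t a) := by
  unfold NS
  refine PrimrecPred.and (pr_Vf S hσ hq (pr_NN (pr_u1 hx)) ht) ?_
  refine PP.all_lt (f := fun a => t a + 1) (p := fun a t' =>
    ¬ (fs P Q (c a) (SS P Q (σ a) (q a)) (x a).unpair.1 t' ∧
      dc P Q (c a) (SS P Q (σ a) (q a)) t' (x a))) ?_ (pr_add1 ht)
  exact PrimrecPred.not (PrimrecPred.and
    (pr_fs S (hc.comp Primrec.fst) (hσ.comp Primrec.fst) (hq.comp Primrec.fst)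
      ((pr_u1 hx).comp Primrec.fst) Primrec.snd)
    (pr_dc S (hc.comp Primrec.fst) (hσ.comp Primrec.fst) (hq.comp Primrec.fst) Primrec.snd
      (hx.comp Primrec.fst)))

theorem pr_VL {u : α → ℕ} (hu : Primrec u) : PrimrecPred fun a => VL (u a) :=
  PrimrecPred.and (Primrec.nat_le.comp (pr_ue hu) (pr_un hu))
    (PrimrecPred.and (Primrec.nat_lt.comp (pr_uk hu) (pr_ul hu))
    (PrimrecPred.and (Primrec.nat_le.comp (pr_ua hu) (Primrec.const 1))
      (Primrec.nat_le.comp (pr_ub hu) (Primrec.const 2))))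

theorem VL_of_RR {m : ℤ} {x : ℕ} (h : RR P Q c Z m x) : VL x.unpair.1 := by
  obtain ⟨t, _, h⟩ := h
  exact ⟨h.2.2.2.1, h.2.2.2.2.1, h.2.2.2.2.2.1, h.2.2.2.2.2.2.1⟩

theorem NS_iff (S : Sys P Q) (O : Orb P Q I Z) {k : ℤ} (hk : k ∈ I) {q x s t : ℕ}
    (h1 : IN I (k - q) x) (h : Vf P Q (pre (Z k) s) q (NN x.unpair.1) t) :
    NS P Q c (pre (Z k) s) q x t ↔
      ∀ t' ≤ t, ¬ (fs P Q c (SR Z (k - q)) x.unpair.1 t' ∧ dc P Q c (SR Z (k - q)) t' x) := by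
  have h2 := O.agr S hk h1.1 h1.2 h
  constructor
  · rintro ⟨_, h3⟩ t' ht' ⟨h4, h5⟩
    exact h3 t' (by omega) ⟨h4.congr h2.symm ht', h5.congr h2.symm ht'⟩
  · intro h3
    refine ⟨h, fun t' ht' h4 => h3 t' (by omega) ⟨h4.1.congr h2 (by omega), h4.2.congr h2 (by omega)⟩⟩

theorem si_nIN (O : Orb P Q I Z) {k : ℤ} (hk : k ∈ I) (X : ℕ → Bool) {q x : α → ℕ}
    (hq : Primrec q) (hx : Primrec x) : SI X fun a => ¬ IN I (k - (q a : ℤ)) (x a) := by
  have h1 : PrimrecPred fun a : α => k + ((0 : ℕ) : ℤ) - (q a : ℤ) ∈ I :=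
    O.pr_I hk (Primrec.const 0) hq
  have h2 : PrimrecPred fun a : α => k + ((NN (x a).unpair.1 : ℕ) : ℤ) - ((q a + 1 : ℕ) : ℤ) ∈ I :=
    O.pr_I hk (pr_NN (pr_u1 hx)) (pr_add1 hq)
  refine (SI.of_prim (PrimrecPred.not (PrimrecPred.and h1 h2))).of_eq fun a => ?_
  unfold IN
  rw [show k + ((0 : ℕ) : ℤ) - (q a : ℤ) = k - q a by push_cast; ring,
    show k + ((NN (x a).unpair.1 : ℕ) : ℤ) - ((q a + 1 : ℕ) : ℤ) =
      k - q a + NN (x a).unpair.1 - 1 by push_cast; ring]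

theorem prop_aux {A1 A2 A3 A4 A5 : Prop} :
    (A1 ∧ (A2 ∧ ¬ A4 ∨ A3 ∧ ¬ A5)) ↔ ¬ (A1 → (A2 → A4) ∧ (A3 → A5)) := by tauto

theorem si_nMK (S : Sys P Q) (O : Orb P Q I Z) {k : ℤ} (hk : k ∈ I) {q x : α → ℕ}
    (hq : Primrec q) (hx : Primrec x) : SI (Z k) fun a => ¬ MK Z I (k - (q a : ℤ)) (x a) := by
  have hu := pr_u1 hx
  have h1 : SI (Z k) fun a : α => ¬ Bn Z I (un (x a).unpair.1) (k + ((0 : ℕ) : ℤ) - (q a : ℤ)) :=
    O.si_nBn S hk (Primrec.const 0) hq (pr_un hu)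
  have h2 : SI (Z k) fun a : α => ¬ Bn Z I (un (x a).unpair.1)
      (k + ((ul (x a).unpair.1 : ℕ) : ℤ) - ((q a + 1 : ℕ) : ℤ)) :=
    O.si_nBn S hk (pr_ul hu) (pr_add1 hq) (pr_un hu)
  have h3 : SI (Z k) fun a : α => ub (x a).unpair.1 < 2 :=
    SI.of_prim (Primrec.nat_lt.comp (pr_ub hu) (Primrec.const 2))
  have h4 : SI (Z k) fun a : α => ua (x a).unpair.1 = 0 :=
    SI.of_prim (Primrec.eq.comp (pr_ua hu) (Primrec.const 0))
  have h5 : SI (Z k) fun a : α => ub (x a).unpair.1 = 0 :=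
    SI.of_prim (Primrec.eq.comp (pr_ub hu) (Primrec.const 0))
  refine (SI.and h3 (SI.or (SI.and h4 h1) (SI.and h5 h2))).of_eq fun a => ?_
  have e1 : k + ((0 : ℕ) : ℤ) - (q a : ℤ) = k - q a := by rw [Nat.cast_zero, add_zero]
  have e2 : k + ((ul (x a).unpair.1 : ℕ) : ℤ) - ((q a + 1 : ℕ) : ℤ) =
      k - q a + ul (x a).unpair.1 - 1 := by
    rw [Nat.cast_add, Nat.cast_one]
    ring
  rw [e1, e2]
  exact prop_aux

/-- The refutations. -/
theorem exists_R2 (S : Sys P Q) (O : Orb P Q I Z) {k : ℤ} (hk : k ∈ I) (c : Code) :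
    ∃ R : ℕ × ℕ → Prop, SI (Z k) R ∧ (∀ q x, R (q, x) → ¬ RC P Q c Z I (k - q) x) ∧
      ∀ q x, q < ul x.unpair.1 →
        (VL x.unpair.1 → IN I (k - q) x → MK Z I (k - q) x → ∃ t, Rf P Q (SR Z (k - q)) t x) →
        ¬ RC P Q c Z I (k - q) x → R (q, x) := by
  refine ⟨fun y => ¬ VL y.2.unpair.1 ∨ ¬ IN I (k - (y.1 : ℤ)) y.2 ∨ ¬ MK Z I (k - (y.1 : ℤ)) y.2 ∨
    ∃ st : ℕ × ℕ, Rf P Q (SS P Q (pre (Z k) st.1) y.1) st.2 y.2 ∧
      NS P Q c (pre (Z k) st.1) y.1 y.2 st.2, ?_, ?_, ?_⟩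
  · refine SI.or (SI.of_prim (PrimrecPred.not (pr_VL (pr_u1 Primrec.snd))))
      (SI.or (si_nIN O hk _ Primrec.fst Primrec.snd)
      (SI.or (si_nMK S O hk Primrec.fst Primrec.snd) (SI.ex (p := fun (y : ℕ × ℕ) (st : ℕ × ℕ) =>
        Rf P Q (SS P Q (pre (Z k) st.1) y.1) st.2 y.2 ∧
        NS P Q c (pre (Z k) st.1) y.1 y.2 st.2) ?_)))
    refine si_pre (Z k) (β := (ℕ × ℕ) × (ℕ × ℕ)) (p := fun z σ =>
      Rf P Q (SS P Q σ z.1.1) z.2.2 z.1.2 ∧ NS P Q c σ z.1.1 z.1.2 z.2.2) ?_ Primrec.id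
      (Primrec.fst.comp Primrec.snd)
    have hq : Primrec fun z : ((ℕ × ℕ) × (ℕ × ℕ)) × List Bool => z.1.1.1 :=
      Primrec.fst.comp (Primrec.fst.comp Primrec.fst)
    have hx : Primrec fun z : ((ℕ × ℕ) × (ℕ × ℕ)) × List Bool => z.1.1.2 :=
      Primrec.snd.comp (Primrec.fst.comp Primrec.fst)
    have ht : Primrec fun z : ((ℕ × ℕ) × (ℕ × ℕ)) × List Bool => z.1.2.2 :=
      Primrec.snd.comp (Primrec.snd.comp Primrec.fst)
    exact PrimrecPred.and (pr_Rf S Primrec.snd hq ht hx)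
        (pr_NS S (Primrec.const c) Primrec.snd hq hx ht)
  · rintro q x (h | h | h | ⟨⟨s, t⟩, h2, h3⟩) ⟨hIN, hRR, hMK⟩
    · exact h (VL_of_RR hRR)
    · exact h hIN
    · exact h hMK
    · simp only at h2 h3
      have h4 := O.agr S hk hIN.1 hIN.2 h3.1
      have h5 := (NS_iff S O hk hIN h3.1).1 h3
      have h6 : 0 < ul x.unpair.1 := lt_of_le_of_lt (Nat.zero_le _) (VL_of_RR hRR).2.1
      exact not_RR_of_Rf S (h2.congr h4 le_rfl h6) h5 hRR
  · intro q x hq hRf hRC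
    by_cases h1 : VL x.unpair.1
    · by_cases h2 : IN I (k - q) x
      · by_cases h3 : MK Z I (k - q) x
        · obtain ⟨t, ht⟩ := hRf h1 h2 h3
          have h4 : ¬ RR P Q c Z (k - q) x := fun h => hRC ⟨h2, h, h3⟩
          obtain ⟨s0, hs0⟩ := O.Vf_complete S hk (lt_of_lt_of_le hq (ul_le_NN _)) h2.1 h2.2 t
          have h5 := hs0 s0 le_rfl
          have h6 := O.agr S hk h2.1 h2.2 h5
          refine Or.inr (Or.inr (Or.inr ⟨(s0, t), ?_, ?_⟩))
          · exact ht.congr h6.symm le_rfl (lt_of_le_of_lt (Nat.zero_le _) hq)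
          · exact (NS_iff S O hk h2 h5).2 fun t' _ h7 => h4 ⟨t', h7.1, h7.2⟩
        · exact Or.inr (Or.inr (Or.inl h3))
      · exact Or.inr (Or.inl h2)
    · exact Or.inl h1

end

/-! Turing reducibility. -/

theorem tLe_join_left (A B : ℕ → Bool) : TLe A (join A B) := by
  rw [tLe_iff_SI]
  refine (SI.query.comp (f := fun x : ℕ × Bool => (2 * x.1, x.2))
    ((Primrec.nat_mul.comp (Primrec.const 2) Primrec.fst).pair Primrec.snd)).of_eq fun x => ?_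
  have e1 : 2 * x.1 % 2 = 0 := by omega
  have e2 : 2 * x.1 / 2 = x.1 := by omega
  simp only [join, e1, e2, if_true]

theorem tLe_join_right (A B : ℕ → Bool) : TLe B (join A B) := by
  rw [tLe_iff_SI]
  refine (SI.query.comp (f := fun x : ℕ × Bool => (2 * x.1 + 1, x.2))
    ((Primrec.succ.comp (Primrec.nat_mul.comp (Primrec.const 2) Primrec.fst)).pair
      Primrec.snd)).of_eq fun x => ?_
  have e1 : ¬ (2 * x.1 + 1) % 2 = 0 := by omega
  have e2 : (2 * x.1 + 1) / 2 = x.1 := by omega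
  simp only [join, e1, e2, if_false]

theorem join_tLe {A B C : ℕ → Bool} (h1 : TLe A C) (h2 : TLe B C) : TLe (join A B) C := by
  rw [tLe_iff_SI] at *
  have hm : Primrec fun x : ℕ × Bool => x.1 % 2 := Primrec.nat_mod.comp Primrec.fst (Primrec.const 2)
  have hd : Primrec fun x : ℕ × Bool => (x.1 / 2, x.2) := (pr_half Primrec.fst).pair Primrec.snd
  refine (SI.or (SI.and (SI.of_prim (Primrec.eq.comp hm (Primrec.const 0))) (h1.comp hd))
    (SI.and (SI.of_prim (PrimrecPred.not (Primrec.eq.comp hm (Primrec.const 0))))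
      (h2.comp hd))).of_eq fun x => ?_
  unfold join
  by_cases h : x.1 % 2 = 0
  · simp [h]
  · simp [h]

theorem tLe_of_both {A B : ℕ → Bool} (h1 : SI B fun x : ℕ => A x = true)
    (h2 : SI B fun x : ℕ => ¬ A x = true) : TLe A B := by
  rw [tLe_iff_SI]
  refine (SI.or (SI.and (SI.of_prim (Primrec.eq.comp Primrec.snd (Primrec.const true)))
    (h1.comp Primrec.fst)) (SI.and (SI.of_prim (Primrec.eq.comp Primrec.snd (Primrec.const false)))
    (h2.comp Primrec.fst))).of_eq fun x => ?_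
  obtain ⟨n, b⟩ := x
  cases b <;> simp

open Classical in
/-- the characteristic function of the set -/
noncomputable def Ac (P Q : List Bool → List Bool) (c : Code) (X : ℕ → Bool) (x : ℕ) : Bool :=
  decide (AX P Q c X x)

theorem Ac_true {P Q : List Bool → List Bool} {c : Code} {X : ℕ → Bool} {x : ℕ} :
    Ac P Q c X x = true ↔ AX P Q c X x := by simp [Ac]

section
variable {α : Type*} [Primcodable α] {P Q : List Bool → List Bool} {I : Set ℤ}
  {Z : ℤ → ℕ → Bool} {c : Code}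

theorem pr_RS (S : Sys P Q) {σ : α → List Bool} {q x : α → ℕ} (c : Code)
    (hσ : Primrec σ) (hq : Primrec q) (hx : Primrec x) :
    PrimrecPred fun a => RS P Q c (σ a) (q a) (x a) := by
  unfold RS
  refine PP.ex_lt (f := fun a => (σ a).length + 1) (p := fun a t =>
    Vf P Q (σ a) (q a) (NN (x a).unpair.1) t ∧ fs P Q c (SS P Q (σ a) (q a)) (x a).unpair.1 t ∧
      dc P Q c (SS P Q (σ a) (q a)) t (x a)) ?_ (pr_add1 (pr_len hσ))
  have hσ' := hσ.comp (Primrec.fst : Primrec (Prod.fst : α × ℕ → α))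
  have hq' := hq.comp (Primrec.fst : Primrec (Prod.fst : α × ℕ → α))
  have hx' := hx.comp (Primrec.fst : Primrec (Prod.fst : α × ℕ → α))
  exact PrimrecPred.and (pr_Vf S hσ' hq' (pr_NN (pr_u1 hx')) Primrec.snd)
    (PrimrecPred.and (pr_fs S (Primrec.const c) hσ' hq' (pr_u1 hx') Primrec.snd)
      (pr_dc S (Primrec.const c) hσ' hq' Primrec.snd hx'))

theorem pr_crt (S : Sys P Q) {σ : α → List Bool} {q j n x : α → ℕ}
    (hσ : Primrec σ) (hq : Primrec q) (hj : Primrec j) (hn : Primrec n) (hx : Primrec x) :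
    PrimrecPred fun a => crt P Q (σ a) (q a) (j a) (n a) (x a) := by
  have h : PrimrecPred fun a => ∃ i < (σ a).length + 1, ∃ q' < (σ a).length + 1,
      ∃ N < (σ a).length + 1, ∃ t < (σ a).length + 1, i + q a = q' + j a ∧ x a ≤ t ∧
        Vf P Q (σ a) q' N t ∧ LM (SS P Q (σ a) q') i N (n a) t := by
    refine PP.ex_lt (f := fun a => (σ a).length + 1) (p := fun a i => ∃ q' < (σ a).length + 1,
      ∃ N < (σ a).length + 1, ∃ t < (σ a).length + 1, i + q a = q' + j a ∧ x a ≤ t ∧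
        Vf P Q (σ a) q' N t ∧ LM (SS P Q (σ a) q') i N (n a) t) ?_ (pr_add1 (pr_len hσ))
    have hl1 : Primrec fun y : α × ℕ => (σ y.1).length + 1 :=
      (pr_add1 (pr_len hσ)).comp Primrec.fst
    refine PP.ex_lt (α := α × ℕ) (f := fun y => (σ y.1).length + 1) (p := fun y q' =>
      ∃ N < (σ y.1).length + 1, ∃ t < (σ y.1).length + 1, y.2 + q y.1 = q' + j y.1 ∧ x y.1 ≤ t ∧
        Vf P Q (σ y.1) q' N t ∧ LM (SS P Q (σ y.1) q') y.2 N (n y.1) t) ?_ hl1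
    refine PP.ex_lt (α := (α × ℕ) × ℕ) (f := fun y => (σ y.1.1).length + 1) (p := fun y N =>
      ∃ t < (σ y.1.1).length + 1, y.1.2 + q y.1.1 = y.2 + j y.1.1 ∧ x y.1.1 ≤ t ∧
        Vf P Q (σ y.1.1) y.2 N t ∧ LM (SS P Q (σ y.1.1) y.2) y.1.2 N (n y.1.1) t) ?_
      (hl1.comp Primrec.fst)
    refine PP.ex_lt (α := ((α × ℕ) × ℕ) × ℕ) (f := fun y => (σ y.1.1.1).length + 1)
      (p := fun y t => y.1.1.2 + q y.1.1.1 = y.1.2 + j y.1.1.1 ∧ x y.1.1.1 ≤ t ∧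
        Vf P Q (σ y.1.1.1) y.1.2 y.2 t ∧ LM (SS P Q (σ y.1.1.1) y.1.2) y.1.1.2 y.2 (n y.1.1.1) t) ?_
      ((hl1.comp Primrec.fst).comp Primrec.fst)
    have f0 : Primrec fun y : (((α × ℕ) × ℕ) × ℕ) × ℕ => y.1.1.1.1 :=
      Primrec.fst.comp (Primrec.fst.comp (Primrec.fst.comp Primrec.fst))
    have f1 : Primrec fun y : (((α × ℕ) × ℕ) × ℕ) × ℕ => y.1.1.1.2 :=
      Primrec.snd.comp (Primrec.fst.comp (Primrec.fst.comp Primrec.fst))
    have f2 : Primrec fun y : (((α × ℕ) × ℕ) × ℕ) × ℕ => y.1.1.2 :=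
      Primrec.snd.comp (Primrec.fst.comp Primrec.fst)
    have f3 : Primrec fun y : (((α × ℕ) × ℕ) × ℕ) × ℕ => y.1.2 :=
      Primrec.snd.comp Primrec.fst
    exact PrimrecPred.and (Primrec.eq.comp (Primrec.nat_add.comp f1 (hq.comp f0))
        (Primrec.nat_add.comp f2 (hj.comp f0)))
      (PrimrecPred.and (Primrec.nat_le.comp (hx.comp f0) Primrec.snd)
      (PrimrecPred.and (pr_Vf S (hσ.comp f0) f2 f3 Primrec.snd)
        (pr_LM S (hσ.comp f0) f2 f1 f3 (hn.comp f0) Primrec.snd)))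
  exact h

theorem pr_Aq (S : Sys P Q) {σ : α → List Bool} {q x : α → ℕ} (c : Code)
    (hσ : Primrec σ) (hq : Primrec q) (hx : Primrec x) :
    PrimrecPred fun a => Aq P Q c (σ a) (q a) (x a) := by
  unfold Aq
  have hu := pr_u1 hx
  exact PrimrecPred.and (pr_RS S c hσ hq hx)
    (pr_imp (Primrec.nat_lt.comp (pr_ub hu) (Primrec.const 2)) (PrimrecPred.and
      (pr_imp (Primrec.eq.comp (pr_ua hu) (Primrec.const 0))
        (pr_crt S hσ hq (Primrec.const 0) (pr_un hu) hx))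
      (pr_imp (Primrec.eq.comp (pr_ub hu) (Primrec.const 0))
        (pr_crt S hσ hq (Primrec.nat_sub.comp (pr_ul hu) (Primrec.const 1)) (pr_un hu) hx))))

theorem pr_AS (S : Sys P Q) {σ : α → List Bool} {x : α → ℕ} (c : Code)
    (hσ : Primrec σ) (hx : Primrec x) : PrimrecPred fun a => AS P Q c (σ a) (x a) := by
  unfold AS
  exact PP.ex_lt (f := fun a => ul (x a).unpair.1) (p := fun a q => Aq P Q c (σ a) q (x a))
    (pr_Aq S c (hσ.comp Primrec.fst) Primrec.snd (hx.comp Primrec.fst)) (pr_ul (pr_u1 hx))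

theorem si_AX (S : Sys P Q) (c : Code) (X : ℕ → Bool) : SI X fun x : ℕ => AX P Q c X x := by
  unfold AX
  refine SI.ex (p := fun (x : ℕ) (s : ℕ) => AS P Q c (pre X s) x) ?_
  exact si_pre X (p := fun (x : ℕ) σ => AS P Q c σ x) (pr_AS S c Primrec.snd Primrec.fst)
    Primrec.fst Primrec.snd

theorem si_Aq (S : Sys P Q) (c : Code) (X : ℕ → Bool) {q x : α → ℕ} (hq : Primrec q)
    (hx : Primrec x) : SI X fun a => ∃ s, Aq P Q c (pre X s) (q a) (x a) := by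
  refine SI.ex (p := fun (a : α) (s : ℕ) => Aq P Q c (pre X s) (q a) (x a)) ?_
  exact si_pre X (p := fun (a : α) σ => Aq P Q c σ (q a) (x a))
    (pr_Aq S c Primrec.snd (hq.comp Primrec.fst) (hx.comp Primrec.fst)) Primrec.fst Primrec.snd

theorem AX_iff_RC (S : Sys P Q) (O : Orb P Q I Z) {L : ℕ} (hL : ∀ k ∈ I, ∀ t > L, ∀ s q N,
    Vf P Q (pre (Z k) s) q N t → k - q ∈ I ∧ k - q + N - 1 ∈ I) {k : ℤ} (hk : k ∈ I) {x : ℕ}
    (hx : L < x) : AX P Q c (Z k) x ↔ ∃ q < ul x.unpair.1, RC P Q c Z I (k - q) x :=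
  AX_iff S O hL hk hx

/-- The set is computable from `X` and the avoiding function. -/
theorem Ac_le (S : Sys P Q) (hc : ∀ (g : ℕ) (b : Bool) (σ : List Bool),
    (c.eval (encode ((g, b), σ))).Dom ↔ Sim P Q c σ g b) (X : ℕ → Bool) :
    TLe (Ac P Q c X) (join X (fl c X)) := by
  obtain ⟨I, Z, O, hk, rfl⟩ := exists_orb P Q X
  obtain ⟨L, hL⟩ := O.Vf_sound S
  have hXB := tLe_join_left (Z 0) (fl c (Z 0))
  refine tLe_of_both ?_ ?_
  · exact ((si_AX S c (Z 0)).trans hXB).of_eq fun x => Ac_true.symm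
  · have h1 : SI (join (Z 0) (fl c (Z 0))) fun y : ℕ × ℕ => ¬ IN I (0 - (y.2 : ℤ)) y.1 :=
      (si_nIN O hk _ Primrec.snd Primrec.fst)
    have h2 : SI (join (Z 0) (fl c (Z 0))) fun y : ℕ × ℕ => ¬ MK Z I (0 - (y.2 : ℤ)) y.1 :=
      (si_nMK S O hk Primrec.snd Primrec.fst).trans hXB
    have h3 : SI (join (Z 0) (fl c (Z 0))) fun y : ℕ × ℕ => ∃ z : (ℕ × ℕ) × Bool,
        (y.1 ≤ z.1.2 ∧ L < z.1.2) ∧ F c (pre (Z 0) z.1.2) (Nat.pair y.1.unpair.1 y.2) = z.2 ∧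
        fl c (Z 0) (Nat.pair y.1.unpair.1 y.2) = z.2 ∧ NS P Q c (pre (Z 0) z.1.1) y.2 y.1 z.1.2 := by
      refine SI.ex (p := fun (y : ℕ × ℕ) (z : (ℕ × ℕ) × Bool) =>
        (y.1 ≤ z.1.2 ∧ L < z.1.2) ∧ F c (pre (Z 0) z.1.2) (Nat.pair y.1.unpair.1 y.2) = z.2 ∧
        fl c (Z 0) (Nat.pair y.1.unpair.1 y.2) = z.2 ∧
        NS P Q c (pre (Z 0) z.1.1) y.2 y.1 z.1.2) ?_
      have gx : Primrec fun w : (ℕ × ℕ) × ((ℕ × ℕ) × Bool) => w.1.1 :=
        Primrec.fst.comp Primrec.fst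
      have gq : Primrec fun w : (ℕ × ℕ) × ((ℕ × ℕ) × Bool) => w.1.2 :=
        Primrec.snd.comp Primrec.fst
      have gs : Primrec fun w : (ℕ × ℕ) × ((ℕ × ℕ) × Bool) => w.2.1.1 :=
        Primrec.fst.comp (Primrec.fst.comp Primrec.snd)
      have gt : Primrec fun w : (ℕ × ℕ) × ((ℕ × ℕ) × Bool) => w.2.1.2 :=
        Primrec.snd.comp (Primrec.fst.comp Primrec.snd)
      have gb : Primrec fun w : (ℕ × ℕ) × ((ℕ × ℕ) × Bool) => w.2.2 :=
        Primrec.snd.comp Primrec.snd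
      have gg : Primrec fun w : (ℕ × ℕ) × ((ℕ × ℕ) × Bool) => Nat.pair w.1.1.unpair.1 w.1.2 :=
        Primrec₂.natPair.comp (pr_u1 gx) gq
      refine SI.and (SI.of_prim (PrimrecPred.and (Primrec.nat_le.comp gx gt)
        (Primrec.nat_lt.comp (Primrec.const L) gt))) (SI.and ?_ (SI.and ?_ ?_))
      · refine SI.trans (A := Z 0) ?_ hXB
        refine si_pre (Z 0) (β := (ℕ × ℕ) × ((ℕ × ℕ) × Bool)) (p := fun w σ =>
          F c σ (Nat.pair w.1.1.unpair.1 w.1.2) = w.2.2) ?_ Primrec.id gt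
        exact Primrec.eq.comp (pr_F (Primrec.const c) Primrec.snd (gg.comp Primrec.fst))
          (gb.comp Primrec.fst)
      · refine SI.trans (A := fl c (Z 0)) ?_ (tLe_join_right _ _)
        exact SI.query.comp (f := fun w : (ℕ × ℕ) × ((ℕ × ℕ) × Bool) =>
          (Nat.pair w.1.1.unpair.1 w.1.2, w.2.2)) (gg.pair gb)
      · refine SI.trans (A := Z 0) ?_ hXB
        refine si_pre (Z 0) (β := (ℕ × ℕ) × ((ℕ × ℕ) × Bool)) (p := fun w σ =>
          NS P Q c σ w.1.2 w.1.1 w.2.1.2) ?_ Primrec.id gs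
        exact pr_NS S (Primrec.const c) Primrec.snd (gq.comp Primrec.fst) (gx.comp Primrec.fst)
          (gt.comp Primrec.fst)
    have h4 : SI (join (Z 0) (fl c (Z 0))) fun x : ℕ => ∀ q < ul x.unpair.1,
        ¬ IN I (0 - (q : ℤ)) x ∨ ¬ MK Z I (0 - (q : ℤ)) x ∨ ∃ z : (ℕ × ℕ) × Bool,
        (x ≤ z.1.2 ∧ L < z.1.2) ∧ F c (pre (Z 0) z.1.2) (Nat.pair x.unpair.1 q) = z.2 ∧
        fl c (Z 0) (Nat.pair x.unpair.1 q) = z.2 ∧ NS P Q c (pre (Z 0) z.1.1) q x z.1.2 :=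
      SI.all_lt (p := fun x q => ¬ IN I (0 - (q : ℤ)) x ∨ ¬ MK Z I (0 - (q : ℤ)) x ∨
        ∃ z : (ℕ × ℕ) × Bool,
        (x ≤ z.1.2 ∧ L < z.1.2) ∧ F c (pre (Z 0) z.1.2) (Nat.pair x.unpair.1 q) = z.2 ∧
        fl c (Z 0) (Nat.pair x.unpair.1 q) = z.2 ∧ NS P Q c (pre (Z 0) z.1.1) q x z.1.2)
        (SI.or h1 (SI.or h2 h3)) (pr_ul (pr_u1 Primrec.id))
    refine (SI.or (SI.of_prim (pr_fin (fun x => ¬ AX P Q c (Z 0) x) (L + 1)))
      (SI.and (SI.of_prim (Primrec.nat_lt.comp (Primrec.const L) Primrec.id)) h4)).of_eq fun x => ?_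
    rw [Ac_true]
    by_cases hx : L < x
    · have e1 : ¬ (x < L + 1 ∧ ¬ AX P Q c (Z 0) x) := fun h => by omega
      rw [AX_iff_RC S O hL hk hx]
      push Not
      constructor
      · rintro (h | ⟨_, h⟩) q hq hRC
        · omega
        · obtain ⟨hIN, ⟨t, hf, hd⟩, hMK⟩ := hRC
          rcases h q hq with h | h | ⟨⟨⟨s, t'⟩, b⟩, ⟨g1, g2⟩, g3, g4, g5⟩
          · exact h hIN
          · exact h hMK
          · simp only at g1 g2 g3 g4 g5
            have g6 := (NS_iff S O hk hIN g5.1).1 g5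
            have g7 : t' < t := by
              by_contra h7
              exact g6 t (not_lt.1 h7) ⟨hf, hd⟩
            refine permit' S O hc hk hq hIN hf hd g1 g7.le ?_
            rw [g3, g4]
      · intro h
        refine Or.inr ⟨hx, fun q hq => ?_⟩
        by_cases hIN : IN I (0 - (q : ℤ)) x
        · by_cases hMK : MK Z I (0 - (q : ℤ)) x
          · right; right
            have hRR : ¬ RR P Q c Z (0 - (q : ℤ)) x := fun hRR => h q hq ⟨hIN, hRR, hMK⟩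
            obtain ⟨t0, ht0⟩ := F_lim c (Z 0) (Nat.pair x.unpair.1 q)
            obtain ⟨t, ht⟩ : ∃ t, t = max t0 (max x (L + 1)) := ⟨_, rfl⟩
            obtain ⟨s0, hs0⟩ := O.Vf_complete S hk (lt_of_lt_of_le hq (ul_le_NN _)) hIN.1 hIN.2 t
            refine ⟨((s0, t), fl c (Z 0) (Nat.pair x.unpair.1 q)), ⟨?_, ?_⟩, ht0 t (by omega), rfl,
              (NS_iff S O hk hIN (hs0 s0 le_rfl)).2 fun t' _ h7 => hRR ⟨t', h7.1, h7.2⟩⟩
            · simp only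
              omega
            · simp only
              omega
          · exact Or.inr (Or.inl hMK)
        · exact Or.inl hIN
    · constructor
      · rintro (h | ⟨h, _⟩)
        · exact h.2
        · exact absurd h hx
      · intro h
        exact Or.inl ⟨by omega, h⟩

end

end Pool.Agent.Run7.h353.PI
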